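import Pool.Agent.PowQ.Defs2

/-!
# Chains of braid generators in groups of exponent `N`
-/

namespace Pool.Agent.PowQ

variable {Q : Type*} [Group Q]

/-- A chain of `l` elements with the braid relations. -/
structure Chain (s : ℕ → Q) (l : ℕ) : Prop where
  braid : ∀ i, i + 1 < l → s i * s (i + 1) * s i = s (i + 1) * s i * s (i + 1)
  comm : ∀ i j, i + 2 ≤ j → j < l → s i * s j = s j * s i

theorem eq_of_braid_comm {a b : Q} (h : a * b * a = b * a * b) (h' : a * b = b * a) :
    a = b := by
  rw [h', mul_assoc, mul_assoc] at h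
  have h2 := mul_left_cancel h
  have h3 : a * a = a * b := h2
  exact mul_left_cancel h3

theorem cw_comm {s : ℕ → Q} {l : ℕ} (h : Chain s l) (r j : ℕ) (hj : r + 1 ≤ j) (hl : j < l) :
    cw s r * s j = s j * cw s r := by
  induction r with
  | zero => simp [cw]
  | succ r ih =>
    have h1 := ih (by omega)
    have h2 := h.comm r j (by omega) hl
    simp only [cw]
    rw [mul_assoc, h2, ← mul_assoc, h1, mul_assoc]

theorem cw_shift {s : ℕ → Q} {l : ℕ} (h : Chain s l) (r i : ℕ) (hi : i + 1 < r) (hr : r ≤ l) :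
    cw s r * s i = s (i + 1) * cw s r := by
  induction r with
  | zero => omega
  | succ r ih =>
    rcases Nat.lt_or_ge (i + 1) r with h1 | h1
    · have h2 := ih h1 (by omega)
      have h3 := h.comm i r (by omega) (by omega)
      simp only [cw]
      rw [mul_assoc, ← h3, ← mul_assoc, h2, mul_assoc]
    · have h4 : r = i + 1 := by omega
      subst h4
      have h5 := h.braid i (by omega)
      have h6 := cw_comm h i (i + 1) (by omega) (by omega)
      simp only [cw]
      calc cw s i * s i * s (i + 1) * s i = cw s i * (s i * s (i + 1) * s i) := by group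
        _ = cw s i * (s (i + 1) * s i * s (i + 1)) := by rw [h5]
        _ = (cw s i * s (i + 1)) * s i * s (i + 1) := by group
        _ = s (i + 1) * (cw s i * s i * s (i + 1)) := by rw [h6]; group

theorem cw_sq {s : ℕ → Q} {l : ℕ} (h : Chain s l) (r : ℕ) (hr : r + 1 ≤ l) :
    cw s (r + 1) * cw s (r + 1) * s r = s 0 * (cw s (r + 1) * cw s (r + 1)) := by
  -- `c * cw s j = (shifted product) * c`
  have key : ∀ j, j ≤ r → ∀ z : Q, s 0 * (cw s (r + 1) * cw s j * z)
      = cw s (j + 1) * (cw s (r + 1) * z) := by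
    intro j
    induction j with
    | zero => intro _ z; simp [cw]
    | succ j ih =>
      intro hj z
      have h1 := ih (by omega) (s j * z)
      have h2 := cw_shift h (r + 1) j (by omega) hr
      have h3 : cw s (j + 1 + 1) = cw s (j + 1) * s (j + 1) := rfl
      have h4 : cw s (j + 1) = cw s j * s j := rfl
      calc s 0 * (cw s (r + 1) * cw s (j + 1) * z)
          = s 0 * (cw s (r + 1) * cw s j * (s j * z)) := by rw [h4]; group
        _ = cw s (j + 1) * (cw s (r + 1) * (s j * z)) := h1
        _ = cw s (j + 1) * ((cw s (r + 1) * s j) * z) := by group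
        _ = cw s (j + 1 + 1) * (cw s (r + 1) * z) := by rw [h2, h3]; group
  have h1 := key r le_rfl (s r)
  have h4 : cw s (r + 1) = cw s r * s r := rfl
  calc cw s (r + 1) * cw s (r + 1) * s r = cw s (r + 1) * (cw s (r + 1) * s r) := by group
    _ = s 0 * (cw s (r + 1) * cw s r * s r) := h1.symm
    _ = s 0 * (cw s (r + 1) * cw s (r + 1)) := by rw [mul_assoc, ← h4]

theorem cw_pow {s : ℕ → Q} {l : ℕ} (h : Chain s l) (r i : ℕ) (hi : i < r) (hr : r ≤ l) :
    cw s r ^ i * s 0 = s i * cw s r ^ i := by
  induction i with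
  | zero => simp
  | succ i ih =>
    rw [pow_succ', mul_assoc, ih (by omega), ← mul_assoc, cw_shift h r i hi hr]
    group

theorem cw_full {s : ℕ → Q} {l : ℕ} (h : Chain s l) (r : ℕ) (hr : r + 1 ≤ l) :
    cw s (r + 1) ^ (r + 2) * s 0 = s 0 * cw s (r + 1) ^ (r + 2) := by
  have h1 := cw_pow h (r + 1) r (by omega) hr
  have h2 := cw_sq h r hr
  have h3 : cw s (r + 1) ^ (r + 2) = cw s (r + 1) * cw s (r + 1) * cw s (r + 1) ^ r := by
    rw [show r + 2 = 2 + r by ring, pow_add, pow_two]
  rw [h3, mul_assoc, h1, ← mul_assoc, h2]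
  group

theorem pow_gcd_comm {c a : Q} {m N : ℕ} (h1 : c ^ m * a = a * c ^ m) (h2 : c ^ N = 1) :
    c ^ (Nat.gcd m N) * a = a * c ^ (Nat.gcd m N) := by
  have h3 : c ^ ((Nat.gcd m N : ℕ) : ℤ) = (c ^ m) ^ (Nat.gcdA m N) := by
    rw [Nat.gcd_eq_gcd_ab, zpow_add, zpow_mul, zpow_mul, zpow_natCast, zpow_natCast, h2]
    simp
  have h4 : Commute ((c ^ m) ^ (Nat.gcdA m N)) a := Commute.zpow_left h1 _
  rw [zpow_natCast] at h3
  rw [h3]
  exact h4

theorem all_eq {s : ℕ → Q} {l : ℕ} (h : Chain s l) (hl : 4 ≤ l) (d : ℕ) (hd : 1 ≤ d)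
    (hd' : d < l) (he : s 0 = s d) : ∀ i, i < l → s i = s 0 := by
  -- reduction to `d = 1`
  have h1 : s 0 = s 1 := by
    induction d with
    | zero => omega
    | succ d ih =>
      rcases Nat.lt_or_ge d 1 with h0 | h0
      · have : d = 0 := by omega
        subst this; exact he
      rcases Nat.lt_or_ge d 2 with h2 | h2
      · have : d = 1 := by omega
        subst this
        have e3 : s 2 = s 3 := by
          refine eq_of_braid_comm (h.braid 2 (by omega)) ?_
          have := h.comm 0 3 (by omega) (by omega)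
          rw [he] at this
          exact this
        have e1 : s 1 = s 2 := by
          refine eq_of_braid_comm (h.braid 1 (by omega)) ?_
          have := h.comm 1 3 (by omega) (by omega)
          rw [← e3] at this
          exact this
        rw [he, e1]
      · have e : s d = s (d + 1) := by
          refine eq_of_braid_comm (h.braid d (by omega)) ?_
          have := h.comm 0 d (by omega) (by omega)
          rw [he] at this
          exact this.symm
        exact ih h0 (by omega) (he.trans e.symm)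
  have h2 : ∀ i, i + 1 < l → s i = s 0 ∧ s (i + 1) = s 0 := by
    intro i
    induction i with
    | zero => intro _; exact ⟨rfl, h1.symm⟩
    | succ i ih =>
      intro hi
      obtain ⟨a1, a2⟩ := ih (by omega)
      refine ⟨a2, ?_⟩
      have e : s (i + 1) = s (i + 2) := by
        refine eq_of_braid_comm (h.braid (i + 1) hi) ?_
        have := h.comm i (i + 2) (by omega) hi
        rw [a1, ← a2] at this
        exact this
      rw [← a2]; exact e.symm
  intro i hi
  rcases Nat.eq_zero_or_pos i with h0 | h0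
  · rw [h0]
  · have := (h2 (i - 1) (by omega)).2
    rwa [Nat.sub_add_cancel h0] at this

theorem collapse {s : ℕ → Q} {l : ℕ} (h : Chain s l) (hl : 4 ≤ l) (N : ℕ)
    (hN : ∀ x : Q, x ^ N = 1) (d : ℕ) (hd : 1 ≤ d) (hd' : d ≤ l + 1) (hdN : ¬ d ∣ N) :
    ∀ i, i < l → s i = s 0 := by
  -- we may take `d ≥ 3`
  obtain ⟨r, hr2, hr3, hrN⟩ : ∃ r, 1 ≤ r ∧ r + 1 ≤ l ∧ ¬ (r + 2) ∣ N := by
    rcases Nat.lt_or_ge d 3 with h3 | h3
    · have hd1 : d ≠ 1 := by rintro rfl; exact hdN (one_dvd _)
      have hd2 : d = 2 := by omega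
      subst hd2
      exact ⟨2, by omega, by omega, fun h4 => hdN (dvd_trans (by norm_num) h4)⟩
    · refine ⟨d - 2, by omega, by omega, ?_⟩
      rwa [Nat.sub_add_cancel (by omega)]
  set c := cw s (r + 1) with hc
  have h1 := pow_gcd_comm (cw_full h r hr3) (hN c)
  set e := Nat.gcd (r + 2) N with he
  have he1 : e ∣ r + 2 := Nat.gcd_dvd_left _ _
  have he2 : e ∣ N := Nat.gcd_dvd_right _ _
  have he3 : e ≠ r + 2 := by intro h5; rw [h5] at he2; exact hrN he2
  have he0 : 1 ≤ e := Nat.gcd_pos_of_pos_left _ (by omega)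
  obtain ⟨q, hq⟩ := he1
  have hq2 : 2 ≤ q := by
    rcases Nat.lt_or_ge q 2 with h5 | h5
    · interval_cases q
      · omega
      · omega
    · exact h5
  have he4 : e < r + 1 := by nlinarith
  have h2 := cw_pow h (r + 1) e he4 hr3
  have h3 : s 0 = s e := by
    have h6 : s 0 * c ^ e = s e * c ^ e := by rw [← h1, ← h2]
    exact mul_right_cancel h6
  exact all_eq h hl e he0 (by omega) h3

end Pool.Agent.PowQ
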