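import Pool.Agent.PowQ.Gen

/-!
# Coxeter elements of type `D_n`
-/

namespace Pool.Agent.PowQ

variable {Q : Type*} [Group Q]

/-- The relations of type `D`: two commuting elements `f`, `f'` at the beginning of a chain. -/
structure Fork (f f' : Q) (t : ℕ → Q) (p : ℕ) : Prop where
  ff : f * f' = f' * f
  b : f * t 0 * f = t 0 * f * t 0
  b' : f' * t 0 * f' = t 0 * f' * t 0
  c : ∀ i, 1 ≤ i → i < p → f * t i = t i * f
  c' : ∀ i, 1 ≤ i → i < p → f' * t i = t i * f'
  ch : Chain t p

theorem Fork.symm {f f' : Q} {t : ℕ → Q} {p : ℕ} (h : Fork f f' t p) : Fork f' f t p where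
  ff := h.ff.symm
  b := h.b'
  b' := h.b
  c := h.c'
  c' := h.c
  ch := h.ch

theorem cw_cons (t : ℕ → Q) (k : ℕ) : cw t (k + 1) = t 0 * cw (fun i => t (i + 1)) k := by
  induction k with
  | zero => simp [cw]
  | succ k ih =>
    have h1 : cw t (k + 1 + 1) = cw t (k + 1) * t (k + 1) := rfl
    have h2 : cw (fun i => t (i + 1)) (k + 1) = cw (fun i => t (i + 1)) k * t (k + 1) := rfl
    rw [h1, ih, h2, mul_assoc]

theorem cw_congr {s t : ℕ → Q} (k : ℕ) (h : ∀ i, i < k → s i = t i) : cw s k = cw t k := by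
  induction k with
  | zero => rfl
  | succ k ih =>
    simp only [cw]
    rw [ih (fun i hi => h i (by omega)), h k (by omega)]

theorem map_cw {H : Type*} [Group H] (φ : Q →* H) (t : ℕ → Q) (k : ℕ) :
    φ (cw t k) = cw (fun i => φ (t i)) k := by
  induction k with
  | zero => simp [cw]
  | succ k ih => simp only [cw, map_mul, ih]

/-- An element which commutes with `t 1, ..., t k` commutes with their product. -/
theorem comm_cw {f : Q} {t : ℕ → Q} (k : ℕ) (h : ∀ i, i < k → f * t i = t i * f) :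
    f * cw t k = cw t k * f := by
  induction k with
  | zero => simp [cw]
  | succ k ih =>
    simp only [cw]
    rw [← mul_assoc, ih (fun i hi => h i (by omega)), mul_assoc, h k (by omega), mul_assoc]

/-- The Coxeter element moves `f` to `f' t 0 f'⁻¹`. -/
theorem Fork.conj_f {f f' : Q} {t : ℕ → Q} {q : ℕ} (h : Fork f f' t (q + 1)) :
    (f * f' * cw t (q + 1)) * f = (f' * t 0 * f'⁻¹) * (f * f' * cw t (q + 1)) := by
  have h1 : f * cw (fun i => t (i + 1)) q = cw (fun i => t (i + 1)) q * f :=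
    comm_cw q (fun i hi => h.c (i + 1) (by omega) (by omega))
  rw [cw_cons]
  set T := cw (fun i => t (i + 1)) q
  calc f * f' * (t 0 * T) * f = f * f' * t 0 * (T * f) := by group
    _ = (f * f') * t 0 * f * T := by rw [← h1]; group
    _ = f' * (f * t 0 * f) * T := by rw [h.ff]; group
    _ = f' * t 0 * f * t 0 * T := by rw [h.b]; group
    _ = (f' * t 0 * f'⁻¹) * ((f' * f) * (t 0 * T)) := by group
    _ = (f' * t 0 * f'⁻¹) * (f * f' * (t 0 * T)) := by rw [h.ff]

theorem Fork.conj_t {f f' : Q} {t : ℕ → Q} {p : ℕ} (h : Fork f f' t p) (i : ℕ)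
    (hi : i + 1 < p) : (f * f' * cw t p) * t i = t (i + 1) * (f * f' * cw t p) := by
  have h1 := cw_shift h.ch p i hi le_rfl
  have h2 := h.c (i + 1) (by omega) hi
  have h3 := h.c' (i + 1) (by omega) hi
  calc (f * f' * cw t p) * t i = f * f' * (cw t p * t i) := by group
    _ = f * (f' * t (i + 1)) * cw t p := by rw [h1]; group
    _ = (f * t (i + 1)) * f' * cw t p := by rw [h3]; group
    _ = t (i + 1) * (f * f' * cw t p) := by rw [h2]; group

/-- The element `f` or `f'`. -/
def fk (f f' : Q) (k : ℕ) : Q := if Even k then f else f'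

theorem Fork.conj_fk {f f' : Q} {t : ℕ → Q} {q : ℕ} (h : Fork f f' t (q + 1)) (k : ℕ) :
    (f * f' * cw t (q + 1)) * fk f f' k =
      (fk f f' (k + 1) * t 0 * (fk f f' (k + 1))⁻¹) * (f * f' * cw t (q + 1)) := by
  by_cases hk : Even k
  · have hk' : ¬ Even (k + 1) := by rwa [Nat.even_add_one, not_not]
    simp only [fk, hk, hk', if_true, if_false]
    exact h.conj_f
  · have hk' : Even (k + 1) := by rwa [Nat.even_add_one]
    simp only [fk, hk, hk', if_true, if_false]
    have := h.symm.conj_f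
    rw [h.ff.symm] at this
    exact this

theorem Fork.fk_comm {f f' : Q} {t : ℕ → Q} {p : ℕ} (h : Fork f f' t p) (k i : ℕ)
    (hi : 1 ≤ i) (hi' : i < p) : fk f f' k * t i = t i * fk f f' k := by
  by_cases hk : Even k
  · simp only [fk, hk, if_true]; exact h.c i hi hi'
  · simp only [fk, hk, if_false]; exact h.c' i hi hi'

theorem Fork.step {f f' : Q} {t : ℕ → Q} {q : ℕ} (h : Fork f f' t (q + 1)) (k : ℕ)
    (hk : k ≤ q) : (f * f' * cw t (q + 1)) ^ (k + 1) * f =
      (fk f f' (k + 1) * (cw t k * t k * (cw t k)⁻¹) * (fk f f' (k + 1))⁻¹) *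
        (f * f' * cw t (q + 1)) ^ (k + 1) := by
  have kf := h.conj_fk
  have kt := fun i hi => h.conj_t (p := q + 1) i hi
  have kc := h.fk_comm
  generalize f * f' * cw t (q + 1) = c at kf kt ⊢
  induction k with
  | zero =>
    have h1 := kf 0
    simp only [zero_add, pow_one, cw, inv_one, mul_one, one_mul]
    simpa [fk] using h1
  | succ k ih =>
    have ih' := ih (by omega)
    have e0 : c ^ (k + 1) * f * (c ^ (k + 1))⁻¹ =
        fk f f' (k + 1) * (cw t k * t k * (cw t k)⁻¹) * (fk f f' (k + 1))⁻¹ := by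
      rw [ih']; group
    set φ : Q →* Q := (MulAut.conj c).toMonoidHom with hφ
    have hφ' : ∀ x, φ x = c * x * c⁻¹ := fun x => rfl
    have e1 : φ (fk f f' (k + 1)) = fk f f' (k + 2) * t 0 * (fk f f' (k + 2))⁻¹ := by
      rw [hφ', kf (k + 1)]; group
    have e2 : ∀ i, i ≤ k → φ (t i) = t (i + 1) := by
      intro i hi
      rw [hφ', kt i (by omega)]; group
    have e3 : φ (cw t k) = cw (fun i => t (i + 1)) k := by
      rw [map_cw]
      exact cw_congr k (fun i hi => e2 i (by omega))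
    have e4 : fk f f' (k + 2) * cw (fun i => t (i + 1)) k
        = cw (fun i => t (i + 1)) k * fk f f' (k + 2) :=
      comm_cw k (fun i hi => kc (k + 2) (i + 1) (by omega) (by omega))
    have e5 := kc (k + 2) (k + 1) (by omega) (by omega)
    have e7 : cw t (k + 1) = t 0 * cw (fun i => t (i + 1)) k := cw_cons t k
    have e6 : c * (c ^ (k + 1) * f * (c ^ (k + 1))⁻¹) * c⁻¹ =
        fk f f' (k + 2) * t 0 * (fk f f' (k + 2))⁻¹ *
          (cw (fun i => t (i + 1)) k * t (k + 1) * (cw (fun i => t (i + 1)) k)⁻¹) *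
          (fk f f' (k + 2) * t 0 * (fk f f' (k + 2))⁻¹)⁻¹ := by
      rw [e0, ← hφ']
      simp only [map_mul, map_inv, e1, e3, e2 k le_rfl]
    rw [e7]
    generalize fk f f' (k + 1 + 1) = F at e4 e5 e6 ⊢
    generalize cw (fun i => t (i + 1)) k = U at e4 e6 ⊢
    have e8 : F⁻¹ * U = U * F⁻¹ := by
      have : Commute F U := e4
      exact this.inv_left
    have e9 : F⁻¹ * t (k + 1) = t (k + 1) * F⁻¹ := by
      have : Commute F (t (k + 1)) := e5
      exact this.inv_left
    have e12 : F⁻¹ * U⁻¹ * F = U⁻¹ := by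
      have hc1 : Commute F⁻¹ U⁻¹ := (show Commute F⁻¹ U from e8).inv_right
      rw [hc1.eq]; group
    have e10 : c ^ (k + 1 + 1) * f * (c ^ (k + 1 + 1))⁻¹ =
        F * (t 0 * U * t (k + 1) * (t 0 * U)⁻¹) * F⁻¹ := by
      calc c ^ (k + 1 + 1) * f * (c ^ (k + 1 + 1))⁻¹
          = c * (c ^ (k + 1) * f * (c ^ (k + 1))⁻¹) * c⁻¹ := by rw [pow_succ' c (k + 1)]; group
        _ = F * t 0 * F⁻¹ * (U * t (k + 1) * U⁻¹) * (F * t 0 * F⁻¹)⁻¹ := e6
        _ = F * t 0 * (F⁻¹ * U) * t (k + 1) * U⁻¹ * F * (t 0)⁻¹ * F⁻¹ := by group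
        _ = F * t 0 * U * (F⁻¹ * t (k + 1)) * U⁻¹ * F * (t 0)⁻¹ * F⁻¹ := by rw [e8]; group
        _ = F * t 0 * U * t (k + 1) * (F⁻¹ * U⁻¹ * F) * (t 0)⁻¹ * F⁻¹ := by rw [e9]; group
        _ = F * t 0 * U * t (k + 1) * U⁻¹ * (t 0)⁻¹ * F⁻¹ := by rw [e12]
        _ = F * (t 0 * U * t (k + 1) * (t 0 * U)⁻¹) * F⁻¹ := by group
    rw [← e10]; group

/-- The power of the Coxeter element of type `D_(q + 3)` which exchanges `f` and `f'` or fixes
them. -/
theorem Fork.full {f f' : Q} {t : ℕ → Q} {q : ℕ} (h : Fork f f' t (q + 1)) :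
    (f * f' * cw t (q + 1)) ^ (q + 2) * f = fk f f' (q + 1) * (f * f' * cw t (q + 1)) ^ (q + 2) := by
  have hs := h.step q le_rfl
  have kf := h.conj_fk (q + 1)
  -- `F = fk (q + 2)`, `G = fk (q + 1)` is the other one
  have hFG : fk f f' (q + 2) * fk f f' (q + 1) = f * f' := by
    by_cases hk : Even q
    · have h1 : ¬ Even (q + 1) := by rwa [Nat.even_add_one, not_not]
      have h2 : Even (q + 2) := by rwa [Nat.even_add_one]
      simp [fk, h1, h2]
    · have h1 : Even (q + 1) := by rwa [Nat.even_add_one]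
      have h2 : ¬ Even (q + 2) := by rwa [Nat.even_add_one, not_not]
      simp [fk, h1, h2, h.ff]
  have hcm : fk f f' (q + 2) * fk f f' (q + 1) = fk f f' (q + 1) * fk f f' (q + 2) := by
    by_cases hk : Even q
    · have h1 : ¬ Even (q + 1) := by rwa [Nat.even_add_one, not_not]
      have h2 : Even (q + 2) := by rwa [Nat.even_add_one]
      simp [fk, h1, h2, h.ff]
    · have h1 : Even (q + 1) := by rwa [Nat.even_add_one]
      have h2 : ¬ Even (q + 2) := by rwa [Nat.even_add_one, not_not]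
      simp [fk, h1, h2, h.ff]
  have hG : fk f f' (q + 1) * t 0 * fk f f' (q + 1) = t 0 * fk f f' (q + 1) * t 0 := by
    by_cases hk : Even (q + 1)
    · simp only [fk, hk, if_true]; exact h.b
    · simp only [fk, hk, if_false]; exact h.b'
  have hGU : fk f f' (q + 1) * cw (fun i => t (i + 1)) q
      = cw (fun i => t (i + 1)) q * fk f f' (q + 1) :=
    comm_cw q (fun i hi => h.fk_comm (q + 1) (i + 1) (by omega) (by omega))
  have hFU : fk f f' (q + 2) * cw (fun i => t (i + 1)) q
      = cw (fun i => t (i + 1)) q * fk f f' (q + 2) :=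
    comm_cw q (fun i hi => h.fk_comm (q + 2) (i + 1) (by omega) (by omega))
  have hT1 : cw t (q + 1) = t 0 * cw (fun i => t (i + 1)) q := cw_cons t q
  have hT2 : cw t (q + 1) = cw t q * t q := rfl
  have hTT : cw t (q + 1) * cw t q = cw (fun i => t (i + 1)) q * cw t (q + 1) := by
    have : ∀ k, k ≤ q → cw t (q + 1) * cw t k = cw (fun i => t (i + 1)) k * cw t (q + 1) := by
      intro k
      induction k with
      | zero => intro _; simp [cw]
      | succ k ih =>
        intro hk
        have h1 := ih (by omega)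
        have h2 := cw_shift h.ch (q + 1) k (by omega) le_rfl
        have h3 : cw t (k + 1) = cw t k * t k := rfl
        have h4 : cw (fun i => t (i + 1)) (k + 1) = cw (fun i => t (i + 1)) k * t (k + 1) := rfl
        rw [h3, ← mul_assoc, h1, mul_assoc, h2, h4, mul_assoc]
    exact this q le_rfl
  have hcU : (f * f' * cw t (q + 1)) * cw t q =
      cw (fun i => t (i + 1)) q * (f * f' * cw t (q + 1)) := by
    have h1 : (f * f') * cw (fun i => t (i + 1)) q = cw (fun i => t (i + 1)) q * (f * f') := by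
      rw [← hFG, mul_assoc, hGU, ← mul_assoc, hFU, mul_assoc]
    rw [mul_assoc (f * f'), hTT, ← mul_assoc, h1, mul_assoc]
  rw [← hFG] at hs kf hcU ⊢
  have hs' : (fk f f' (q + 2) * fk f f' (q + 1) * cw t (q + 1)) ^ (q + 2) * f =
      (fk f f' (q + 2) * fk f f' (q + 1) * cw t (q + 1)) *
        (fk f f' (q + 1) * (cw t q * t q * (cw t q)⁻¹) * (fk f f' (q + 1))⁻¹) *
        (fk f f' (q + 2) * fk f f' (q + 1) * cw t (q + 1)) ^ (q + 1) := by
    rw [pow_succ' _ (q + 1), mul_assoc, hs]; group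
  rw [hs']
  generalize fk f f' (q + 2) = F at *
  generalize fk f f' (q + 1) = G at *
  generalize cw (fun i => t (i + 1)) q = U at *
  generalize hT' : cw t q = T' at *
  generalize hT0 : cw t (q + 1) = T at *
  generalize hc : F * G * T = c at *
  have e1 : c * G = F * t 0 * F⁻¹ * c := kf
  have e2 : c * T' = U * c := hcU
  have e3 : T * G * T = G * T * G * T' := by
    calc T * G * T = t 0 * (U * G) * T := by rw [hT1]; group
      _ = t 0 * G * (U * T) := by rw [← hGU]; group
      _ = t 0 * G * T * T' := by rw [← hTT]; group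
      _ = (t 0 * G * t 0) * U * T' := by rw [hT1]; group
      _ = G * t 0 * (G * U) * T' := by rw [← hG]; group
      _ = G * (t 0 * U) * G * T' := by rw [hGU]; group
      _ = G * T * G * T' := by rw [hT1]
  have main : c * (G * (T' * t q * T'⁻¹) * G⁻¹) = G * c := by
    have h5 : F⁻¹ * U = U * F⁻¹ := by
      have : Commute F U := hFU
      exact this.inv_left
    calc c * (G * (T' * t q * T'⁻¹) * G⁻¹) = (c * G) * T' * t q * T'⁻¹ * G⁻¹ := by group
      _ = F * t 0 * F⁻¹ * (c * T') * t q * T'⁻¹ * G⁻¹ := by rw [e1]; group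
      _ = F * t 0 * (F⁻¹ * U) * c * t q * T'⁻¹ * G⁻¹ := by rw [e2]; group
      _ = F * (t 0 * U) * F⁻¹ * c * t q * T'⁻¹ * G⁻¹ := by rw [h5]; group
      _ = F * T * F⁻¹ * (F * G * T) * t q * T'⁻¹ * G⁻¹ := by rw [← hT1, hc]
      _ = F * (T * G * T) * t q * T'⁻¹ * G⁻¹ := by group
      _ = F * (G * T * G * T') * t q * T'⁻¹ * G⁻¹ := by rw [e3]
      _ = F * G * (T * G * (T' * t q)) * T'⁻¹ * G⁻¹ := by group
      _ = F * G * (T * G * T) * T'⁻¹ * G⁻¹ := by rw [← hT2]
      _ = F * G * (G * T * G * T') * T'⁻¹ * G⁻¹ := by rw [e3]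
      _ = (F * G) * G * T := by group
      _ = G * F * G * T := by rw [hcm]
      _ = G * c := by rw [← hc]; group
  rw [main, pow_succ' c (q + 1)]
  group

end Pool.Agent.PowQ
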