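import Mathlib

/-!
# Power quotients of mapping class groups: definitions
-/

namespace Pool.Agent.PowQ

/-- The subgroup generated by all `N`-th powers. -/
def powSub (G : Type*) [Group G] (N : ℕ) : Subgroup G :=
  Subgroup.closure {x | ∃ g : G, x = g ^ N}

/-- The generator number `i`. -/
abbrev gen {m : ℕ} (i : Fin m) : FreeGroup (Fin m) := FreeGroup.of i

/-- The braid relators on `m` generators (`m + 1` strands). -/
def braidRel (m : ℕ) : Set (FreeGroup (Fin m)) :=
  {r | (∃ i j : Fin m, i.val + 2 ≤ j.val ∧ r = gen i * gen j * (gen j * gen i)⁻¹) ∨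
    ∃ i j : Fin m, j.val = i.val + 1 ∧
      r = gen i * gen j * gen i * (gen j * gen i * gen j)⁻¹}

/-- Artin's braid group on `m + 1` strands. -/
abbrev Braid (m : ℕ) := PresentedGroup (braidRel m)

/-- The product of all generators, in increasing order. -/
def chainWord (m : ℕ) : FreeGroup (Fin m) := (List.ofFn (fun i : Fin m => gen i)).prod

/-- The product of all generators, in decreasing order. -/
def chainWordRev (m : ℕ) : FreeGroup (Fin m) :=
  (List.ofFn (fun i : Fin m => gen i)).reverse.prod

/-- The relators of the mapping class group of the sphere with `m + 1` punctures. -/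
def sphRel (m : ℕ) : Set (FreeGroup (Fin m)) :=
  {r | r ∈ braidRel m ∨ r = chainWord m ^ (m + 1) ∨ r = chainWord m * chainWordRev m}

/-- The mapping class group of the sphere with `m + 1` punctures. -/
abbrev Sph (m : ℕ) := PresentedGroup (sphRel m)

/-- The word of the hyperelliptic involution. -/
def hyp : FreeGroup (Fin 5) :=
  gen 0 * gen 1 * gen 2 * gen 3 * gen 4 * gen 4 * gen 3 * gen 2 * gen 1 * gen 0

/-- The relators of Birman and Hilden. -/
def bhRel : Set (FreeGroup (Fin 5)) :=
  {r | r ∈ braidRel 5 ∨ r = (gen 0 * gen 1 * gen 2 * gen 3 * gen 4) ^ 6 ∨ r = hyp ^ 2 ∨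
    ∃ i : Fin 5, r = hyp * gen i * (gen i * hyp)⁻¹}

/-- The mapping class group of the closed surface of genus two. -/
abbrev Mod2 := PresentedGroup bhRel

/-- Humphries generators `a 0, ..., a (2 g)` of the mapping class group of a closed surface of
genus `g` (Dehn twists; `a 1, ..., a (2 g + 1)` form a chain, `a 0` meets only `a 4`). -/
structure Humphries (g : ℕ) (G : Type*) [Group G] where
  a : ℕ → G
  braid : ∀ i, 1 ≤ i → i ≤ 2 * g → a i * a (i + 1) * a i = a (i + 1) * a i * a (i + 1)
  comm : ∀ i j, 1 ≤ i → i + 2 ≤ j → j ≤ 2 * g + 1 → a i * a j = a j * a i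
  braid0 : a 0 * a 4 * a 0 = a 4 * a 0 * a 4
  comm0 : ∀ i, 1 ≤ i → i ≤ 2 * g → i ≠ 4 → a 0 * a i = a i * a 0
  gen : Subgroup.closure {x | ∃ i ≤ 2 * g, x = a i} = ⊤

end Pool.Agent.PowQ
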