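import Pool.Agent.PowQ.Defs

/-!
# Power subgroups of mapping class groups of surfaces: definitions
-/

namespace Pool.Agent.PowQ

/-- The relators of the braid group on three strands and `(s t) ^ e`. -/
def torRel (e : ℕ) : Set (FreeGroup (Fin 2)) :=
  {r | r ∈ braidRel 2 ∨ r = (gen 0 * gen 1) ^ e}

/-- The modular group, the mapping class group of the torus. -/
abbrev Tor := PresentedGroup (torRel 6)

/-- The modular group modulo its center. -/
abbrev PTor := PresentedGroup (torRel 3)

/-- The relator of the annular braid group on two strands. -/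
def abRel : Set (FreeGroup (Fin 2)) :=
  {gen 0 * gen 1 * gen 0 * gen 1 * (gen 1 * gen 0 * gen 1 * gen 0)⁻¹}

/-- The annular braid group on two strands: the half twist `gen 0` and the twist `gen 1` of the
first strand around the hole. -/
abbrev AB := PresentedGroup abRel

/-- The data of the mapping class group of a surface of positive genus: `tw` are the Dehn twists
along the nonseparating curves, `z` the Dehn twists along the boundary components, they generate a
subgroup of finite index; `s` is a chain of `l` nonseparating twists, consecutive curves meeting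
once, the others disjoint; any two nonseparating curves are joined by a sequence of such curves in
which consecutive ones meet once, and any two curves which meet once are the images of the first
two curves of the chain under a mapping class. -/
structure Surface (l : ℕ) (M : Type*) [Group M] where
  tw : Set M
  z : Set M
  zfin : z.Finite
  zcomm : ∀ x ∈ z, ∀ y, x * y = y * x
  fin : (Subgroup.closure (tw ∪ z)).index ≠ 0
  s : ℕ → M
  mem : ∀ i, i < l → s i ∈ tw
  braid : ∀ i, i + 1 < l → s i * s (i + 1) * s i = s (i + 1) * s i * s (i + 1)
  comm : ∀ i j, i + 2 ≤ j → j < l → s i * s j = s j * s i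
  conn : ∀ x ∈ tw, ∀ y ∈ tw, Relation.EqvGen
    (fun u v => ∃ g : M, u = g * s 0 * g⁻¹ ∧ v = g * s 1 * g⁻¹) x y

/-- The data of the mapping class group of a surface of genus zero with `n` punctures and at most
three boundary components: `s i` is the half twist of the punctures `i` and `i + 1`, `y₁` and `y₂`
are the Dehn twists along curves which surround the puncture `0` and the first, the second,
boundary component (`y₂ = 1` if there are two boundary components, `y₁ = y₂ = 1` if there is one),
and `z` are the Dehn twists along the boundary components. -/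
structure Planar (n : ℕ) (M : Type*) [Group M] where
  s : ℕ → M
  y₁ : M
  y₂ : M
  z : Set M
  zfin : z.Finite
  zcomm : ∀ x ∈ z, ∀ y, x * y = y * x
  gen : Subgroup.closure ({x | ∃ i, i + 1 < n ∧ x = s i} ∪ {y₁, y₂} ∪ z) = ⊤
  braid : ∀ i, i + 2 < n → s i * s (i + 1) * s i = s (i + 1) * s i * s (i + 1)
  comm : ∀ i j, i + 2 ≤ j → j + 1 < n → s i * s j = s j * s i
  far₁ : ∀ i, 1 ≤ i → i + 1 < n → y₁ * s i = s i * y₁
  far₂ : ∀ i, 1 ≤ i → i + 1 < n → y₂ * s i = s i * y₂
  near₁ : s 0 * y₁ * s 0 * y₁ = y₁ * s 0 * y₁ * s 0
  near₂ : s 0 * y₂ * s 0 * y₂ = y₂ * s 0 * y₂ * s 0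
  both : y₁ * ((s 0)⁻¹ * y₂ * s 0) = (s 0)⁻¹ * y₂ * s 0 * y₁

/-- The data of a surface of genus `g` at least two together with one more curve, which meets only
the fourth curve of the chain (the last curve of the chain is not considered). -/
structure SurfaceF (g : ℕ) (M : Type*) [Group M] extends Surface (2 * g + 1) M where
  f : M
  fbraid : f * s 3 * f = s 3 * f * s 3
  fcomm : ∀ i, i < 2 * g → i ≠ 3 → f * s i = s i * f

/-- The product `s 0 * ... * s (r - 1)`. -/
def cw {Q : Type*} [Group Q] (s : ℕ → Q) : ℕ → Q
  | 0 => 1
  | r + 1 => cw s r * s r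

/-- The product of the elements `b 0, b 1, ..., b (p - 2)`. -/
def tau {Q : Type*} [Group Q] (p : ℕ) (b : ZMod p → Q) : Q := cw (fun j => b (j : ZMod p)) (p - 1)

/-- Dehn twists on the `p`-fold cyclic cover of the disc branched over the points `0, ..., m`: the
curves `b i j`, `j` modulo `p`, lie over the arc from the point `i` to the point `i + 1`; the
product `tau` of the first `p - 1` of them is the lift of the half twist and permutes them
cyclically; `b i j` meets `b (i + 1) k` (once) only for `k = j` and `k = j - 1`. -/
structure Grid {Q : Type*} [Group Q] (p m : ℕ) (b : ℕ → ZMod p → Q) : Prop where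
  rot : ∀ i, i < m → ∀ j, tau p (b i) * b i j = b i (j + 1) * tau p (b i)
  near : ∀ i, i + 1 < m → ∀ j, b i j * b (i + 1) j * b i j = b (i + 1) j * b i j * b (i + 1) j
  near' : ∀ i, i + 1 < m → ∀ j,
    b i (j + 1) * b (i + 1) j * b i (j + 1) = b (i + 1) j * b i (j + 1) * b (i + 1) j
  off : ∀ i, i + 1 < m → ∀ j k, k ≠ j → k + 1 ≠ j → b i j * b (i + 1) k = b (i + 1) k * b i j
  far : ∀ i k, i + 2 ≤ k → k < m → ∀ j l, b i j * b k l = b k l * b i j

/-- The data of a surface of genus `g` at least three: the curves of `SurfaceF`, and, for every odd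
prime `p` and `m = p ^ (e + 1)` with `(p - 1) m ≤ 2 g`, the curves over a chain of `m` arcs in the
`p`-fold cyclic cover of the disc, a surface of genus `(p - 1) m / 2` with one boundary component,
embedded such that the first two of them are the first two curves of the chain. -/
structure SurfaceG (g : ℕ) (M : Type*) [Group M] extends SurfaceF g M where
  grid : ∀ p e : ℕ, p.Prime → 2 < p → (p - 1) * p ^ (e + 1) ≤ 2 * g →
    ∃ b : ℕ → ZMod p → M, Grid p (p ^ (e + 1)) b ∧ b 0 0 = s 0 ∧ b 0 1 = s 1

/-- The power subgroup of exponent `N` can have infinite index only if `L` divides `N`, and it has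
infinite index for `N = L k` if the free Burnside group of rank two and exponent `k` is infinite. -/
def Threshold (M : Type*) [Group M] (L : ℕ) : Prop :=
  (∀ N, (powSub M N).index = 0 → L ∣ N) ∧
    ∀ k, (powSub (FreeGroup (Fin 2)) k).index = 0 → (powSub M (L * k)).index = 0

/-- The number `6` for `n = 3, 4` and the least common multiple of `1, ..., n` for `n ≥ 5`. -/
def lc (n : ℕ) : ℕ := if n ≤ 4 then 6 else (Finset.Icc 1 n).lcm id

end Pool.Agent.PowQ
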