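import Pool.Agent.PowQ.Gen

/-!
# A Coxeter element of type `E_7` and the closed surface of genus three
-/

namespace Pool.Agent.PowQ

/-- Adjacency in the diagram of type `E_7`: the chain `1 - ... - 6` and `0 - 4`. -/
def adj (a b : ℕ) : Bool :=
  (a == 0 && b == 4) || (a == 4 && b == 0) || (a != 0 && b != 0 && (a == b + 1 || b == a + 1))

/-- A braid move (`true`) or a commutation (`false`) at position `p` of a positive word. -/
def move : ℕ → Bool → List ℕ → List ℕ
  | p + 1, t, a :: w => a :: move p t w
  | 0, false, a :: b :: w =>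
    if a != b && !(adj a b) && a < 7 && b < 7 then b :: a :: w else a :: b :: w
  | 0, true, a :: b :: c :: w =>
    if adj a b && a == c && a < 7 && b < 7 then b :: a :: b :: w else a :: b :: c :: w
  | _, _, w => w

/-- A sequence of moves. -/
def moves : List (ℕ × Bool) → List ℕ → List ℕ
  | [], w => w
  | m :: l, w => moves l (move m.1 m.2 w)

/-- The relations of the Artin group of type `E_7`. -/
structure IsE7 {Q : Type*} [Group Q] (s : ℕ → Q) : Prop where
  braid : ∀ a b, a < 7 → b < 7 → adj a b = true → s a * s b * s a = s b * s a * s b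
  comm : ∀ a b, a < 7 → b < 7 → a ≠ b → adj a b = false → s a * s b = s b * s a

theorem move_eval {Q : Type*} [Group Q] {s : ℕ → Q} (h : IsE7 s) (p : ℕ) (t : Bool)
    (w : List ℕ) : ((move p t w).map s).prod = (w.map s).prod := by
  fun_induction move p t w with
  | case1 t p a w ih => simp [ih]
  | case2 a b w hc =>
    simp only [bne_iff_ne, ne_eq, Bool.and_eq_true, Bool.not_eq_true', decide_eq_true_eq] at hc
    obtain ⟨⟨⟨h1, h2⟩, h3⟩, h4⟩ := hc
    have := h.comm a b h3 h4 h1 h2
    simp only [List.map_cons, List.prod_cons, ← mul_assoc]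
    rw [this]
  | case3 a b w hc => rfl
  | case4 a b c w hc =>
    simp only [beq_iff_eq, Bool.and_eq_true, decide_eq_true_eq] at hc
    obtain ⟨⟨⟨h1, h2⟩, h3⟩, h4⟩ := hc
    subst h2
    have := h.braid a b h3 h4 h1
    simp only [List.map_cons, List.prod_cons, ← mul_assoc]
    rw [this]
  | case5 a b c w hc => rfl
  | case6 => rfl

theorem moves_eval {Q : Type*} [Group Q] {s : ℕ → Q} (h : IsE7 s) (l : List (ℕ × Bool))
    (w : List ℕ) : ((moves l w).map s).prod = (w.map s).prod := by
  induction l generalizing w with
  | nil => rfl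
  | cons m l ih => rw [moves, ih, move_eval h]

/-- The certificate. -/
def cert : List (ℕ × Bool) :=
  [(6, false), (5, false), (4, false), (3, false), (2, false), (7, false), (6, false), (5, false), 
  (4, false), (8, false), (7, false), (6, false), (12, false), (11, false), (9, true), (8, false), 
  (34, false), (33, false), (32, false), (31, false), (30, false), (28, true), (27, false), (26, false), 
  (25, false), (24, false), (22, true), (21, false), (20, false), (19, false), (18, false), (16, true), 
  (15, false), (14, false), (13, false), (11, true), (10, false), (35, false), (34, false), (33, false), 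
  (32, false), (30, true), (29, false), (28, false), (27, false), (26, false), (24, true), (23, false), 
  (22, false), (28, false), (27, false), (36, false), (35, false), (34, false), (32, true), (31, false), 
  (30, false), (29, false), (40, false), (39, false), (37, true), (36, false), (34, true), (33, false), 
  (32, false), (31, false), (41, false), (39, true), (38, false), (36, true), (35, false), (34, false), 
  (33, false), (32, false), (30, true), (28, true), (26, true), (25, false), (24, false), (23, false), 
  (21, true), (20, false), (18, true), (17, false), (16, false), (15, false), (13, true), (12, false), 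
  (11, false), (9, true), (7, true), (5, true), (3, true), (1, true), (3, false), (5, false), 
  (4, false), (7, false), (6, false), (5, false), (9, false), (8, false), (7, false), (6, false), 
  (11, false), (12, true), (10, true), (9, false), (8, false), (7, false), (12, false), (14, false), 
  (13, false), (15, false), (16, false), (17, true), (19, false), (20, false), (21, false), (23, false), 
  (22, false), (24, false), (25, true), (23, true), (25, false), (28, false), (27, false), (26, false), 
  (30, false), (29, false), (28, false), (27, false), (29, false), (28, false), (32, false), (31, false), 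
  (30, false), (33, false), (32, false), (34, false), (35, true), (33, true), (31, true), (29, true), 
  (31, false), (33, false), (32, false), (35, false), (34, false), (33, false), (37, false), (36, false), 
  (35, false), (34, false), (38, true), (37, false), (36, false), (35, false), (40, false), (41, false)]

/-- The Coxeter element. -/
def cox : List ℕ := [1, 2, 3, 4, 5, 6, 0]

theorem cert_ok : moves cert (cox ++ cox ++ cox ++ cox ++ cox ++ cox ++ [4]) =
    [1] ++ cox ++ cox ++ cox ++ cox ++ cox ++ cox := by decide +kernel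

/-- The Coxeter element of a group of type `E_7`. -/
def cx {Q : Type*} [Group Q] (s : ℕ → Q) : Q := (cox.map s).prod

theorem cx_six {Q : Type*} [Group Q] {s : ℕ → Q} (h : IsE7 s) :
    cx s ^ 6 * s 4 = s 1 * cx s ^ 6 := by
  have h1 := moves_eval h cert (cox ++ cox ++ cox ++ cox ++ cox ++ cox ++ [4])
  rw [cert_ok] at h1
  simp only [List.map_append, List.prod_append, List.map_cons, List.map_nil, List.prod_cons,
    List.prod_nil, mul_one] at h1
  have h2 : cx s ^ 6 = cx s * cx s * cx s * cx s * cx s * cx s := by
    simp only [pow_succ, pow_zero, one_mul]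
  rw [h2, cx]
  simp only [mul_assoc] at h1 ⊢
  exact h1.symm

theorem cx_three {Q : Type*} [Group Q] {s : ℕ → Q} (h : IsE7 s) :
    cx s ^ 3 * s 1 = s 4 * cx s ^ 3 := by
  have b1 := h.braid 1 2 (by norm_num) (by norm_num) (by decide)
  have b2 := h.braid 2 3 (by norm_num) (by norm_num) (by decide)
  have b3 := h.braid 3 4 (by norm_num) (by norm_num) (by decide)
  have c (a b : ℕ) (ha : a < 7) (hb : b < 7) (hab : a ≠ b) (h' : adj a b = false) :
      s a * s b = s b * s a := h.comm a b ha hb hab h'
  have hcx : cx s = s 1 * s 2 * s 3 * s 4 * s 5 * s 6 * s 0 := by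
    simp only [cx, cox, List.map_cons, List.map_nil, List.prod_cons, List.prod_nil, mul_one,
      mul_assoc]
  have e1 : cx s * s 1 = s 2 * cx s := by
    have k : s 3 * s 4 * s 5 * s 6 * s 0 * s 1 = s 1 * (s 3 * s 4 * s 5 * s 6 * s 0) := by
      have k0 := c 0 1 (by norm_num) (by norm_num) (by norm_num) (by decide)
      have k6 := c 6 1 (by norm_num) (by norm_num) (by norm_num) (by decide)
      have k5 := c 5 1 (by norm_num) (by norm_num) (by norm_num) (by decide)
      have k4 := c 4 1 (by norm_num) (by norm_num) (by norm_num) (by decide)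
      have k3 := c 3 1 (by norm_num) (by norm_num) (by norm_num) (by decide)
      rw [mul_assoc _ (s 0), k0, ← mul_assoc, mul_assoc _ (s 6), k6, ← mul_assoc,
        mul_assoc _ (s 5), k5, ← mul_assoc, mul_assoc _ (s 4), k4, ← mul_assoc, k3]
      group
    calc cx s * s 1 = s 1 * s 2 * (s 3 * s 4 * s 5 * s 6 * s 0 * s 1) := by rw [hcx]; group
      _ = (s 1 * s 2 * s 1) * (s 3 * s 4 * s 5 * s 6 * s 0) := by rw [k]; group
      _ = s 2 * cx s := by rw [b1, hcx]; group
  have e2 : cx s * s 2 = s 3 * cx s := by
    have k : s 4 * s 5 * s 6 * s 0 * s 2 = s 2 * (s 4 * s 5 * s 6 * s 0) := by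
      have k0 := c 0 2 (by norm_num) (by norm_num) (by norm_num) (by decide)
      have k6 := c 6 2 (by norm_num) (by norm_num) (by norm_num) (by decide)
      have k5 := c 5 2 (by norm_num) (by norm_num) (by norm_num) (by decide)
      have k4 := c 4 2 (by norm_num) (by norm_num) (by norm_num) (by decide)
      rw [mul_assoc _ (s 0), k0, ← mul_assoc, mul_assoc _ (s 6), k6, ← mul_assoc,
        mul_assoc _ (s 5), k5, ← mul_assoc, k4]
      group
    have k1 := c 1 3 (by norm_num) (by norm_num) (by norm_num) (by decide)
    calc cx s * s 2 = s 1 * s 2 * s 3 * (s 4 * s 5 * s 6 * s 0 * s 2) := by rw [hcx]; group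
      _ = s 1 * (s 2 * s 3 * s 2) * (s 4 * s 5 * s 6 * s 0) := by rw [k]; group
      _ = (s 1 * s 3) * s 2 * s 3 * (s 4 * s 5 * s 6 * s 0) := by rw [b2]; group
      _ = s 3 * cx s := by rw [k1, hcx]; group
  have e3 : cx s * s 3 = s 4 * cx s := by
    have k : s 5 * s 6 * s 0 * s 3 = s 3 * (s 5 * s 6 * s 0) := by
      have k0 := c 0 3 (by norm_num) (by norm_num) (by norm_num) (by decide)
      have k6 := c 6 3 (by norm_num) (by norm_num) (by norm_num) (by decide)
      have k5 := c 5 3 (by norm_num) (by norm_num) (by norm_num) (by decide)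
      rw [mul_assoc _ (s 0), k0, ← mul_assoc, mul_assoc _ (s 6), k6, ← mul_assoc, k5]
      group
    have k1 := c 1 4 (by norm_num) (by norm_num) (by norm_num) (by decide)
    have k2 := c 2 4 (by norm_num) (by norm_num) (by norm_num) (by decide)
    calc cx s * s 3 = s 1 * s 2 * s 3 * s 4 * (s 5 * s 6 * s 0 * s 3) := by rw [hcx]; group
      _ = s 1 * s 2 * (s 3 * s 4 * s 3) * (s 5 * s 6 * s 0) := by rw [k]; group
      _ = s 1 * (s 2 * s 4) * s 3 * s 4 * (s 5 * s 6 * s 0) := by rw [b3]; group
      _ = (s 1 * s 4) * s 2 * s 3 * s 4 * (s 5 * s 6 * s 0) := by rw [k2]; group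
      _ = s 4 * cx s := by rw [k1, hcx]; group
  calc cx s ^ 3 * s 1 = cx s * (cx s * (cx s * s 1)) := by
        simp only [pow_succ, pow_zero, one_mul, mul_assoc]
    _ = cx s * (cx s * s 2) * cx s := by rw [e1]; group
    _ = (cx s * s 3) * cx s * cx s := by rw [e2]; group
    _ = s 4 * cx s ^ 3 := by rw [e3]; simp only [pow_succ, pow_zero, one_mul, mul_assoc]

/-- In a group of exponent `N`, `3 | N`, `9` not dividing `N`, a chain of type `E_7` collapses. -/
theorem e7_collapse {Q : Type*} [Group Q] {s : ℕ → Q} (h : IsE7 s) (N : ℕ)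
    (hN : ∀ x : Q, x ^ N = 1) (h3 : 3 ∣ N) (h9 : ¬ 9 ∣ N) : s 4 = s 1 := by
  have h1 : cx s ^ 9 * s 1 = s 1 * cx s ^ 9 := by
    have h2 : cx s ^ 9 = cx s ^ 6 * cx s ^ 3 := by rw [← pow_add]
    rw [h2, mul_assoc, cx_three h, ← mul_assoc, cx_six h, mul_assoc]
  have h4 := pow_gcd_comm h1 (hN _)
  have h5 : Nat.gcd 9 N = 3 := by
    have h6 : Nat.gcd 9 N ∣ 3 ^ 2 := by norm_num; exact Nat.gcd_dvd_left 9 N
    obtain ⟨k, hk, hk'⟩ := (Nat.dvd_prime_pow Nat.prime_three).1 h6
    interval_cases k
    · have : 3 ∣ Nat.gcd 9 N := Nat.dvd_gcd (by norm_num) h3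
      rw [hk'] at this; norm_num at this
    · rw [hk']; norm_num
    · exact absurd (hk' ▸ Nat.gcd_dvd_right 9 N : 3 ^ 2 ∣ N) (by norm_num; exact h9)
  rw [h5, cx_three h] at h4
  exact mul_right_cancel h4

end Pool.Agent.PowQ
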