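import Pool.Agent.PowQ.Gen

/-!
# The finite side for the closed surface of genus two and for the braid groups
-/

namespace Pool.Agent.PowQ

theorem p5 {M : Type*} [Monoid M] (t : M) : (t * t * t * t * t) ^ 6 = t ^ 30 := by
  have h : t * t * t * t * t = t ^ 5 := by simp only [pow_succ, pow_zero, one_mul]
  rw [h, ← pow_mul]

theorem p10 {M : Type*} [Monoid M] (t : M) :
    (t * t * t * t * t * t * t * t * t * t) ^ 2 = t ^ 20 := by
  have h : t * t * t * t * t * t * t * t * t * t = t ^ 10 := by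
    simp only [pow_succ, pow_zero, one_mul]
  rw [h, ← pow_mul]

theorem closure_of (m : ℕ) (rels : Set (FreeGroup (Fin m))) :
    Subgroup.closure (Set.range (PresentedGroup.of (rels := rels))) = ⊤ :=
  PresentedGroup.closure_range_of rels

theorem rel_one {m : ℕ} {rels : Set (FreeGroup (Fin m))} {r : FreeGroup (Fin m)}
    (hr : r ∈ rels) : PresentedGroup.mk rels r = 1 := by
  rw [PresentedGroup.mk]
  exact (QuotientGroup.eq_one_iff r).2 (Subgroup.subset_normalClosure hr)

/-- A group whose generators satisfy the braid relations, as a chain. -/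
theorem chain_of {m : ℕ} {rels : Set (FreeGroup (Fin m))} (h : braidRel m ⊆ rels)
    {Q : Type*} [Group Q] (π : PresentedGroup rels →* Q) (s : ℕ → Q)
    (hs : ∀ i : Fin m, s i.val = π (PresentedGroup.of i)) : Chain s m where
  braid := by
    intro i hi
    have h1 := rel_one (h (Or.inr ⟨⟨i, by omega⟩, ⟨i + 1, hi⟩, rfl, rfl⟩))
    have h2 := congrArg π h1
    have h3 := hs ⟨i, by omega⟩
    have h4 := hs ⟨i + 1, hi⟩
    simp only [map_mul, map_inv, map_one] at h2
    rw [mul_inv_eq_one] at h2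
    simp only at h3 h4
    rw [h3, h4]
    exact h2
  comm := by
    intro i j hij hj
    have h1 := rel_one (h (Or.inl ⟨⟨i, by omega⟩, ⟨j, hj⟩, hij, rfl⟩))
    have h2 := congrArg π h1
    have h3 := hs ⟨i, by omega⟩
    have h4 := hs ⟨j, hj⟩
    simp only [map_mul, map_inv, map_one] at h2
    rw [mul_inv_eq_one] at h2
    simp only at h3 h4
    rw [h3, h4]
    exact h2

theorem all_gen {m : ℕ} (hm : 4 ≤ m) {rels : Set (FreeGroup (Fin m))} (h : braidRel m ⊆ rels)
    (N d : ℕ) (hd : 1 ≤ d) (hd' : d ≤ m + 1) (hdN : ¬ d ∣ N) :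
    ∀ x ∈ Set.range (PresentedGroup.of (rels := rels)),
      (QuotientGroup.mk' (powSub (PresentedGroup rels) N)) x =
      (QuotientGroup.mk' (powSub (PresentedGroup rels) N)) (PresentedGroup.of ⟨0, by omega⟩) := by
  set π := QuotientGroup.mk' (powSub (PresentedGroup rels) N)
  have hc := chain_of h π (fun i => if hi : i < m then π (PresentedGroup.of ⟨i, hi⟩) else 1)
    (by intro i; simp)
  have h1 := collapse hc hm N (pow_quot N) d hd hd' hdN
  rintro x ⟨i, rfl⟩
  have h2 := h1 i.val i.isLt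
  simpa [show 0 < m by omega] using h2

/-- The homomorphism to a cyclic group which sends all generators to one. -/
theorem exists_cyc {m : ℕ} (rels : Set (FreeGroup (Fin m))) (d : ℕ)
    (h : ∀ r ∈ rels, FreeGroup.lift (fun _ : Fin m => Multiplicative.ofAdd (1 : ZMod d)) r = 1) :
    ∃ φ : PresentedGroup rels →* Multiplicative (ZMod d),
      ∀ i, φ (PresentedGroup.of i) = Multiplicative.ofAdd 1 :=
  ⟨PresentedGroup.toGroup h, fun _ => PresentedGroup.toGroup.of h⟩

theorem cyc_surj {G : Type*} [Group G] {d : ℕ} (φ : G →* Multiplicative (ZMod d)) (g : G)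
    (h : φ g = Multiplicative.ofAdd 1) : Function.Surjective φ := by
  intro y
  obtain ⟨k, hk⟩ := ZMod.intCast_surjective (Multiplicative.toAdd y)
  refine ⟨g ^ k, ?_⟩
  rw [map_zpow, h, ← ofAdd_zsmul]
  apply Multiplicative.toAdd.injective
  rw [toAdd_ofAdd, ← hk]
  simp

theorem cyc_pow {d N : ℕ} (hd : d ∣ N) (x : Multiplicative (ZMod d)) : x ^ N = 1 := by
  obtain ⟨q, rfl⟩ := hd
  apply Multiplicative.toAdd.injective
  simp [toAdd_pow]

theorem braid_cyc {m d : ℕ} : ∀ r ∈ braidRel m,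
    FreeGroup.lift (fun _ : Fin m => Multiplicative.ofAdd (1 : ZMod d)) r = 1 := by
  rintro r (⟨i, j, _, rfl⟩ | ⟨i, j, _, rfl⟩)
  · simp
  · simp

/-- The braid groups: the power subgroup has index `N` if some `d` in `1, ..., m + 1` does not
divide `N`. -/
theorem finB (m : ℕ) (hm : 4 ≤ m) (N d : ℕ) (hd : 1 ≤ d) (hd' : d ≤ m + 1) (hdN : ¬ d ∣ N) :
    (powSub (Braid m) N).index = N := by
  have hN : 0 < N := by
    rcases Nat.eq_zero_or_pos N with h0 | h0
    · exact absurd (h0 ▸ dvd_zero d) hdN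
    · exact h0
  obtain ⟨φ, hφ⟩ := exists_cyc (braidRel m) N braid_cyc
  refine index_eq (powSub (Braid m) N) _ (closure_of m _) _
    (all_gen hm (le_refl _) N d hd hd' hdN) N hN (pow_quot N _) φ
    (cyc_surj φ _ (hφ ⟨0, by omega⟩)) (powSub_le_ker φ N fun x => cyc_pow dvd_rfl _)

theorem bh_cyc {d : ℕ} (hd : d ∣ 10) : ∀ r ∈ bhRel,
    FreeGroup.lift (fun _ : Fin 5 => Multiplicative.ofAdd (1 : ZMod d)) r = 1 := by
  have h10 : (Multiplicative.ofAdd (1 : ZMod d)) ^ 10 = 1 := cyc_pow hd _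
  rintro r (h | rfl | rfl | ⟨i, rfl⟩)
  · exact braid_cyc r h
  · simp only [map_pow, map_mul, FreeGroup.lift_apply_of]
    rw [p5, show 30 = 10 * 3 by norm_num, pow_mul, h10, one_pow]
  · simp only [hyp, map_pow, map_mul, FreeGroup.lift_apply_of]
    rw [p10, show 20 = 10 * 2 by norm_num, pow_mul, h10, one_pow]
  · simp only [map_mul, map_inv, FreeGroup.lift_apply_of]
    exact mul_inv_eq_one.2 (mul_comm _ _)

/-- The closed surface of genus two: the power subgroup has index `gcd N 10` if some `d` in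
`1, ..., 6` does not divide `N`. -/
theorem fin2 (N d : ℕ) (hd : 1 ≤ d) (hd' : d ≤ 6) (hdN : ¬ d ∣ N) :
    (powSub Mod2 N).index = Nat.gcd N 10 := by
  have hsub : braidRel 5 ⊆ bhRel := fun r hr => Or.inl hr
  have hall := all_gen (le_of_lt (by norm_num : 4 < 5)) hsub N d hd hd' hdN
  set π := QuotientGroup.mk' (powSub Mod2 N) with hπ
  set t := π (PresentedGroup.of ⟨0, by norm_num⟩) with ht
  have hg : ∀ i : Fin 5, π (PresentedGroup.mk bhRel (gen i)) = t := fun i => hall _ ⟨i, rfl⟩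
  have h30 : t ^ 30 = 1 := by
    have h1 := congrArg π (rel_one (rels := bhRel) (Or.inr (Or.inl rfl)))
    simp only [map_pow, map_mul, hg, map_one] at h1
    rw [← h1, p5]
  have h20 : t ^ 20 = 1 := by
    have h1 := congrArg π (rel_one (rels := bhRel) (Or.inr (Or.inr (Or.inl rfl))))
    simp only [hyp, map_pow, map_mul, hg, map_one] at h1
    rw [← h1, p10]
  have hN : t ^ N = 1 := pow_quot N t
  have h10 : t ^ 10 = 1 := by
    have : t ^ 30 = t ^ 20 * t ^ 10 := by rw [← pow_add]
    rw [h20, one_mul, h30] at this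
    exact this.symm
  have hgcd : t ^ (Nat.gcd N 10) = 1 := by
    rw [← orderOf_dvd_iff_pow_eq_one] at hN h10 ⊢
    exact Nat.dvd_gcd hN h10
  obtain ⟨φ, hφ⟩ := exists_cyc bhRel (Nat.gcd N 10) (bh_cyc (Nat.gcd_dvd_right _ _))
  exact index_eq (powSub Mod2 N) _ (closure_of 5 _) t hall (Nat.gcd N 10)
    (Nat.gcd_pos_of_pos_right _ (by norm_num)) hgcd φ (cyc_surj φ _ (hφ 0))
    (powSub_le_ker φ N fun x => cyc_pow (Nat.gcd_dvd_left _ _) _)

end Pool.Agent.PowQ
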