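import Pool.Agent.PowQ.Collapse

/-!
# Power subgroups: normality, cyclic quotients, the finite side
-/

open scoped commutatorElement

namespace Pool.Agent.PowQ

instance powSub_normal (G : Type*) [Group G] (N : ℕ) : (powSub G N).Normal := by
  constructor
  intro n hn g
  induction hn using Subgroup.closure_induction with
  | mem x hx =>
    obtain ⟨y, rfl⟩ := hx
    apply Subgroup.subset_closure
    exact ⟨g * y * g⁻¹, by rw [conj_pow]⟩
  | one => simp
  | mul x y _ _ hx hy =>
    have : g * (x * y) * g⁻¹ = (g * x * g⁻¹) * (g * y * g⁻¹) := by group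
    rw [this]
    exact mul_mem hx hy
  | inv x _ hx =>
    have : g * x⁻¹ * g⁻¹ = (g * x * g⁻¹)⁻¹ := by group
    rw [this]
    exact inv_mem hx

theorem pow_quot {G : Type*} [Group G] (N : ℕ) (x : G ⧸ powSub G N) : x ^ N = 1 := by
  induction x using QuotientGroup.induction_on with
  | H g =>
    rw [← QuotientGroup.mk_pow, QuotientGroup.eq_one_iff]
    exact Subgroup.subset_closure ⟨g, rfl⟩

theorem powSub_le_ker {G H : Type*} [Group G] [Group H] (φ : G →* H) (N : ℕ)
    (h : ∀ x : G, φ x ^ N = 1) : powSub G N ≤ φ.ker := by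
  rw [powSub, Subgroup.closure_le]
  rintro x ⟨g, rfl⟩
  simp [MonoidHom.mem_ker, h g]

/-- If all generators have the same image `t`, all images are powers of `t`. -/
theorem pow_of_gen {G Q : Type*} [Group G] [Group Q] (π : G →* Q) (S : Set G)
    (hS : Subgroup.closure S = ⊤) (t : Q) (ht : ∀ x ∈ S, π x = t) (g : G) :
    ∃ k : ℤ, π g = t ^ k := by
  have hg : g ∈ Subgroup.closure S := by rw [hS]; trivial
  induction hg using Subgroup.closure_induction with
  | mem x hx => exact ⟨1, by rw [ht x hx, zpow_one]⟩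
  | one => exact ⟨0, by simp⟩
  | mul x y _ _ hx hy =>
    obtain ⟨a, ha⟩ := hx
    obtain ⟨b, hb⟩ := hy
    exact ⟨a + b, by rw [map_mul, ha, hb, zpow_add]⟩
  | inv x _ hx =>
    obtain ⟨a, ha⟩ := hx
    exact ⟨-a, by rw [map_inv, ha, zpow_neg]⟩

theorem commutator_le_of_gen {G : Type*} [Group G] (P : Subgroup G) [P.Normal] (S : Set G)
    (hS : Subgroup.closure S = ⊤) (t : G ⧸ P) (ht : ∀ x ∈ S, (QuotientGroup.mk' P) x = t) :
    commutator G ≤ P := by
  rw [commutator_def, Subgroup.commutator_le]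
  intro x _ y _
  obtain ⟨a, ha⟩ := pow_of_gen (QuotientGroup.mk' P) S hS t ht x
  obtain ⟨b, hb⟩ := pow_of_gen (QuotientGroup.mk' P) S hS t ht y
  have h1 : (QuotientGroup.mk' P) ⁅x, y⁆ = 1 := by
    rw [map_commutatorElement, ha, hb, commutatorElement_eq_one_iff_commute]
    exact (Commute.refl t).zpow_zpow a b
  exact (QuotientGroup.eq_one_iff _).1 h1

theorem index_eq {G : Type*} [Group G] (P : Subgroup G) [P.Normal] (S : Set G)
    (hS : Subgroup.closure S = ⊤) (t : G ⧸ P) (ht : ∀ x ∈ S, (QuotientGroup.mk' P) x = t)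
    (d : ℕ) (hd : 0 < d) (htd : t ^ d = 1) (φ : G →* Multiplicative (ZMod d))
    (hφ : Function.Surjective φ) (hP : P ≤ φ.ker) : P.index = d := by
  have h1 : ∀ x : G ⧸ P, x ∈ Subgroup.zpowers t := by
    intro x
    induction x using QuotientGroup.induction_on with
    | H g =>
      obtain ⟨k, hk⟩ := pow_of_gen (QuotientGroup.mk' P) S hS t ht g
      exact ⟨k, hk.symm⟩
  have h2 : (Subgroup.zpowers t) = ⊤ := by
    ext x; simp [h1 x]
  have h3 : Nat.card (G ⧸ P) = orderOf t := by
    rw [← Nat.card_zpowers, h2, Nat.card_congr (Subgroup.topEquiv (G := G ⧸ P)).toEquiv]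
  have h4 : orderOf t ∣ d := orderOf_dvd_of_pow_eq_one htd
  have h5 : Nat.card (G ⧸ P) ≤ d := by rw [h3]; exact Nat.le_of_dvd hd h4
  have h6 : 0 < orderOf t := Nat.pos_of_dvd_of_pos h4 hd
  have : Finite (G ⧸ P) := Nat.finite_of_card_ne_zero (by rw [h3]; omega)
  have h7 : Function.Surjective (QuotientGroup.lift P φ hP) := by
    intro y
    obtain ⟨g, hg⟩ := hφ y
    exact ⟨(g : G ⧸ P), by rw [QuotientGroup.lift_mk]; exact hg⟩
  have h8 := Nat.card_le_card_of_surjective _ h7
  have h9 : Nat.card (Multiplicative (ZMod d)) = d := by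
    rw [Nat.card_congr Multiplicative.toAdd]
    exact Nat.card_zmod d
  rw [h9] at h8
  rw [Subgroup.index]
  omega

/-- The Humphries generators `a 1, ..., a (2 g + 1)` as a chain. -/
theorem Humphries.chain {g : ℕ} {G : Type*} [Group G] (H : Humphries g G) {Q : Type*} [Group Q]
    (π : G →* Q) : Chain (fun i => π (H.a (i + 1))) (2 * g + 1) where
  braid := by
    intro i hi
    have := congrArg π (H.braid (i + 1) (by omega) (by omega))
    simpa using this
  comm := by
    intro i j hij hj
    have := congrArg π (H.comm (i + 1) (j + 1) (by omega) (by omega) (by omega))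
    simpa using this

/-- If two generators of the chain become equal, everything does. -/
theorem Humphries.all_eq {g : ℕ} (hg : 2 ≤ g) {G : Type*} [Group G] (H : Humphries g G)
    {Q : Type*} [Group Q] (π : G →* Q)
    (h : ∀ i, i < 2 * g + 1 → π (H.a (i + 1)) = π (H.a 1)) :
    ∀ x ∈ {x | ∃ i ≤ 2 * g, x = H.a i}, π x = π (H.a 1) := by
  rintro x ⟨i, hi, rfl⟩
  rcases Nat.eq_zero_or_pos i with h0 | h0
  · subst h0
    have h4 : π (H.a 4) = π (H.a 1) := h 3 (by omega)
    have e1 : π (H.a 0) * π (H.a 4) * π (H.a 0) = π (H.a 4) * π (H.a 0) * π (H.a 4) := by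
      have := congrArg π H.braid0
      simpa using this
    have e2 : π (H.a 0) * π (H.a 4) = π (H.a 4) * π (H.a 0) := by
      rw [h4]
      have := congrArg π (H.comm0 1 le_rfl (by omega) (by omega))
      simpa using this
    rw [eq_of_braid_comm e1 e2, h4]
  · have := h (i - 1) (by omega)
    rwa [Nat.sub_add_cancel h0] at this

theorem genus_ge {g : ℕ} (hg : 2 ≤ g) {G : Type*} [Group G] (H : Humphries g G)
    (hperf : commutator G = ⊤) (N d : ℕ) (hd : 1 ≤ d) (hd' : d ≤ 2 * g + 2) (hdN : ¬ d ∣ N) :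
    powSub G N = ⊤ := by
  have h1 := collapse (H.chain (QuotientGroup.mk' (powSub G N))) (by omega) N (pow_quot N) d hd
    (by omega) hdN
  have h2 := H.all_eq hg (QuotientGroup.mk' (powSub G N)) h1
  have h3 := commutator_le_of_gen (powSub G N) _ H.gen _ h2
  rw [hperf] at h3
  exact top_le_iff.1 h3

end Pool.Agent.PowQ
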