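import Pool.Agent.PowQ.High

/-!
# Curves on cyclic covers of the disc

The lifts of a chain of arcs to the `p`-fold cyclic cover of the disc, branched over `m + 1` points.
-/

namespace Pool.Agent.PowQ

variable {Q : Type*} [Group Q]

theorem cw_move {c : Q} {s s' : ℕ → Q} (k : ℕ) (h : ∀ i, i < k → c * s i = s' i * c) :
    c * cw s k = cw s' k * c := by
  induction k with
  | zero => simp [cw]
  | succ k ih =>
    simp only [cw]
    rw [← mul_assoc, ih (fun i hi => h i (by omega)), mul_assoc, h k (by omega), mul_assoc]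

theorem zne {p n : ℕ} (h1 : 0 < n) (h2 : n < p) : (n : ZMod p) ≠ 0 := by
  rw [Ne, ZMod.natCast_eq_zero_iff]
  intro h
  exact absurd (Nat.le_of_dvd h1 h) (by omega)

theorem tau_rot {p : ℕ} {b : ZMod p → Q} (h : ∀ j, tau p b * b j = b (j + 1) * tau p b) (n : ℕ) :
    tau p b = cw (fun i => b ((n : ZMod p) + i)) (p - 1) := by
  induction n with
  | zero => simp [tau]
  | succ n ih =>
    have h1 : tau p b * cw (fun i => b ((n : ZMod p) + i)) (p - 1) =
        cw (fun i => b (((n + 1 : ℕ) : ZMod p) + i)) (p - 1) * tau p b :=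
      cw_move _ (fun i _ => by
        rw [h]
        congr 2
        push_cast
        ring)
    rw [← ih] at h1
    exact mul_right_cancel h1

theorem tau_rot' {p : ℕ} [NeZero p] {b : ZMod p → Q}
    (h : ∀ j, tau p b * b j = b (j + 1) * tau p b) (j : ZMod p) :
    tau p b = cw (fun i => b (j + i)) (p - 1) := by
  have := tau_rot h j.val
  rwa [ZMod.natCast_zmod_val] at this

section two

variable {r : ℕ} {x y : ZMod (r + 2) → Q}
  (hx : ∀ j, tau (r + 2) x * x j = x (j + 1) * tau (r + 2) x)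
  (hy : ∀ j, tau (r + 2) y * y j = y (j + 1) * tau (r + 2) y)
  (near : ∀ j, x j * y j * x j = y j * x j * y j)
  (near' : ∀ j, x (j + 1) * y j * x (j + 1) = y j * x (j + 1) * y j)
  (off : ∀ j k, k ≠ j → k + 1 ≠ j → x j * y k = y k * x j)

include hx off in
theorem tau_y (j : ZMod (r + 2)) :
    tau (r + 2) x * y j = x (j + 1) * y j * (x (j + 1))⁻¹ * tau (r + 2) x := by
  have h1 : tau (r + 2) x =
      x (j + 1) * cw (fun i => x (j + 1 + ((i + 1 : ℕ) : ZMod (r + 2)))) r := by
    rw [tau_rot' hx (j + 1)]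
    have e : r + 2 - 1 = r + 1 := by omega
    rw [e, cw_cons]
    simp
  have h2 : y j * cw (fun i => x (j + 1 + ((i + 1 : ℕ) : ZMod (r + 2)))) r =
      cw (fun i => x (j + 1 + ((i + 1 : ℕ) : ZMod (r + 2)))) r * y j := by
    refine comm_cw r fun i hi => (off _ _ ?_ ?_).symm
    · intro h
      have h3 : ((i + 2 : ℕ) : ZMod (r + 2)) = 0 := by
        have : j = j + ((i + 2 : ℕ) : ZMod (r + 2)) := by
          refine h.trans ?_
          push_cast
          ring
        exact (add_eq_left.1 this.symm)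
      exact zne (by omega) (by omega) h3
    · intro h
      have h3 : ((i + 1 : ℕ) : ZMod (r + 2)) = 0 := add_eq_left.1 h.symm
      exact zne (by omega) (by omega) h3
  generalize cw (fun i => x (j + 1 + ((i + 1 : ℕ) : ZMod (r + 2)))) r = R at h1 h2
  rw [h1]
  calc x (j + 1) * R * y j = x (j + 1) * (R * y j) := by group
    _ = x (j + 1) * (y j * R) := by rw [h2]
    _ = x (j + 1) * y j * (x (j + 1))⁻¹ * (x (j + 1) * R) := by group

include hy off in
theorem tau_x (j : ZMod (r + 2)) :
    tau (r + 2) y * x j = y j * x j * (y j)⁻¹ * tau (r + 2) y := by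
  have h1 : tau (r + 2) y = y j * cw (fun i => y (j + ((i + 1 : ℕ) : ZMod (r + 2)))) r := by
    rw [tau_rot' hy j]
    have e : r + 2 - 1 = r + 1 := by omega
    rw [e, cw_cons]
    simp
  have h2 : x j * cw (fun i => y (j + ((i + 1 : ℕ) : ZMod (r + 2)))) r =
      cw (fun i => y (j + ((i + 1 : ℕ) : ZMod (r + 2)))) r * x j := by
    refine comm_cw r fun i hi => off _ _ ?_ ?_
    · intro h
      exact zne (by omega) (by omega) (add_eq_left.1 h)
    · intro h
      have h3 : ((i + 2 : ℕ) : ZMod (r + 2)) = 0 := by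
        have : j + ((i + 2 : ℕ) : ZMod (r + 2)) = j := by
          refine Eq.trans ?_ h
          push_cast
          ring
        exact add_eq_left.1 this
      exact zne (by omega) (by omega) h3
  generalize cw (fun i => y (j + ((i + 1 : ℕ) : ZMod (r + 2)))) r = R at h1 h2
  rw [h1]
  calc y j * R * x j = y j * (R * x j) := by group
    _ = y j * (x j * R) := by rw [h2]
    _ = y j * x j * (y j)⁻¹ * (y j * R) := by group

include hy off in
theorem x_tau (j : ZMod (r + 2)) :
    x (j + 1) * tau (r + 2) y = tau (r + 2) y * ((y j)⁻¹ * x (j + 1) * y j) := by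
  have h1 : tau (r + 2) y = cw (fun i => y (j + 2 + (i : ZMod (r + 2)))) r * y j := by
    rw [tau_rot' hy (j + 2)]
    have e : r + 2 - 1 = r + 1 := by omega
    rw [e]
    have e2 : j + 2 + (r : ZMod (r + 2)) = j := by
      have : ((r + 2 : ℕ) : ZMod (r + 2)) = 0 := ZMod.natCast_self _
      push_cast at this
      rw [add_assoc, add_comm (2 : ZMod (r + 2)), this, add_zero]
    simp only [cw, e2]
  have h2 : x (j + 1) * cw (fun i => y (j + 2 + (i : ZMod (r + 2)))) r =
      cw (fun i => y (j + 2 + (i : ZMod (r + 2)))) r * x (j + 1) := by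
    refine comm_cw r fun i hi => off _ _ ?_ ?_
    · intro h
      have h3 : ((i + 1 : ℕ) : ZMod (r + 2)) = 0 := by
        have : j + 1 + ((i + 1 : ℕ) : ZMod (r + 2)) = j + 1 := by
          refine Eq.trans ?_ h
          push_cast
          ring
        exact add_eq_left.1 this
      exact zne (by omega) (by omega) h3
    · intro h
      have h3 : ((i + 2 : ℕ) : ZMod (r + 2)) = 0 := by
        have : j + 1 + ((i + 2 : ℕ) : ZMod (r + 2)) = j + 1 := by
          refine Eq.trans ?_ h
          push_cast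
          ring
        exact add_eq_left.1 this
      exact zne (by omega) (by omega) h3
  generalize cw (fun i => y (j + 2 + (i : ZMod (r + 2)))) r = R at h1 h2
  rw [h1]
  calc x (j + 1) * (R * y j) = (x (j + 1) * R) * y j := by group
    _ = (R * x (j + 1)) * y j := by rw [h2]
    _ = R * y j * ((y j)⁻¹ * x (j + 1) * y j) := by group

include hx hy near off in
/-- `tau x * tau y` moves `x j` to `y j`. -/
theorem tau_shift (j : ZMod (r + 2)) :
    tau (r + 2) x * tau (r + 2) y * x j = y j * (tau (r + 2) x * tau (r + 2) y) := by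
  have h1 := tau_x hy off j
  have h2 := tau_y hx off j
  have h3 := hx j
  have h4 := near j
  have h5 : y j * x j * (y j)⁻¹ = (x j)⁻¹ * y j * x j := by
    have : x j * (y j * x j * (y j)⁻¹) = y j * x j := by
      calc x j * (y j * x j * (y j)⁻¹) = (x j * y j * x j) * (y j)⁻¹ := by group
        _ = (y j * x j * y j) * (y j)⁻¹ := by rw [h4]
        _ = y j * x j := by group
    calc y j * x j * (y j)⁻¹ = (x j)⁻¹ * (x j * (y j * x j * (y j)⁻¹)) := by group
      _ = (x j)⁻¹ * (y j * x j) := by rw [this]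
      _ = (x j)⁻¹ * y j * x j := by group
  generalize tau (r + 2) x = T at *
  generalize tau (r + 2) y = S at *
  have h6 : T * (x j)⁻¹ = (x (j + 1))⁻¹ * T := by
    calc T * (x j)⁻¹ = (x (j + 1))⁻¹ * (x (j + 1) * T) * (x j)⁻¹ := by group
      _ = (x (j + 1))⁻¹ * (T * x j) * (x j)⁻¹ := by rw [h3]
      _ = (x (j + 1))⁻¹ * T := by group
  calc T * S * x j = T * (S * x j) := by group
    _ = T * (y j * x j * (y j)⁻¹) * S := by rw [h1]; group
    _ = (T * (x j)⁻¹) * y j * x j * S := by rw [h5]; group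
    _ = (x (j + 1))⁻¹ * (T * y j) * x j * S := by rw [h6]; group
    _ = y j * (x (j + 1))⁻¹ * (T * x j) * S := by rw [h2]; group
    _ = y j * (T * S) := by rw [h3]; group

include hx hy near near' off in
/-- `tau y * tau x * tau x * tau y` moves `x j` to `x (j + 1)`. -/
theorem tau_around (j : ZMod (r + 2)) :
    tau (r + 2) y * tau (r + 2) x * (tau (r + 2) x * tau (r + 2) y) * x j =
      x (j + 1) * (tau (r + 2) y * tau (r + 2) x * (tau (r + 2) x * tau (r + 2) y)) := by
  have h1 := tau_shift hx hy near off j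
  have h2 := tau_y hx off j
  have h3 := x_tau hy off j
  have h4 := near' j
  have h5 : (y j)⁻¹ * x (j + 1) * y j = x (j + 1) * y j * (x (j + 1))⁻¹ := by
    have : y j * (x (j + 1) * y j * (x (j + 1))⁻¹) = x (j + 1) * y j := by
      calc y j * (x (j + 1) * y j * (x (j + 1))⁻¹)
          = (y j * x (j + 1) * y j) * (x (j + 1))⁻¹ := by group
        _ = (x (j + 1) * y j * x (j + 1)) * (x (j + 1))⁻¹ := by rw [h4]
        _ = x (j + 1) * y j := by group
    calc (y j)⁻¹ * x (j + 1) * y j = (y j)⁻¹ * (x (j + 1) * y j) := by group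
      _ = (y j)⁻¹ * (y j * (x (j + 1) * y j * (x (j + 1))⁻¹)) := by rw [this]
      _ = x (j + 1) * y j * (x (j + 1))⁻¹ := by group
  rw [h5] at h3
  generalize tau (r + 2) x = T at *
  generalize tau (r + 2) y = S at *
  calc S * T * (T * S) * x j = S * T * (T * S * x j) := by group
    _ = S * (T * y j) * (T * S) := by rw [h1]; group
    _ = (S * (x (j + 1) * y j * (x (j + 1))⁻¹)) * T * (T * S) := by rw [h2]; group
    _ = x (j + 1) * (S * T * (T * S)) := by rw [← h3]; group

end two

/-- The product `T n * T (n - 1) * ...` with `k` factors. -/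
def dk (T : ℕ → Q) (n : ℕ) : ℕ → Q
  | 0 => 1
  | k + 1 => dk T n k * T (n - k)

theorem dk_succ (T : ℕ → Q) (n k : ℕ) : dk T n (k + 1) = T n * dk T (n - 1) k := by
  induction k with
  | zero => simp [dk]
  | succ k ih =>
    have h1 : dk T n (k + 1 + 1) = dk T n (k + 1) * T (n - (k + 1)) := rfl
    have h2 : dk T (n - 1) (k + 1) = dk T (n - 1) k * T (n - 1 - k) := rfl
    have e : n - (k + 1) = n - 1 - k := by omega
    rw [h1, ih, h2, e, mul_assoc]

theorem dk_move {T : ℕ → Q} {n : ℕ}
    (hd : ∀ i, i < n → cw T (n + 1) * T i = T (i + 1) * cw T (n + 1)) (k : ℕ) (hk : k ≤ n) :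
    dk T n k * cw T (n + 1) = cw T (n + 1) * dk T (n - 1) k := by
  induction k with
  | zero => simp [dk]
  | succ k ih =>
    have h1 := hd (n - 1 - k) (by omega)
    have e : n - 1 - k + 1 = n - k := by omega
    rw [e] at h1
    simp only [dk]
    rw [mul_assoc, ← h1, ← mul_assoc, ih (by omega), mul_assoc]

theorem cw_pow_dk {T : ℕ → Q} {n : ℕ}
    (hd : ∀ i, i < n → cw T (n + 1) * T i = T (i + 1) * cw T (n + 1)) (k : ℕ)
    (hk : k ≤ n + 1) : cw T (n + 1) ^ k = cw T n ^ k * dk T n k := by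
  induction k with
  | zero => simp [dk]
  | succ k ih =>
    have h1 : cw T (n + 1) = cw T n * T n := rfl
    rw [pow_succ, ih (by omega), mul_assoc, dk_move hd k (by omega), h1, dk_succ, pow_succ]
    simp only [mul_assoc]

/-- The element which moves the last point around all the others. -/
def ard (T : ℕ → Q) (n : ℕ) : Q := dk T n (n + 1) * cw T (n + 1)

theorem ard_succ (T : ℕ → Q) (n : ℕ) : ard T (n + 1) = T (n + 1) * ard T n * T (n + 1) := by
  have h1 : cw T (n + 1 + 1) = cw T (n + 1) * T (n + 1) := rfl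
  have e : n + 1 - 1 = n := by omega
  rw [ard, dk_succ, h1, e, ard]
  simp only [mul_assoc]

theorem cw_full_pow {T : ℕ → Q} {n : ℕ}
    (hd : ∀ i, i < n → cw T (n + 1) * T i = T (i + 1) * cw T (n + 1)) :
    cw T (n + 1) ^ (n + 2) = cw T n ^ (n + 1) * ard T n := by
  rw [pow_succ, cw_pow_dk hd (n + 1) le_rfl, ard, mul_assoc]

theorem eps_pow {T : ℕ → Q} {m : ℕ}
    (hd : ∀ i, i + 1 < m → cw T m * T i = T (i + 1) * cw T m) (k : ℕ) (hk : k ≤ m) :
    (T 0 * cw T m) ^ k = cw T k * cw T m ^ k := by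
  have h1 : ∀ k, k < m → cw T m ^ k * T 0 = T k * cw T m ^ k := by
    intro k
    induction k with
    | zero => intro _; simp
    | succ k ih =>
      intro hk
      rw [pow_succ', mul_assoc, ih (by omega), ← mul_assoc, hd k hk]
      simp only [mul_assoc]
  induction k with
  | zero => simp [cw]
  | succ k ih =>
    have h2 : cw T (k + 1) = cw T k * T k := rfl
    rw [pow_succ, ih (by omega), h2, pow_succ]
    calc cw T k * cw T m ^ k * (T 0 * cw T m) = cw T k * (cw T m ^ k * T 0) * cw T m := by group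
      _ = cw T k * (T k * cw T m ^ k) * cw T m := by rw [h1 k (by omega)]
      _ = cw T k * T k * (cw T m ^ k * cw T m) := by group

section grid

variable {r m : ℕ} {b : ℕ → ZMod (r + 2) → Q}

theorem Grid.T_far (h : Grid (r + 2) m b) (i k : ℕ) (hik : i + 2 ≤ k ∨ k + 2 ≤ i) (hi : i < m)
    (hk : k < m) (j : ZMod (r + 2)) :
    tau (r + 2) (b i) * b k j = b k j * tau (r + 2) (b i) := by
  refine (comm_cw _ fun l _ => ?_).symm
  rcases hik with h1 | h1
  · exact (h.far i k h1 hk _ _).symm
  · exact h.far k i h1 hi _ _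

theorem Grid.d_far (h : Grid (r + 2) m b) (n k : ℕ) (hk : n + 1 ≤ k) (hkm : k < m)
    (j : ZMod (r + 2)) : cw (fun i => tau (r + 2) (b i)) n * b k j =
      b k j * cw (fun i => tau (r + 2) (b i)) n := by
  refine (comm_cw _ fun l hl => ?_).symm
  exact (h.T_far l k (Or.inl (by omega)) (by omega) hkm j).symm

theorem Grid.dshift (h : Grid (r + 2) m b) (n i : ℕ) (hi : i + 1 < n) (hn : n ≤ m)
    (j : ZMod (r + 2)) : cw (fun i => tau (r + 2) (b i)) n * b i j =
      b (i + 1) j * cw (fun i => tau (r + 2) (b i)) n := by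
  induction n with
  | zero => omega
  | succ n ih =>
    rcases Nat.lt_or_ge (i + 1) n with h1 | h1
    · have h2 := ih h1 (by omega)
      have h3 := h.T_far n i (Or.inr (by omega)) (by omega) (by omega) j
      simp only [cw]
      rw [mul_assoc, h3, ← mul_assoc, h2, mul_assoc]
    · have h4 : n = i + 1 := by omega
      subst h4
      have h5 := tau_shift (h.rot i (by omega)) (h.rot (i + 1) (by omega)) (h.near i (by omega))
        (h.off i (by omega)) j
      have h6 := h.d_far i (i + 1) le_rfl (by omega) j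
      simp only [cw]
      rw [mul_assoc, mul_assoc, ← mul_assoc (tau (r + 2) (b i)), h5, ← mul_assoc, h6, mul_assoc,
        mul_assoc]

theorem Grid.dT (h : Grid (r + 2) m b) (n i : ℕ) (hi : i + 1 < n) (hn : n ≤ m) :
    cw (fun i => tau (r + 2) (b i)) n * tau (r + 2) (b i) =
      tau (r + 2) (b (i + 1)) * cw (fun i => tau (r + 2) (b i)) n :=
  cw_move _ fun _ _ => h.dshift n i hi hn _

theorem Grid.ard_shift (h : Grid (r + 2) m b) (n : ℕ) (hn : n + 1 < m) (j : ZMod (r + 2)) :
    ard (fun i => tau (r + 2) (b i)) (n + 1) * b 0 j =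
      b 0 (j + 1) * ard (fun i => tau (r + 2) (b i)) (n + 1) := by
  induction n with
  | zero =>
    have h1 := tau_around (h.rot 0 (by omega)) (h.rot 1 (by omega)) (h.near 0 (by omega))
      (h.near' 0 (by omega)) (h.off 0 (by omega)) j
    have h2 : ard (fun i => tau (r + 2) (b i)) (0 + 1) =
        tau (r + 2) (b 1) * tau (r + 2) (b 0) * (tau (r + 2) (b 0) * tau (r + 2) (b 1)) := by
      simp [ard, dk, cw, mul_assoc]
    rw [h2]
    exact h1
  | succ n ih =>
    have h1 := ih (by omega)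
    have h2 := h.T_far (n + 1 + 1) 0 (Or.inr (by omega)) (by omega) (by omega)
    rw [ard_succ]
    generalize ard (fun i => tau (r + 2) (b i)) (n + 1) = A at *
    simp only [mul_assoc]
    rw [h2 j, ← mul_assoc A, h1, ← mul_assoc, ← mul_assoc, h2 (j + 1)]
    simp only [mul_assoc]

theorem Grid.full (h : Grid (r + 2) m b) (n : ℕ) (hn : n < m) (j : ZMod (r + 2)) :
    cw (fun i => tau (r + 2) (b i)) (n + 1) ^ (n + 2) * b 0 j =
      b 0 (j + ((n + 2 : ℕ) : ZMod (r + 2))) *
        cw (fun i => tau (r + 2) (b i)) (n + 1) ^ (n + 2) := by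
  induction n generalizing j with
  | zero =>
    have h1 := h.rot 0 hn
    have e : j + ((0 + 2 : ℕ) : ZMod (r + 2)) = j + 1 + 1 := by push_cast; ring
    rw [e]
    simp only [cw, one_mul]
    rw [pow_two, mul_assoc, h1, ← mul_assoc, h1, mul_assoc]
  | succ n ih =>
    have h2 := h.ard_shift n hn j
    have h3 := ih (by omega) (j + 1)
    have e : j + 1 + ((n + 2 : ℕ) : ZMod (r + 2)) = j + ((n + 1 + 2 : ℕ) : ZMod (r + 2)) := by
      push_cast
      ring
    rw [e] at h3
    have h4 := cw_full_pow (T := fun i => tau (r + 2) (b i)) (n := n + 1)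
      (fun i hi => h.dT (n + 1 + 1) i (by omega) (by omega))
    have e2 : n + 1 + 2 = n + 2 + 1 := by ring
    have e3 : n + 2 = n + 1 + 1 := by ring
    rw [h4, mul_assoc, h2, ← mul_assoc]
    rw [e3] at h3
    rw [h3, mul_assoc]

/-- The root of order `p m`: its `m`-th power moves `b 0 j` to `b 0 (j + m + 1)`. -/
theorem Grid.root (h : Grid (r + 2) m b) (hm : 1 ≤ m) (j : ZMod (r + 2)) :
    (tau (r + 2) (b 0) * cw (fun i => tau (r + 2) (b i)) m) ^ m * b 0 j =
      b 0 (j + ((m + 1 : ℕ) : ZMod (r + 2))) *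
        (tau (r + 2) (b 0) * cw (fun i => tau (r + 2) (b i)) m) ^ m := by
  obtain ⟨n, rfl⟩ : ∃ n, m = n + 1 := ⟨m - 1, by omega⟩
  have h1 := eps_pow (T := fun i => tau (r + 2) (b i)) (m := n + 1)
    (fun i hi => h.dT (n + 1) i hi le_rfl) (n + 1) le_rfl
  rw [h1, ← pow_succ']
  exact h.full n (by omega) j

end grid

/-- In a group of exponent `N`, where `p ^ (a + 2)` does not divide `N`, the first two curves of the
grid coincide. -/
theorem grid_collapse {p a : ℕ} (hp : p.Prime) {b : ℕ → ZMod p → Q}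
    (h : Grid p (p ^ (a + 1)) b) (N : ℕ) (hN : ∀ x : Q, x ^ N = 1) (hd : ¬ p ^ (a + 2) ∣ N) :
    b 0 1 = b 0 0 := by
  obtain ⟨r, rfl⟩ : ∃ r, p = r + 2 := ⟨p - 2, by have := hp.two_le; omega⟩
  have hm : 1 ≤ (r + 2) ^ (a + 1) := Nat.one_le_pow _ _ (by omega)
  have h1 := h.root hm
  have h0 : (((r + 2) ^ (a + 1) + 1 : ℕ) : ZMod (r + 2)) = 1 := by
    rw [Nat.cast_add, Nat.cast_pow, ZMod.natCast_self, zero_pow (by omega), zero_add,
      Nat.cast_one]
  simp only [h0] at h1
  set c := tau (r + 2) (b 0) * cw (fun i => tau (r + 2) (b i)) ((r + 2) ^ (a + 1)) with hc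
  set m := (r + 2) ^ (a + 1) with hmm
  have h2 : ∀ k : ℕ, c ^ (m * k) * b 0 0 = b 0 (k : ZMod (r + 2)) * c ^ (m * k) := by
    intro k
    induction k with
    | zero => simp
    | succ k ih =>
      rw [mul_add, mul_one, pow_add, pow_mul, ← pow_succ, pow_succ', ← pow_mul, mul_assoc, ih,
        ← mul_assoc, h1, Nat.cast_succ, mul_assoc]
  have h3 : c ^ ((r + 2) ^ (a + 2)) * b 0 0 = b 0 0 * c ^ ((r + 2) ^ (a + 2)) := by
    have e : (r + 2) ^ (a + 2) = m * (r + 2) := by rw [hmm, ← pow_succ]
    have h4 := h2 (r + 2)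
    rw [ZMod.natCast_self] at h4
    rw [e]
    exact h4
  have h5 := pow_gcd_comm h3 (hN c)
  have h6 : Nat.gcd ((r + 2) ^ (a + 2)) N ∣ m := by
    obtain ⟨k, hk, hk'⟩ := (Nat.dvd_prime_pow hp).1 (Nat.gcd_dvd_left ((r + 2) ^ (a + 2)) N)
    have h7 : k ≠ a + 2 := by
      rintro rfl
      apply hd
      rw [← hk']
      exact Nat.gcd_dvd_right _ _
    rw [hk']
    exact pow_dvd_pow _ (by omega)
  obtain ⟨e, he⟩ := h6
  have h8 : c ^ m * b 0 0 = b 0 0 * c ^ m := by
    rw [he, pow_mul]
    have : Commute (c ^ Nat.gcd ((r + 2) ^ (a + 2)) N) (b 0 0) := h5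
    exact this.pow_left e
  have h9 := h2 1
  rw [mul_one, h8, Nat.cast_one] at h9
  exact (mul_right_cancel h9).symm

end Pool.Agent.PowQ
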