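import Mathlib
import Pool.Agent.PowQ.Defs

/-!
# The exponent of the symplectic group `Sp(6, 2)`

The characteristic polynomial of a symplectic matrix of size six over the field with two elements
is monic and palindromic, and each of these eight polynomials divides `X ^ 2520 - 1`.
-/

set_option autoImplicit false

namespace Pool.Agent.PowQ

namespace Sp6

open Polynomial Matrix

/-- The monic palindromic polynomial of degree six with the coefficients `a, b, c, b, a`. -/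
noncomputable def pal (a b c : ZMod 2) : (ZMod 2)[X] :=
  X ^ 6 + C a * X ^ 5 + C b * X ^ 4 + C c * X ^ 3 + C b * X ^ 2 + C a * X + 1

theorem two_zero : (2 : (ZMod 2)[X]) = 0 := CharP.cast_eq_zero (ZMod 2)[X] 2

theorem dvd_000 : pal 0 0 0 ∣ (X ^ 6 - 1 : (ZMod 2)[X]) := by
  refine ⟨1, ?_⟩
  simp only [pal, C_0]
  linear_combination (-1) * two_zero

theorem dvd_001 : pal 0 0 1 ∣ (X ^ 9 - 1 : (ZMod 2)[X]) := by
  refine ⟨X ^ 3 + 1, ?_⟩
  simp only [pal, C_0, C_1]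
  linear_combination (-1 * X ^ 6 + -1 * X ^ 3 + -1) * two_zero

theorem dvd_010 : pal 0 1 0 ∣ (X ^ 8 - 1 : (ZMod 2)[X]) := by
  refine ⟨X ^ 2 + 1, ?_⟩
  simp only [pal, C_0, C_1]
  linear_combination (-1 * X ^ 6 + -1 * X ^ 4 + -1 * X ^ 2 + -1) * two_zero

theorem dvd_011 : pal 0 1 1 ∣ (X ^ 15 - 1 : (ZMod 2)[X]) := by
  refine ⟨X ^ 9 + X ^ 7 + X ^ 6 + X ^ 3 + X ^ 2 + 1, ?_⟩
  simp only [pal, C_0, C_1]
  linear_combination (-1 * X ^ 13 + -1 * X ^ 12 + -1 * X ^ 11 + -1 * X ^ 10 + -2 * X ^ 9 + -1 * X ^ 8 + -1 * X ^ 7 + -2 * X ^ 6 + -1 * X ^ 5 + -1 * X ^ 4 + -1 * X ^ 3 + -1 * X ^ 2 + -1) * two_zero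

theorem dvd_100 : pal 1 0 0 ∣ (X ^ 10 - 1 : (ZMod 2)[X]) := by
  refine ⟨X ^ 4 + X ^ 3 + X ^ 2 + X + 1, ?_⟩
  simp only [pal, C_0, C_1]
  linear_combination (-1 * X ^ 9 + -1 * X ^ 8 + -1 * X ^ 7 + -1 * X ^ 6 + -1 * X ^ 5 + -1 * X ^ 4 + -1 * X ^ 3 + -1 * X ^ 2 + -1 * X + -1) * two_zero

theorem dvd_101 : pal 1 0 1 ∣ (X ^ 12 - 1 : (ZMod 2)[X]) := by
  refine ⟨X ^ 6 + X ^ 5 + X ^ 4 + X ^ 2 + X + 1, ?_⟩
  simp only [pal, C_0, C_1]
  linear_combination (-1 * X ^ 11 + -1 * X ^ 10 + -1 * X ^ 9 + -1 * X ^ 8 + -2 * X ^ 7 + -2 * X ^ 6 + -2 * X ^ 5 + -1 * X ^ 4 + -1 * X ^ 3 + -1 * X ^ 2 + -1 * X + -1) * two_zero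

theorem dvd_110 : pal 1 1 0 ∣ (X ^ 12 - 1 : (ZMod 2)[X]) := by
  refine ⟨X ^ 6 + X ^ 5 + X ^ 3 + X + 1, ?_⟩
  simp only [pal, C_0, C_1]
  linear_combination (-1 * X ^ 11 + -1 * X ^ 10 + -1 * X ^ 9 + -1 * X ^ 8 + -2 * X ^ 7 + -2 * X ^ 6 + -2 * X ^ 5 + -1 * X ^ 4 + -1 * X ^ 3 + -1 * X ^ 2 + -1 * X + -1) * two_zero

theorem dvd_111 : pal 1 1 1 ∣ (X ^ 7 - 1 : (ZMod 2)[X]) := by
  refine ⟨X + 1, ?_⟩
  simp only [pal, C_1]
  linear_combination (-1 * X ^ 6 + -1 * X ^ 5 + -1 * X ^ 4 + -1 * X ^ 3 + -1 * X ^ 2 + -1 * X + -1) * two_zero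

theorem pow_dvd {p : (ZMod 2)[X]} {d : ℕ} (hd : d ∣ 2520) (h : p ∣ X ^ d - 1) :
    p ∣ X ^ 2520 - 1 := by
  obtain ⟨e, he⟩ := hd
  refine h.trans ?_
  rw [he, pow_mul]
  simpa using sub_dvd_pow_sub_pow ((X : (ZMod 2)[X]) ^ d) 1 e

theorem pal_dvd (a b c : ZMod 2) : pal a b c ∣ X ^ 2520 - 1 := by
  have h : ∀ x : ZMod 2, x = 0 ∨ x = 1 := by decide
  rcases h a with rfl | rfl <;> rcases h b with rfl | rfl <;> rcases h c with rfl | rfl
  · exact pow_dvd (by norm_num) dvd_000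
  · exact pow_dvd (by norm_num) dvd_001
  · exact pow_dvd (by norm_num) dvd_010
  · exact pow_dvd (by norm_num) dvd_011
  · exact pow_dvd (by norm_num) dvd_100
  · exact pow_dvd (by norm_num) dvd_101
  · exact pow_dvd (by norm_num) dvd_110
  · exact pow_dvd (by norm_num) dvd_111

/-- A monic polynomial of degree six equal to its reverse is palindromic. -/
theorem eq_pal (p : (ZMod 2)[X]) (hm : p.Monic) (hd : p.natDegree = 6) (hr : p.reverse = p) :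
    ∃ a b c, p = pal a b c := by
  have h : ∀ i ≤ 6, p.coeff (6 - i) = p.coeff i := by
    intro i hi
    conv_rhs => rw [← hr]
    rw [coeff_reverse, hd, revAt_le hi]
  have h6 : p.coeff 6 = 1 := by rw [← hd]; exact hm
  have h0 : p.coeff 0 = 1 := by rw [← h6]; exact h 6 le_rfl
  have h1 : p.coeff 1 = p.coeff 5 := h 5 (by norm_num)
  have h2 : p.coeff 2 = p.coeff 4 := h 4 (by norm_num)
  refine ⟨p.coeff 5, p.coeff 4, p.coeff 3, ?_⟩
  conv_lhs => rw [p.as_sum_range_C_mul_X_pow, hd]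
  simp only [Finset.sum_range_succ, Finset.sum_range_zero, h0, h1, h2, h6, pal, C_1]
  ring

theorem charpoly_inv_eq (A : Matrix (Fin 3 ⊕ Fin 3) (Fin 3 ⊕ Fin 3) (ZMod 2))
    (hA : A ∈ symplecticGroup (Fin 3) (ZMod 2)) : A⁻¹.charpoly = A.charpoly := by
  rw [SymplecticGroup.inv_eq_symplectic_inv A hA, charpoly_mul_comm, ← Matrix.mul_assoc]
  have h1 : J (Fin 3) (ZMod 2) * -J (Fin 3) (ZMod 2) = 1 := by
    rw [Matrix.mul_neg, J_squared, neg_neg]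
  rw [h1, Matrix.one_mul, charpoly_transpose]

theorem reverse_eq (A : Matrix (Fin 3 ⊕ Fin 3) (Fin 3 ⊕ Fin 3) (ZMod 2))
    (hA : A ∈ symplecticGroup (Fin 3) (ZMod 2)) : A.charpoly.reverse = A.charpoly := by
  have h1 : A.det = 1 := SymplecticGroup.det_eq_one hA
  have h2 : IsUnit A := by
    rw [Matrix.isUnit_iff_isUnit_det, h1]
    exact isUnit_one
  have h3 := charpoly_inv A h2
  rw [charpoly_inv_eq A hA, h1] at h3
  rw [reverse_charpoly, h3]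
  have h4 : (-1 : (ZMod 2)[X]) ^ Fintype.card (Fin 3 ⊕ Fin 3) = 1 := by
    simp only [Fintype.card_sum, Fintype.card_fin]
    norm_num
  rw [h4]
  simp

end Sp6

open Polynomial Matrix in
/-- Every element of `Sp(6, 2)` has order dividing 2520. -/
theorem sp6 (M : Matrix.symplecticGroup (Fin 3) (ZMod 2)) : M ^ 2520 = 1 := by
  obtain ⟨A, hA⟩ := M
  have hd : A.charpoly.natDegree = 6 := by
    rw [charpoly_natDegree_eq_dim]
    simp
  obtain ⟨a, b, c, h⟩ := Sp6.eq_pal A.charpoly A.charpoly_monic hd (Sp6.reverse_eq A hA)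
  obtain ⟨q, hq⟩ := Sp6.pal_dvd a b c
  apply Subtype.ext
  change A ^ 2520 = 1
  have h1 : aeval A (X ^ 2520 - 1 : (ZMod 2)[X]) = 0 := by
    rw [hq, ← h, map_mul, aeval_self_charpoly, zero_mul]
  rw [map_sub, map_pow, aeval_X, map_one] at h1
  exact sub_eq_zero.1 h1

end Pool.Agent.PowQ
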