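import Pool.Agent.PowQ.E7
import Pool.Agent.PowQ.Sp6

/-!
# The closed surface of genus three
-/

namespace Pool.Agent.PowQ

theorem Humphries.e7 {G : Type*} [Group G] (H : Humphries 3 G) {Q : Type*} [Group Q]
    (π : G →* Q) : IsE7 (fun i => π (H.a i)) where
  braid := by
    intro a b ha hb hab
    have hs : ∀ i, 1 ≤ i → i ≤ 5 →
        π (H.a i) * π (H.a (i + 1)) * π (H.a i) = π (H.a (i + 1)) * π (H.a i) * π (H.a (i + 1)) := by
      intro i h1 h2
      have := congrArg π (H.braid i h1 (by omega))
      simpa using this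
    have h0 : π (H.a 0) * π (H.a 4) * π (H.a 0) = π (H.a 4) * π (H.a 0) * π (H.a 4) := by
      have := congrArg π H.braid0
      simpa using this
    simp only [adj, Bool.or_eq_true, Bool.and_eq_true, beq_iff_eq, bne_iff_ne, ne_eq] at hab
    rcases hab with (⟨rfl, rfl⟩ | ⟨rfl, rfl⟩) | ⟨⟨h1, h2⟩, h3 | h3⟩
    · exact h0
    · exact h0.symm
    · subst h3
      exact (hs b (by omega) (by omega)).symm
    · subst h3
      exact hs a (by omega) (by omega)
  comm := by
    intro a b ha hb hne hab
    have hs : ∀ i j, 1 ≤ i → i + 2 ≤ j → j ≤ 7 →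
        π (H.a i) * π (H.a j) = π (H.a j) * π (H.a i) := by
      intro i j h1 h2 h3
      have := congrArg π (H.comm i j h1 h2 (by omega))
      simpa using this
    have h0 : ∀ i, 1 ≤ i → i ≤ 6 → i ≠ 4 →
        π (H.a 0) * π (H.a i) = π (H.a i) * π (H.a 0) := by
      intro i h1 h2 h3
      have := congrArg π (H.comm0 i h1 (by omega) h3)
      simpa using this
    simp only [adj, Bool.or_eq_false_iff, Bool.and_eq_false_iff, beq_eq_false_iff_ne,
      bne_eq_false_iff_eq, ne_eq] at hab
    rcases Nat.eq_zero_or_pos a with rfl | ha0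
    · exact h0 b (by omega) (by omega) (by omega)
    rcases Nat.eq_zero_or_pos b with rfl | hb0
    · exact (h0 a (by omega) (by omega) (by omega)).symm
    rcases Nat.lt_or_ge a b with h1 | h1
    · exact hs a b ha0 (by omega) (by omega)
    · exact (hs b a hb0 (by omega) (by omega)).symm

theorem genus_three {G : Type*} [Group G] (H : Humphries 3 G) (hperf : commutator G = ⊤)
    (φ : G →* Matrix.symplecticGroup (Fin 3) (ZMod 2)) (hφ : φ ≠ 1) (N : ℕ) :
    powSub G N = ⊤ ↔ ¬ 2520 ∣ N := by
  constructor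
  · rintro h ⟨k, rfl⟩
    have h1 : powSub G (2520 * k) ≤ φ.ker := powSub_le_ker φ _ (fun x => by
      rw [pow_mul, sp6, one_pow])
    rw [h] at h1
    apply hφ
    ext1 x
    exact h1 (Subgroup.mem_top x)
  · intro h
    by_cases h3 : 3 ∣ N
    swap
    · exact genus_ge (by norm_num) H hperf N 3 (by norm_num) (by norm_num) h3
    by_cases h9 : 9 ∣ N
    · have h4 : ¬ (5 ∣ N ∧ 7 ∣ N ∧ 8 ∣ N) := by
        rintro ⟨a, b, c⟩
        apply h
        omega
      have h5 : ¬ 5 ∣ N ∨ ¬ 7 ∣ N ∨ ¬ 8 ∣ N := by tauto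
      rcases h5 with h5 | h5 | h5
      · exact genus_ge (by norm_num) H hperf N 5 (by norm_num) (by norm_num) h5
      · exact genus_ge (by norm_num) H hperf N 7 (by norm_num) (by norm_num) h5
      · exact genus_ge (by norm_num) H hperf N 8 (by norm_num) (by norm_num) h5
    · set π := QuotientGroup.mk' (powSub G N) with hπ
      have h1 : π (H.a 4) = π (H.a 1) := e7_collapse (H.e7 π) N (pow_quot N) h3 h9
      have h2 := H.chain π
      have h3' := Pool.Agent.PowQ.all_eq h2 (by norm_num) 3 (by norm_num) (by norm_num) h1.symm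
      have h4 := H.all_eq (by norm_num) π h3'
      have h5 := commutator_le_of_gen (powSub G N) _ H.gen _ h4
      rw [hperf] at h5
      exact top_le_iff.1 h5

end Pool.Agent.PowQ
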