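import Pool.Agent.PowQ.DType
import Pool.Agent.PowQ.Three
import Pool.Agent.PowQ.Defs2

/-!
# Surfaces of genus at least three
-/

namespace Pool.Agent.PowQ

/-- In a group of exponent `N`, the two ends of a fork are equal. -/
theorem fork_collapse {Q : Type*} [Group Q] {f f' : Q} {t : ℕ → Q} (j : ℕ) (hj : 1 ≤ j)
    (h : Fork f f' t (2 * j - 1)) (N : ℕ) (hN : ∀ x : Q, x ^ N = 1) (h2 : 2 * j ∣ N)
    (h4 : ¬ 4 * j ∣ N) : f = f' := by
  obtain ⟨i, rfl⟩ : ∃ i, j = i + 1 := ⟨j - 1, by omega⟩
  have hp : 2 * (i + 1) - 1 = 2 * i + 1 := by omega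
  rw [hp] at h
  have h1 := h.full
  have h1' := h.symm.full
  have hk : ∀ a b : Q, fk a b (2 * i + 1) = b := by
    intro a b
    have : ¬ Even (2 * i + 1) := by
      rw [Nat.even_add_one, not_not]; exact even_two_mul i
    simp [fk, this]
  rw [hk] at h1 h1'
  rw [← h.ff] at h1'
  set c := f * f' * cw t (2 * i + 1) with hc
  have h3 : c ^ (4 * (i + 1)) * f = f * c ^ (4 * (i + 1)) := by
    have e : 4 * (i + 1) = (2 * i + 2) + (2 * i + 2) := by ring
    rw [e, pow_add, mul_assoc, h1, ← mul_assoc, h1', mul_assoc]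
  have h5 := pow_gcd_comm h3 (hN c)
  have h6 : Nat.gcd (4 * (i + 1)) N = 2 * i + 2 := by
    obtain ⟨m, rfl⟩ := h2
    have hm : ¬ 2 ∣ m := by
      rintro ⟨r, rfl⟩
      exact h4 ⟨r, by ring⟩
    have e : 4 * (i + 1) = 2 * (i + 1) * 2 := by ring
    have e2 : Nat.gcd 2 m = 1 := (Nat.prime_two.coprime_iff_not_dvd).2 hm
    rw [e, Nat.gcd_mul_left, e2]
    ring
  rw [h6, h1] at h5
  exact (mul_right_cancel h5).symm

/-- The relations of the Humphries generators. -/
structure HRel (g : ℕ) {Q : Type*} [Group Q] (f : Q) (s : ℕ → Q) : Prop where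
  ch : Chain s (2 * g + 1)
  b : f * s 3 * f = s 3 * f * s 3
  c : ∀ i, i < 2 * g → i ≠ 3 → f * s i = s i * f

theorem HRel.e7 {g : ℕ} (hg : 3 ≤ g) {Q : Type*} [Group Q] {f : Q} {s : ℕ → Q}
    (h : HRel g f s) : IsE7 (fun i => if i = 0 then f else s (i - 1)) where
  braid := by
    intro a b ha hb hab
    have hs : ∀ i, 1 ≤ i → i ≤ 5 →
        s (i - 1) * s (i + 1 - 1) * s (i - 1) = s (i + 1 - 1) * s (i - 1) * s (i + 1 - 1) := by
      intro i h1 h2
      obtain ⟨k, rfl⟩ : ∃ k, i = k + 1 := ⟨i - 1, by omega⟩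
      exact h.ch.braid k (by omega)
    simp only [adj, Bool.or_eq_true, Bool.and_eq_true, beq_iff_eq, bne_iff_ne, ne_eq] at hab
    rcases hab with (⟨rfl, rfl⟩ | ⟨rfl, rfl⟩) | ⟨⟨h1, h2⟩, h3 | h3⟩
    · simpa using h.b
    · simpa using h.b.symm
    · subst h3
      simp only [h1, h2, if_false]
      exact (hs b (by omega) (by omega)).symm
    · subst h3
      simp only [h1, h2, if_false]
      exact hs a (by omega) (by omega)
  comm := by
    intro a b ha hb hne hab
    have hs : ∀ i j, 1 ≤ i → i + 2 ≤ j → j < 7 →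
        s (i - 1) * s (j - 1) = s (j - 1) * s (i - 1) := by
      intro i j h1 h2 h3
      exact h.ch.comm (i - 1) (j - 1) (by omega) (by omega)
    have h0 : ∀ i, 1 ≤ i → i ≤ 6 → i ≠ 4 → f * s (i - 1) = s (i - 1) * f := by
      intro i h1 h2 h3
      exact h.c (i - 1) (by omega) (by omega)
    simp only [adj, Bool.or_eq_false_iff, Bool.and_eq_false_iff, beq_eq_false_iff_ne,
      bne_eq_false_iff_eq, ne_eq] at hab
    rcases Nat.eq_zero_or_pos a with rfl | ha0
    · have hb0 : b ≠ 0 := by omega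
      simp only [if_true, hb0, if_false]
      exact h0 b (by omega) (by omega) (by omega)
    rcases Nat.eq_zero_or_pos b with rfl | hb0
    · have ha1 : a ≠ 0 := by omega
      simp only [if_true, ha1, if_false]
      exact (h0 a (by omega) (by omega) (by omega)).symm
    have ha1 : a ≠ 0 := by omega
    have hb1 : b ≠ 0 := by omega
    simp only [ha1, hb1, if_false]
    rcases Nat.lt_or_ge a b with h1 | h1
    · exact hs a b ha0 (by omega) (by omega)
    · exact (hs b a hb0 (by omega) (by omega)).symm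

/-- The fork in the diagram of the Humphries generators. -/
theorem HRel.fork {g : ℕ} {Q : Type*} [Group Q] {f : Q} {s : ℕ → Q} (h : HRel g f s) (j : ℕ)
    (hj : 1 ≤ j) (hj' : j < g) : Fork f (s 2) (fun i => s (3 + i)) (2 * j - 1) where
  ff := h.c 2 (by omega) (by omega)
  b := h.b
  b' := h.ch.braid 2 (by omega)
  c := by
    intro i h1 h2
    exact h.c (3 + i) (by omega) (by omega)
  c' := by
    intro i h1 h2
    exact h.ch.comm 2 (3 + i) (by omega) (by omega)
  ch :=
    { braid := by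
        intro i hi
        exact h.ch.braid (3 + i) (by omega)
      comm := by
        intro i k h1 h2
        exact h.ch.comm (3 + i) (3 + k) (by omega) (by omega) }

/-- All generators of the chain coincide in a group of exponent `N` if one of the numbers
`1, ..., 2 g + 2`, `9` or `4 j` with `j < g` does not divide `N`. -/
theorem HRel.collapse {g : ℕ} (hg : 3 ≤ g) {Q : Type*} [Group Q] {f : Q} {s : ℕ → Q}
    (h : HRel g f s) (N : ℕ) (hN : ∀ x : Q, x ^ N = 1) (d : ℕ)
    (hd : (1 ≤ d ∧ d ≤ 2 * g + 2) ∨ d = 9 ∨ ∃ j, 1 ≤ j ∧ j < g ∧ d = 4 * j)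
    (hdN : ¬ d ∣ N) : ∀ i, i < 2 * g + 1 → s i = s 0 := by
  have key : ∀ d, 1 ≤ d → d ≤ 2 * g + 2 → ¬ d ∣ N → ∀ i, i < 2 * g + 1 → s i = s 0 :=
    fun d h1 h2 h3 => Pool.Agent.PowQ.collapse h.ch (by omega) N hN d h1 (by omega) h3
  rcases hd with ⟨h1, h2⟩ | rfl | ⟨j, hj, hj', rfl⟩
  · exact key d h1 h2 hdN
  · by_cases h3 : 3 ∣ N
    swap
    · exact key 3 (by norm_num) (by omega) h3
    have h1 : s 3 = s 0 := by
      have := e7_collapse (h.e7 hg) N hN h3 hdN
      simpa using this
    exact Pool.Agent.PowQ.all_eq h.ch (by omega) 3 (by norm_num) (by omega) h1.symm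
  · by_cases h2 : 2 * j ∣ N
    swap
    · exact key (2 * j) (by omega) (by omega) h2
    have h1 := fork_collapse j hj (h.fork j hj hj') N hN h2 hdN
    have e1 : s 1 = s 2 := by
      refine eq_of_braid_comm (h.ch.braid 1 (by omega)) ?_
      have := h.c 1 (by omega) (by omega)
      rw [h1] at this
      exact this.symm
    have e0 : s 0 = s 1 := by
      refine eq_of_braid_comm (h.ch.braid 0 (by omega)) ?_
      have := h.ch.comm 0 2 (by omega) (by omega)
      rw [← e1] at this
      exact this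
    exact Pool.Agent.PowQ.all_eq h.ch (by omega) 1 (by norm_num) (by omega) e0

/-- The relations hold for the images of the Humphries generators. -/
theorem Humphries.hrel {g : ℕ} {G : Type*} [Group G] (H : Humphries g G) {Q : Type*} [Group Q]
    (π : G →* Q) (hg : 2 ≤ g) : HRel g (π (H.a 0)) (fun i => π (H.a (i + 1))) where
  ch := H.chain π
  b := by
    have := congrArg π H.braid0
    simpa using this
  c := by
    intro i h1 h2
    have := congrArg π (H.comm0 (i + 1) (by omega) (by omega) (by omega))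
    simpa using this

/-- The closed surface of genus `g`. -/
theorem genus_high {g : ℕ} (hg : 3 ≤ g) {G : Type*} [Group G] (H : Humphries g G)
    (hperf : commutator G = ⊤) (N d : ℕ)
    (hd : (1 ≤ d ∧ d ≤ 2 * g + 2) ∨ d = 9 ∨ ∃ j, 1 ≤ j ∧ j < g ∧ d = 4 * j)
    (hdN : ¬ d ∣ N) : powSub G N = ⊤ := by
  have h1 := (H.hrel (QuotientGroup.mk' (powSub G N)) (by omega)).collapse hg N (pow_quot N) d hd
    hdN
  have h2 := H.all_eq (by omega) (QuotientGroup.mk' (powSub G N)) h1
  have h3 := commutator_le_of_gen (powSub G N) _ H.gen _ h2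
  rw [hperf] at h3
  exact top_le_iff.1 h3

end Pool.Agent.PowQ
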