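import Mathlib
import Pool.Agent.PowQ.Defs

/-!
# The mapping class group of genus two: power quotients are infinite

The cross ratio cocycle of four labelled points among six.
-/

namespace Pool.Agent.PowQ

namespace Inf2

/-- Is `b` separated from `c` by the pair `a`, `d`? -/
def sep (a d b c : ℕ) : Bool :=
  (Nat.blt a b ^^ Nat.blt d b) ^^ (Nat.blt a c ^^ Nat.blt d c)

/-- The interval of the cross ratio. -/
def jN (a b c d : ℕ) : ℕ :=
  bif sep a d b c then 0 else bif sep c d a b then 1 else 2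

/-- The swap of the positions `m` and `m + 1`. -/
def sw (m x : ℕ) : ℕ :=
  bif Nat.beq x m then m + 1 else bif Nat.beq x (m + 1) then m else x

/-- Push a letter on the reduced stack. Letters: `1` is `e 1`, `2` is its inverse, `3` is `e 2`,
`4` is its inverse. -/
def push (s : List ℕ) (x y : ℕ) : List ℕ :=
  match s with
  | [] => [x]
  | z :: t => bif Nat.beq z y then t else x :: z :: t

/-- Push the letters of `kappa j k` on the stack. -/
def pushK (s : List ℕ) (j k : ℕ) : List ℕ :=
  bif Nat.beq j 0 && Nat.beq k 1 then push s 2 1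
  else bif Nat.beq j 1 && Nat.beq k 2 then push (push s 1 2) 4 3
  else bif Nat.beq j 2 && Nat.beq k 0 then push s 3 4
  else s

/-- A state of the checker. -/
structure St where
  a : ℕ
  b : ℕ
  c : ℕ
  d : ℕ
  s : List ℕ

/-- One step. -/
def step (m : ℕ) (x : St) : St :=
  ⟨sw m x.a, sw m x.b, sw m x.c, sw m x.d,
    pushK x.s (jN x.a x.b x.c x.d) (jN (sw m x.a) (sw m x.b) (sw m x.c) (sw m x.d))⟩

/-- Run a word, from the right. -/
def run : List ℕ → St → St
  | [], x => x
  | m :: w, x => step m (run w x)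

def eqL : List ℕ → List ℕ → Bool
  | [], [] => true
  | x :: s, y :: t => Nat.beq x y && eqL s t
  | _, _ => false

def eqSt (x y : St) : Bool :=
  Nat.beq x.a y.a && Nat.beq x.b y.b && Nat.beq x.c y.c && Nat.beq x.d y.d && eqL x.s y.s

def distinct (a b c d : ℕ) : Bool :=
  !(Nat.beq a b) && !(Nat.beq a c) && !(Nat.beq a d) && !(Nat.beq b c) && !(Nat.beq b d) &&
    !(Nat.beq c d)

/-- The check of a relation in all states. -/
def chk (u v : List ℕ) : Bool :=
  (List.range 6).all fun a => (List.range 6).all fun b => (List.range 6).all fun c =>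
    (List.range 6).all fun d => !(distinct a b c d) ||
      eqSt (run u ⟨a, b, c, d, []⟩) (run v ⟨a, b, c, d, []⟩)

set_option maxRecDepth 100000

theorem chk02 : chk [0, 2] [2, 0] = true := by decide +kernel
theorem chk03 : chk [0, 3] [3, 0] = true := by decide +kernel
theorem chk04 : chk [0, 4] [4, 0] = true := by decide +kernel
theorem chk13 : chk [1, 3] [3, 1] = true := by decide +kernel
theorem chk14 : chk [1, 4] [4, 1] = true := by decide +kernel
theorem chk24 : chk [2, 4] [4, 2] = true := by decide +kernel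
theorem chkb0 : chk [0, 1, 0] [1, 0, 1] = true := by decide +kernel
theorem chkb1 : chk [1, 2, 1] [2, 1, 2] = true := by decide +kernel
theorem chkb2 : chk [2, 3, 2] [3, 2, 3] = true := by decide +kernel
theorem chkb3 : chk [3, 4, 3] [4, 3, 4] = true := by decide +kernel
theorem chkh : chk [0, 1, 2, 3, 4, 4, 3, 2, 1, 0] [] = true := by decide +kernel
theorem chkc : chk [0, 1, 2, 3, 4, 0, 1, 2, 3, 4, 0, 1, 2, 3, 4, 0, 1, 2, 3, 4, 0, 1, 2, 3, 4,
    0, 1, 2, 3, 4] [] = true := by decide +kernel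


section

variable {B : Type*} [Group B] (e₁ e₂ : B)

/-- The value of a letter. -/
def letter (n : ℕ) : B :=
  if n = 1 then e₁ else if n = 2 then e₁⁻¹ else if n = 3 then e₂ else if n = 4 then e₂⁻¹ else 1

/-- The value of a stack. -/
def ev : List ℕ → B
  | [] => 1
  | x :: t => ev t * letter e₁ e₂ x

theorem ev_push (s : List ℕ) (x y : ℕ) (h : letter e₁ e₂ y = (letter e₁ e₂ x)⁻¹) :
    ev e₁ e₂ (push s x y) = ev e₁ e₂ s * letter e₁ e₂ x := by
  cases s with
  | nil => simp [push, ev]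
  | cons z t =>
    simp only [push]
    cases hz : Nat.beq z y with
    | false => simp [ev]
    | true =>
      have hzy : z = y := Nat.eq_of_beq_eq_true hz
      subst hzy
      simp [ev, h]

/-- The cocycle. -/
def kap (j k : ℕ) : B :=
  if j = 0 ∧ k = 1 then e₁⁻¹ else if j = 1 ∧ k = 2 then e₁ * e₂⁻¹
  else if j = 2 ∧ k = 0 then e₂ else 1

theorem ev_pushK (s : List ℕ) (j k : ℕ) :
    ev e₁ e₂ (pushK s j k) = ev e₁ e₂ s * kap e₁ e₂ j k := by
  have hb : ∀ a b : ℕ, Nat.beq a b = decide (a = b) := fun a b => by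
    by_cases h : a = b
    · subst h; simp
    · cases hh : Nat.beq a b with
      | false => simp [h]
      | true => exact absurd (Nat.eq_of_beq_eq_true hh) h
  by_cases h1 : j = 0 ∧ k = 1
  · obtain ⟨rfl, rfl⟩ := h1
    simp only [pushK, hb]
    simp only [decide_true, Bool.and_self, cond_true]
    rw [ev_push _ _ _ _ _ (by simp [letter])]
    simp [kap, letter]
  · by_cases h2 : j = 1 ∧ k = 2
    · obtain ⟨rfl, rfl⟩ := h2
      simp only [pushK, hb]
      simp only [one_ne_zero, decide_false, Bool.false_and, cond_false, decide_true,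
        Bool.and_self, cond_true]
      rw [ev_push _ _ _ _ _ (by simp [letter]), ev_push _ _ _ _ _ (by simp [letter])]
      simp [kap, letter, mul_assoc]
    · by_cases h3 : j = 2 ∧ k = 0
      · obtain ⟨rfl, rfl⟩ := h3
        simp only [pushK, hb]
        simp only [OfNat.ofNat_ne_zero, OfNat.ofNat_ne_one, decide_false, Bool.false_and,
          cond_false, decide_true, Bool.and_self, cond_true]
        rw [ev_push _ _ _ _ _ (by simp [letter])]
        simp [kap, letter]
      · have e1 : (Nat.beq j 0 && Nat.beq k 1) = false := by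
          rw [hb, hb, ← Bool.decide_and]; simpa using h1
        have e2 : (Nat.beq j 1 && Nat.beq k 2) = false := by
          rw [hb, hb, ← Bool.decide_and]; simpa using h2
        have e3 : (Nat.beq j 2 && Nat.beq k 0) = false := by
          rw [hb, hb, ← Bool.decide_and]; simpa using h3
        simp only [pushK, e1, e2, e3, cond_false, kap, if_neg h1, if_neg h2, if_neg h3, mul_one]

/-- Positions of four labelled points. -/
abbrev X := Fin 4 ↪ Fin 6

/-- The interval of the cross ratio. -/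
def jj (p : X) : ℕ := jN (p 0) (p 1) (p 2) (p 3)

/-- The action of a permutation on the positions. -/
def act (π : Equiv.Perm (Fin 6)) (p : X) : X := p.trans π.toEmbedding

@[simp] theorem act_one (p : X) : act 1 p = p := by ext i; simp [act]

theorem act_mul (π ρ : Equiv.Perm (Fin 6)) (p : X) : act (π * ρ) p = act π (act ρ p) := by
  ext i; simp [act]

/-- The swap number `m`. -/
def sp (m : Fin 5) : Equiv.Perm (Fin 6) := Equiv.swap m.castSucc m.succ

theorem sp_sp (m : Fin 5) : sp m * sp m = 1 := by simp [sp]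

theorem act_sp_sp (m : Fin 5) (p : X) : act (sp m) (act (sp m) p) = p := by
  rw [← act_mul, sp_sp, act_one]

theorem sp_val : ∀ (m : Fin 5) (x : Fin 6), (sp m x).val = sw m.val x.val := by
  unfold sp
  decide

theorem act_val (m : Fin 5) (p : X) (i : Fin 4) :
    (act (sp m) p i).val = sw m.val (p i).val := sp_val m (p i)

/-- The half twist number `m`. -/
def P (m : Fin 5) : Equiv.Perm (X × B) where
  toFun x := (act (sp m) x.1, x.2 * kap e₁ e₂ (jj x.1) (jj (act (sp m) x.1)))
  invFun x := (act (sp m) x.1, x.2 * (kap e₁ e₂ (jj (act (sp m) x.1)) (jj x.1))⁻¹)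
  left_inv x := by
    ext <;> simp [act_sp_sp, mul_assoc]
  right_inv x := by
    ext <;> simp [act_sp_sp, mul_assoc]

theorem P_apply (m : Fin 5) (p : X) (b : B) :
    P e₁ e₂ m (p, b) = (act (sp m) p, b * kap e₁ e₂ (jj p) (jj (act (sp m) p))) := rfl

/-- The initial state of the checker. -/
def ini (p : X) : St := ⟨p 0, p 1, p 2, p 3, []⟩

theorem run_spec (w : List (Fin 5)) (p : X) (b : B) :
    ∃ q : X, (w.map (P e₁ e₂)).prod (p, b) = (q, b * ev e₁ e₂ (run (w.map Fin.val) (ini p)).s) ∧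
      (q 0).val = (run (w.map Fin.val) (ini p)).a ∧
      (q 1).val = (run (w.map Fin.val) (ini p)).b ∧
      (q 2).val = (run (w.map Fin.val) (ini p)).c ∧
      (q 3).val = (run (w.map Fin.val) (ini p)).d := by
  induction w with
  | nil => exact ⟨p, by simp [run, ini, ev]⟩
  | cons m w ih =>
    obtain ⟨q, hq, h0, h1, h2, h3⟩ := ih
    refine ⟨act (sp m) q, ?_, ?_, ?_, ?_, ?_⟩
    · rw [List.map_cons, List.prod_cons, Equiv.Perm.mul_apply, hq, P_apply]
      simp only [List.map_cons, run, step]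
      rw [ev_pushK, ← mul_assoc]
      simp only [jj, act_val, h0, h1, h2, h3]
    all_goals simp only [List.map_cons, run, step, act_val, h0, h1, h2, h3]

theorem eqL_eq : ∀ s t : List ℕ, eqL s t = true → s = t
  | [], [], _ => rfl
  | [], _ :: _, h => by simp [eqL] at h
  | _ :: _, [], h => by simp [eqL] at h
  | x :: s, y :: t, h => by
    simp only [eqL, Bool.and_eq_true] at h
    rw [Nat.eq_of_beq_eq_true h.1, eqL_eq s t h.2]

theorem prod_eq (u v : List (Fin 5)) (h : chk (u.map Fin.val) (v.map Fin.val) = true) :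
    (u.map (P e₁ e₂)).prod = (v.map (P e₁ e₂)).prod := by
  refine Equiv.ext fun x => ?_
  obtain ⟨p, b⟩ := x
  obtain ⟨q, hq, h0, h1, h2, h3⟩ := run_spec e₁ e₂ u p b
  obtain ⟨q', hq', h0', h1', h2', h3'⟩ := run_spec e₁ e₂ v p b
  have hd : distinct (p 0).val (p 1).val (p 2).val (p 3).val = true := by
    have hn : ∀ i j : Fin 4, i ≠ j → Nat.beq (p i).val (p j).val = false := fun i j hij => by
      cases hh : Nat.beq (p i).val (p j).val with
      | false => rfl
      | true => exact absurd (p.injective (Fin.ext (Nat.eq_of_beq_eq_true hh))) hij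
    simp only [distinct, hn 0 1 (by decide), hn 0 2 (by decide), hn 0 3 (by decide),
      hn 1 2 (by decide), hn 1 3 (by decide), hn 2 3 (by decide)]
    rfl
  have hc : eqSt (run (u.map Fin.val) (ini p)) (run (v.map Fin.val) (ini p)) = true := by
    unfold chk at h
    rw [List.all_eq_true] at h
    have h := h (p 0).val (List.mem_range.2 (p 0).isLt)
    rw [List.all_eq_true] at h
    have h := h (p 1).val (List.mem_range.2 (p 1).isLt)
    rw [List.all_eq_true] at h
    have h := h (p 2).val (List.mem_range.2 (p 2).isLt)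
    rw [List.all_eq_true] at h
    have h := h (p 3).val (List.mem_range.2 (p 3).isLt)
    rw [hd] at h
    simpa [ini] using h
  simp only [eqSt, Bool.and_eq_true] at hc
  obtain ⟨⟨⟨⟨ca, cb⟩, cc⟩, cd⟩, cs⟩ := hc
  have ca := Nat.eq_of_beq_eq_true ca
  have cb := Nat.eq_of_beq_eq_true cb
  have cc := Nat.eq_of_beq_eq_true cc
  have cd := Nat.eq_of_beq_eq_true cd
  have cs := eqL_eq _ _ cs
  rw [hq, hq', cs]
  have : q = q' := by
    ext i
    fin_cases i
    · exact h0.trans (ca.trans h0'.symm)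
    · exact h1.trans (cb.trans h1'.symm)
    · exact h2.trans (cc.trans h2'.symm)
    · exact h3.trans (cd.trans h3'.symm)
  rw [this]

theorem lift_hyp : FreeGroup.lift (P e₁ e₂) hyp = 1 := by
  have := prod_eq e₁ e₂ [0, 1, 2, 3, 4, 4, 3, 2, 1, 0] [] chkh
  simpa [hyp, gen, mul_assoc] using this

theorem lift_rel (r : FreeGroup (Fin 5)) (hr : r ∈ bhRel) : FreeGroup.lift (P e₁ e₂) r = 1 := by
  rcases hr with hr | rfl | rfl | ⟨i, rfl⟩
  · rcases hr with ⟨i, j, hij, rfl⟩ | ⟨i, j, hij, rfl⟩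
    · have hc : ∀ i j : Fin 5, i.val + 2 ≤ j.val → chk [i.val, j.val] [j.val, i.val] = true := by
        intro i j hij
        have : (i = 0 ∧ j = 2) ∨ (i = 0 ∧ j = 3) ∨ (i = 0 ∧ j = 4) ∨ (i = 1 ∧ j = 3) ∨
            (i = 1 ∧ j = 4) ∨ (i = 2 ∧ j = 4) := by
          revert i j; decide
        rcases this with ⟨rfl, rfl⟩ | ⟨rfl, rfl⟩ | ⟨rfl, rfl⟩ | ⟨rfl, rfl⟩ | ⟨rfl, rfl⟩ | ⟨rfl, rfl⟩
        exacts [chk02, chk03, chk04, chk13, chk14, chk24]
      have := prod_eq e₁ e₂ [i, j] [j, i] (hc i j hij)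
      simp only [List.map_cons, List.map_nil, List.prod_cons, List.prod_nil, mul_one] at this
      simp [gen, this]
    · have hc : ∀ i j : Fin 5, j.val = i.val + 1 →
          chk [i.val, j.val, i.val] [j.val, i.val, j.val] = true := by
        intro i j hij
        have : (i = 0 ∧ j = 1) ∨ (i = 1 ∧ j = 2) ∨ (i = 2 ∧ j = 3) ∨ (i = 3 ∧ j = 4) := by
          revert i j; decide
        rcases this with ⟨rfl, rfl⟩ | ⟨rfl, rfl⟩ | ⟨rfl, rfl⟩ | ⟨rfl, rfl⟩
        exacts [chkb0, chkb1, chkb2, chkb3]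
      have := prod_eq e₁ e₂ [i, j, i] [j, i, j] (hc i j hij)
      simp only [List.map_cons, List.map_nil, List.prod_cons, List.prod_nil, mul_one,
        ← mul_assoc] at this
      rw [map_mul, map_inv, mul_inv_eq_one]
      simpa [gen] using this
  · have := prod_eq e₁ e₂ [0, 1, 2, 3, 4, 0, 1, 2, 3, 4, 0, 1, 2, 3, 4, 0, 1, 2, 3, 4, 0, 1, 2,
      3, 4, 0, 1, 2, 3, 4] [] chkc
    simpa [gen, mul_assoc, pow_succ] using this
  · rw [map_pow, lift_hyp, one_pow]
  · rw [map_mul, map_inv, map_mul, map_mul, lift_hyp]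
    simp

end

section

variable (k : ℕ)

instance powSub_normal (G : Type*) [Group G] (N : ℕ) : (powSub G N).Normal := by
  constructor
  intro x hx g
  unfold powSub at hx ⊢
  induction hx using Subgroup.closure_induction with
  | mem x hx =>
    obtain ⟨h, rfl⟩ := hx
    exact Subgroup.subset_closure ⟨g * h * g⁻¹, by rw [conj_pow]⟩
  | one => simp
  | mul x y _ _ hx hy =>
    have : g * (x * y) * g⁻¹ = (g * x * g⁻¹) * (g * y * g⁻¹) := by group
    rw [this]
    exact Subgroup.mul_mem _ hx hy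
  | inv x _ hx =>
    have : g * x⁻¹ * g⁻¹ = (g * x * g⁻¹)⁻¹ := by group
    rw [this]
    exact Subgroup.inv_mem _ hx

/-- The free Burnside group of rank two. -/
abbrev Bq := FreeGroup (Fin 2) ⧸ powSub (FreeGroup (Fin 2)) k

theorem Bq_pow (b : Bq k) : b ^ k = 1 := by
  obtain ⟨x, rfl⟩ := QuotientGroup.mk_surjective b
  rw [← QuotientGroup.mk_pow]
  exact (QuotientGroup.eq_one_iff _).2 (Subgroup.subset_closure ⟨x, rfl⟩)

/-- The generators. -/
def eq (i : Fin 2) : Bq k := QuotientGroup.mk (FreeGroup.of i)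

theorem Bq_top (H : Subgroup (Bq k)) (h : ∀ i, eq k i ∈ H) (b : Bq k) : b ∈ H := by
  obtain ⟨x, rfl⟩ := QuotientGroup.mk_surjective b
  have : (⊤ : Subgroup (FreeGroup (Fin 2))) ≤ H.comap (QuotientGroup.mk' _) := by
    rw [← FreeGroup.closure_range_of, Subgroup.closure_le]
    rintro _ ⟨i, rfl⟩
    exact h i
  exact this (Subgroup.mem_top x)

/-- The representation. -/
noncomputable def F : Mod2 →* Equiv.Perm (X × Bq k) :=
  PresentedGroup.toGroup (f := P (eq k 0) (eq k 1)) (lift_rel (eq k 0) (eq k 1))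

theorem F_of (i : Fin 5) : F k (PresentedGroup.of i) = P (eq k 0) (eq k 1) i :=
  PresentedGroup.toGroup.of _

/-- The skew form of a permutation. -/
def Skew (π : Equiv.Perm (Fin 6)) (γ : X → Bq k) (f : Equiv.Perm (X × Bq k)) : Prop :=
  ∀ p b, f (p, b) = (act π p, b * γ p)

theorem Skew.mul {k : ℕ} {π ρ : Equiv.Perm (Fin 6)} {γ δ : X → Bq k}
    {f g : Equiv.Perm (X × Bq k)} (hf : Skew k π γ f) (hg : Skew k ρ δ g) :
    Skew k (π * ρ) (fun p => δ p * γ (act ρ p)) (f * g) := by
  intro p b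
  rw [Equiv.Perm.mul_apply, hg, hf, act_mul, mul_assoc]

theorem Skew.inv {k : ℕ} {π : Equiv.Perm (Fin 6)} {γ : X → Bq k}
    {f : Equiv.Perm (X × Bq k)} (hf : Skew k π γ f) :
    Skew k π⁻¹ (fun p => (γ (act π⁻¹ p))⁻¹) f⁻¹ := by
  intro p b
  rw [Equiv.Perm.inv_eq_iff_eq, hf, ← act_mul]
  simp

theorem Skew.one : Skew k 1 (fun _ => 1) 1 := by
  intro p b
  simp

/-- The subgroup of skew permutations. -/
def skewSub : Subgroup (Equiv.Perm (X × Bq k)) where
  carrier := {f | ∃ π γ, Skew k π γ f}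
  mul_mem' := by
    rintro f g ⟨π, γ, hf⟩ ⟨ρ, δ, hg⟩
    exact ⟨_, _, hf.mul hg⟩
  one_mem' := ⟨_, _, Skew.one k⟩
  inv_mem' := by
    rintro f ⟨π, γ, hf⟩
    exact ⟨_, _, hf.inv⟩

theorem F_skew (g : Mod2) : ∃ π γ, Skew k π γ (F k g) := by
  have : (⊤ : Subgroup Mod2) ≤ (skewSub k).comap (F k) := by
    rw [← PresentedGroup.closure_range_of, Subgroup.closure_le]
    rintro _ ⟨i, rfl⟩
    refine ⟨sp i, fun p => kap (eq k 0) (eq k 1) (jj p) (jj (act (sp i) p)), fun p b => ?_⟩
    rw [F_of, P_apply]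
  exact this (Subgroup.mem_top g)

theorem Skew.pow {k : ℕ} {π : Equiv.Perm (Fin 6)} {γ : X → Bq k}
    {f : Equiv.Perm (X × Bq k)} (hf : Skew k π γ f) (n : ℕ) :
    ∃ δ, Skew k (π ^ n) δ (f ^ n) := by
  induction n with
  | zero => exact ⟨_, by simpa using Skew.one k⟩
  | succ n ih =>
    obtain ⟨δ, hδ⟩ := ih
    rw [pow_succ, pow_succ]
    exact ⟨_, hδ.mul hf⟩

theorem perm6 (π : Equiv.Perm (Fin 6)) : π ^ 60 = 1 := by
  rw [← orderOf_dvd_iff_pow_eq_one, ← Equiv.Perm.lcm_cycleType, Multiset.lcm_dvd]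
  intro n hn
  have h1 := Multiset.le_sum_of_mem hn
  rw [Equiv.Perm.sum_cycleType] at h1
  have h2 := Finset.card_le_univ π.support
  rw [Fintype.card_fin] at h2
  have h3 := Equiv.Perm.two_le_of_mem_cycleType hn
  have h4 : n ≤ 6 := h1.trans h2
  interval_cases n <;> norm_num

theorem F_pow (g : Mod2) : F k (g ^ (60 * k)) = 1 := by
  obtain ⟨π, γ, hg⟩ := F_skew k g
  obtain ⟨δ, hδ⟩ := hg.pow 60
  rw [perm6] at hδ
  rw [map_pow, pow_mul]
  have h : ∀ n : ℕ, ∀ p b, ((F k g ^ 60) ^ n) (p, b) = (p, b * δ p ^ n) := by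
    intro n
    induction n with
    | zero => intro p b; simp
    | succ n ih =>
      intro p b
      rw [pow_succ, Equiv.Perm.mul_apply, hδ, act_one, ih, mul_assoc, ← pow_succ']
  refine Equiv.ext fun x => ?_
  obtain ⟨p, b⟩ := x
  rw [h, Bq_pow, mul_one]
  rfl

/-- The base position. -/
def p0 : X := ⟨Fin.castLE (by norm_num), Fin.castLE_injective _⟩

/-- The translations of the fibre over the base position. -/
def trans : Subgroup (Bq k) where
  carrier := {c | ∃ g : Mod2, ∀ b, F k g (p0, b) = (p0, b * c)}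
  mul_mem' := by
    rintro c d ⟨g, hg⟩ ⟨h, hh⟩
    refine ⟨h * g, fun b => ?_⟩
    rw [map_mul, Equiv.Perm.mul_apply, hg, hh, mul_assoc]
  one_mem' := ⟨1, fun b => by simp⟩
  inv_mem' := by
    rintro c ⟨g, hg⟩
    refine ⟨g⁻¹, fun b => ?_⟩
    rw [map_inv, Equiv.Perm.inv_eq_iff_eq, hg]
    simp

theorem sq0 (b : Bq k) : F k (PresentedGroup.of 0 * PresentedGroup.of 0) (p0, b) =
    (p0, b * eq k 1) := by
  rw [map_mul, Equiv.Perm.mul_apply, F_of, P_apply, P_apply, act_sp_sp]
  have h1 : jj p0 = 2 := by decide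
  have h2 : jj (act (sp 0) p0) = 0 := by decide
  rw [h1, h2]
  simp [kap]

theorem sq1 (b : Bq k) : F k (PresentedGroup.of 1 * PresentedGroup.of 1) (p0, b) =
    (p0, b * (eq k 0 * (eq k 1)⁻¹)) := by
  rw [map_mul, Equiv.Perm.mul_apply, F_of, P_apply, P_apply, act_sp_sp]
  have h1 : jj p0 = 2 := by decide
  have h2 : jj (act (sp 1) p0) = 1 := by decide
  rw [h1, h2]
  simp [kap]

theorem trans_top (c : Bq k) : c ∈ trans k := by
  have h1 : eq k 1 ∈ trans k := ⟨_, sq0 k⟩
  have h2 : eq k 0 * (eq k 1)⁻¹ ∈ trans k := ⟨_, sq1 k⟩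
  have h0 : eq k 0 ∈ trans k := by simpa using Subgroup.mul_mem _ h2 h1
  refine Bq_top k _ (fun i => ?_) c
  fin_cases i
  · exact h0
  · exact h1

end

end Inf2

open Inf2 in
theorem inf2 (k : ℕ) (hk : (powSub (FreeGroup (Fin 2)) k).index = 0) :
    (powSub Mod2 (60 * k)).index = 0 := by
  have hinf : Infinite (Bq k) := by
    by_contra h
    rw [not_infinite_iff_finite] at h
    exact (Subgroup.index_ne_zero_of_finite (H := powSub (FreeGroup (Fin 2)) k)) hk
  have hle : powSub Mod2 (60 * k) ≤ (F k).ker := by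
    unfold powSub
    rw [Subgroup.closure_le]
    rintro _ ⟨g, rfl⟩
    exact F_pow k g
  have hr : Infinite (F k).range := by
    refine Infinite.of_surjective (fun σ : (F k).range => (σ.1 (p0, 1)).2) fun c => ?_
    obtain ⟨g, hg⟩ := trans_top k c
    exact ⟨⟨F k g, g, rfl⟩, by simp [hg]⟩
  have h0 : (F k).ker.index = 0 := by
    rw [Subgroup.index_ker]
    exact Nat.card_eq_zero_of_infinite
  have := Subgroup.index_dvd_of_le hle
  rw [h0] at this
  exact Nat.eq_zero_of_zero_dvd this

end Pool.Agent.PowQ
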