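import Pool.Agent.PowQ.Gen
import Pool.Agent.PowQ.Defs2

/-!
# Infinite power quotients of the annular braid group on two strands

The group acts on two points times a group `B` of exponent `k`; the `2 k`-th powers act trivially
and the image is infinite when `B` is.
-/

set_option autoImplicit false

namespace Pool.Agent.PowQ

namespace InfAB

variable {B : Type*} [Group B]

/-- The group of pairs. -/
abbrev W (B : Type*) [Group B] := (Fin 2 → B) ⋊[mulAutArrow] Equiv.Perm (Fin 2)

/-- The image of the twist. -/
def Y (b : Fin 2 → B) : W B := SemidirectProduct.inl b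

/-- The image of the product of the half twist and the twist. -/
def X : W B := SemidirectProduct.inr (Equiv.swap 0 1)

theorem X_sq : (X : W B) * X = 1 := by
  unfold X
  rw [← map_mul, Equiv.swap_mul_self, map_one]

theorem rel (b : Fin 2 → B) : X * (Y b)⁻¹ * Y b * (X * (Y b)⁻¹) * Y b =
    Y b * (X * (Y b)⁻¹) * Y b * (X * (Y b)⁻¹) := by
  have h1 : X * (Y b)⁻¹ * Y b * (X * (Y b)⁻¹) * Y b = X * X := by group
  have h2 : Y b * (X * (Y b)⁻¹) * Y b * (X * (Y b)⁻¹) = Y b * (X * X) * (Y b)⁻¹ := by group
  rw [h1, h2, X_sq, mul_one, mul_inv_cancel]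

/-- The homomorphism of the annular braid group. -/
def hom (b : Fin 2 → B) : AB →* W B :=
  PresentedGroup.toGroup (f := ![X * (Y b)⁻¹, Y b]) (by
    intro r hr
    rw [abRel, Set.mem_singleton_iff] at hr
    subst hr
    simp only [gen, map_mul, map_inv, FreeGroup.lift_apply_of, Matrix.cons_val_zero,
      Matrix.cons_val_one]
    rw [rel b, mul_inv_cancel])

theorem hom_zero (b : Fin 2 → B) : hom b (PresentedGroup.of 0) = X * (Y b)⁻¹ := by
  unfold hom
  exact PresentedGroup.toGroup.of _

theorem hom_one (b : Fin 2 → B) : hom b (PresentedGroup.of 1) = Y b := by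
  unfold hom
  exact PresentedGroup.toGroup.of _

theorem W_pow (k : ℕ) (hB : ∀ b : B, b ^ k = 1) (w : W B) : w ^ (2 * k) = 1 := by
  have h1 : (w ^ 2).right = 1 := by
    have : SemidirectProduct.rightHom (w ^ 2) = 1 := by
      rw [map_pow]
      have h := pow_card_eq_one (x := (SemidirectProduct.rightHom w : Equiv.Perm (Fin 2)))
      rwa [Fintype.card_perm, Fintype.card_fin] at h
    exact this
  have h2 : w ^ 2 = SemidirectProduct.inl (w ^ 2).left := by
    apply SemidirectProduct.ext
    · rfl
    · exact h1
  rw [pow_mul, h2, ← map_pow]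
  have h3 : (w ^ 2).left ^ k = 1 := by
    funext io
    rw [Pi.pow_apply, hB]
    rfl
  rw [h3, map_one]

/-- The free subgroup. -/
def free : FreeGroup (Fin 2) →* AB :=
  FreeGroup.lift ![PresentedGroup.of 1,
    PresentedGroup.of 0 * PresentedGroup.of 1 * PresentedGroup.of 1 *
      (PresentedGroup.of 0 * PresentedGroup.of 1)⁻¹]

/-- Its image in the base of `W`. -/
def base (b : Fin 2 → B) : FreeGroup (Fin 2) →* (Fin 2 → B) :=
  FreeGroup.lift ![b, fun i => b (Equiv.swap 0 1 i)]

theorem conj (b : Fin 2 → B) : X * Y b * X⁻¹ = Y (fun i => b (Equiv.swap 0 1 i)) := by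
  unfold X Y
  rw [← map_inv, ← SemidirectProduct.inl_aut]
  congr 1

theorem hom_free (b : Fin 2 → B) (w : FreeGroup (Fin 2)) :
    hom b (free w) = SemidirectProduct.inl (base b w) := by
  have h : (hom b).comp free = (SemidirectProduct.inl).comp (base b) := by
    apply FreeGroup.ext_hom
    intro a
    fin_cases a
    · simp [free, base, hom_one, Y]
    · have e1 : free (FreeGroup.of 1) = PresentedGroup.of 0 * PresentedGroup.of 1 *
          PresentedGroup.of 1 * (PresentedGroup.of 0 * PresentedGroup.of 1)⁻¹ := by
        simp [free]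
      have e2 : base b (FreeGroup.of 1) = fun i => b (Equiv.swap 0 1 i) := by
        simp [base]
      have e3 : hom b (free (FreeGroup.of 1)) = X * Y b * X⁻¹ := by
        rw [e1]
        simp only [map_mul, map_inv, hom_one, hom_zero, inv_mul_cancel_right]
      change hom b (free (FreeGroup.of 1)) = SemidirectProduct.inl (base b (FreeGroup.of 1))
      rw [e3, e2]
      exact conj b
  exact DFunLike.congr_fun h w

theorem base_apply (b : Fin 2 → B) (f : FreeGroup (Fin 2) →* B)
    (h1 : f (FreeGroup.of 0) = b 0) (h2 : f (FreeGroup.of 1) = b 1) (w : FreeGroup (Fin 2)) :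
    base b w 0 = f w := by
  have h : (Pi.evalMonoidHom (fun _ : Fin 2 => B) 0).comp (base b) = f := by
    apply FreeGroup.ext_hom
    intro a
    fin_cases a
    · simp [base, h1]
    · simp [base, h2]
  exact DFunLike.congr_fun h w

end InfAB

open InfAB in
/-- The subgroup generated by the `2 k`-th powers has infinite index in the annular braid group on
two strands when the free Burnside group of rank two and exponent `k` is infinite. -/
theorem infAB (k : ℕ) (hk : (powSub (FreeGroup (Fin 2)) k).index = 0) :
    (powSub AB (2 * k)).index = 0 := by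
  set P := powSub (FreeGroup (Fin 2)) k with hP
  let f : FreeGroup (Fin 2) →* FreeGroup (Fin 2) ⧸ P := QuotientGroup.mk' P
  let b : Fin 2 → FreeGroup (Fin 2) ⧸ P := fun i => f (FreeGroup.of i)
  have h1 : powSub AB (2 * k) ≤ (hom b).ker :=
    powSub_le_ker (hom b) (2 * k) fun x => W_pow k (pow_quot k) (hom b x)
  have h2 : (powSub AB (2 * k)).comap free ≤ P := by
    intro w hw
    have h3 : hom b (free w) = 1 := h1 hw
    have h4 : base b w = 1 := by
      apply SemidirectProduct.inl_injective (φ := mulAutArrow (G := Equiv.Perm (Fin 2)))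
      rw [← hom_free, map_one]
      exact h3
    have h5 := base_apply b f rfl rfl w
    rw [h4] at h5
    exact (QuotientGroup.eq_one_iff w).1 h5.symm
  by_contra hne
  have h6 : ((powSub AB (2 * k)).comap free).index ≠ 0 := by
    rw [Subgroup.index_comap]
    exact fun h0 => hne (Subgroup.index_eq_zero_of_relIndex_eq_zero h0)
  have h7 := Subgroup.index_dvd_of_le h2
  rw [hk] at h7
  exact h6 (Nat.eq_zero_of_zero_dvd h7)

end Pool.Agent.PowQ
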