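import Pool.Agent.PowQ.Gen

/-!
# Infinite power quotients of the braid groups

The braid group on `m + 1` strands acts on (positions of three labelled strands) times a group `B`
of exponent `k`; the `L k`-th powers act trivially and the image is infinite when `B` is.
-/

set_option autoImplicit false

namespace Pool.Agent.PowQ

namespace InfB

/-- The adjacent transposition of the positions `i`, `i + 1`. -/
def sw (i z : ℕ) : ℕ := if z = i then i + 1 else if z = i + 1 then i else z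

/-- The type of the middle one of three labels: `0` if `z0` is in the middle, `1` if `z2` is,
`2` if `z1` is. -/
def J (z0 z1 z2 : ℕ) : Fin 3 :=
  if z0 < z1 then (if z0 < z2 then (if z1 < z2 then 2 else 1) else 0)
  else (if z0 < z2 then 0 else (if z1 < z2 then 1 else 2))

theorem J_sw (i z0 z1 z2 : ℕ) (h01 : z0 ≠ z1) (h02 : z0 ≠ z2) (h12 : z1 ≠ z2)
    (n01 : ¬ ((z0 = i ∨ z0 = i + 1) ∧ (z1 = i ∨ z1 = i + 1)))
    (n02 : ¬ ((z0 = i ∨ z0 = i + 1) ∧ (z2 = i ∨ z2 = i + 1)))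
    (n12 : ¬ ((z1 = i ∨ z1 = i + 1) ∧ (z2 = i ∨ z2 = i + 1))) :
    J (sw i z0) (sw i z1) (sw i z2) = J z0 z1 z2 := by
  have k : ∀ a b : ℕ, a ≠ b → ¬ ((a = i ∨ a = i + 1) ∧ (b = i ∨ b = i + 1)) →
      (sw i a < sw i b ↔ a < b) := by
    intro a b h1 h2
    unfold sw
    split_ifs <;> omega
  unfold J
  rw [if_congr (k z0 z1 h01 n01) rfl rfl]
  simp only [k z0 z2 h02 n02, k z1 z2 h12 n12]

theorem sw_comm (i j z : ℕ) (h : i + 2 ≤ j) : sw i (sw j z) = sw j (sw i z) := by
  unfold sw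
  split_ifs <;> omega

theorem sw_inj (i a b : ℕ) (h : a ≠ b) : sw i a ≠ sw i b := by
  unfold sw
  split_ifs <;> omega

variable {B : Type*} [Group B]

theorem comm_aux (κ : Fin 3 → Fin 3 → B) (K1 : ∀ x, κ x x = 1) (i j z0 z1 z2 : ℕ)
    (hij : i + 2 ≤ j ∨ j + 2 ≤ i) (h01 : z0 ≠ z1) (h02 : z0 ≠ z2) (h12 : z1 ≠ z2)
    (n01 : ¬ ((z0 = i ∨ z0 = i + 1) ∧ (z1 = i ∨ z1 = i + 1)))
    (n02 : ¬ ((z0 = i ∨ z0 = i + 1) ∧ (z2 = i ∨ z2 = i + 1)))
    (n12 : ¬ ((z1 = i ∨ z1 = i + 1) ∧ (z2 = i ∨ z2 = i + 1))) :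
    κ (J z0 z1 z2) (J (sw i z0) (sw i z1) (sw i z2)) *
      κ (J (sw i z0) (sw i z1) (sw i z2)) (J (sw j (sw i z0)) (sw j (sw i z1)) (sw j (sw i z2))) =
    κ (J z0 z1 z2) (J (sw j z0) (sw j z1) (sw j z2)) *
      κ (J (sw j z0) (sw j z1) (sw j z2)) (J (sw i (sw j z0)) (sw i (sw j z1)) (sw i (sw j z2))) := by
  have e : ∀ z, (sw j z = i ∨ sw j z = i + 1) ↔ (z = i ∨ z = i + 1) := by
    intro z
    unfold sw
    split_ifs <;> omega
  have c : ∀ z, sw i (sw j z) = sw j (sw i z) := by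
    intro z
    rcases hij with h | h
    · exact sw_comm i j z h
    · exact (sw_comm j i z h).symm
  have r1 := J_sw i z0 z1 z2 h01 h02 h12 n01 n02 n12
  have r2 := J_sw i (sw j z0) (sw j z1) (sw j z2) (sw_inj j _ _ h01) (sw_inj j _ _ h02)
    (sw_inj j _ _ h12) (by rw [e, e]; exact n01) (by rw [e, e]; exact n02) (by rw [e, e]; exact n12)
  rw [← c z0, ← c z1, ← c z2, r2, r1, K1, K1, one_mul, mul_one]

theorem comm_rel (κ : Fin 3 → Fin 3 → B) (K1 : ∀ x, κ x x = 1) (i j z0 z1 z2 : ℕ)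
    (hij : i + 2 ≤ j) (h01 : z0 ≠ z1) (h02 : z0 ≠ z2) (h12 : z1 ≠ z2) :
    κ (J z0 z1 z2) (J (sw i z0) (sw i z1) (sw i z2)) *
      κ (J (sw i z0) (sw i z1) (sw i z2)) (J (sw j (sw i z0)) (sw j (sw i z1)) (sw j (sw i z2))) =
    κ (J z0 z1 z2) (J (sw j z0) (sw j z1) (sw j z2)) *
      κ (J (sw j z0) (sw j z1) (sw j z2)) (J (sw i (sw j z0)) (sw i (sw j z1)) (sw i (sw j z2))) := by
  by_cases n01 : (z0 = i ∨ z0 = i + 1) ∧ (z1 = i ∨ z1 = i + 1)
  · exact (comm_aux κ K1 j i z0 z1 z2 (Or.inr hij) h01 h02 h12 (by omega) (by omega)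
      (by omega)).symm
  by_cases n02 : (z0 = i ∨ z0 = i + 1) ∧ (z2 = i ∨ z2 = i + 1)
  · exact (comm_aux κ K1 j i z0 z1 z2 (Or.inr hij) h01 h02 h12 (by omega) (by omega)
      (by omega)).symm
  by_cases n12 : (z1 = i ∨ z1 = i + 1) ∧ (z2 = i ∨ z2 = i + 1)
  · exact (comm_aux κ K1 j i z0 z1 z2 (Or.inr hij) h01 h02 h12 (by omega) (by omega)
      (by omega)).symm
  exact comm_aux κ K1 i j z0 z1 z2 (Or.inl hij) h01 h02 h12 n01 n02 n12


set_option linter.unusedSimpArgs false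

theorem sw_a (i : ℕ) : sw i i = i + 1 := by simp [sw]
theorem sw_b (i : ℕ) : sw i (i + 1) = i := by simp [sw]
theorem sw_c (i : ℕ) : sw i (i + 2) = i + 2 := by
  unfold sw
  split_ifs <;> omega
theorem sw_d (i : ℕ) : sw (i + 1) i = i := by
  unfold sw
  split_ifs <;> omega
theorem sw_g (i z : ℕ) (h : z < i ∨ i + 2 < z) : sw i z = z := by
  unfold sw
  split_ifs <;> omega
theorem sw_h (i z : ℕ) (h : z < i ∨ i + 2 < z) : sw (i + 1) z = z := by
  unfold sw
  split_ifs <;> omega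

theorem cls (i z : ℕ) : z = i ∨ z = i + 1 ∨ z = i + 2 ∨ z < i ∨ i + 2 < z := by omega

set_option maxHeartbeats 4000000 in
theorem braid_rel (κ : Fin 3 → Fin 3 → B) (K1 : ∀ x, κ x x = 1)
    (K2 : ∀ x y z, x ≠ y → y ≠ z → x ≠ z → κ x y * κ y z * κ z x = 1) (i z0 z1 z2 : ℕ)
    (h01 : z0 ≠ z1) (h02 : z0 ≠ z2) (h12 : z1 ≠ z2) :
    κ (J z0 z1 z2) (J (sw i z0) (sw i z1) (sw i z2)) *
      κ (J (sw i z0) (sw i z1) (sw i z2))
        (J (sw (i + 1) (sw i z0)) (sw (i + 1) (sw i z1)) (sw (i + 1) (sw i z2))) *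
      κ (J (sw (i + 1) (sw i z0)) (sw (i + 1) (sw i z1)) (sw (i + 1) (sw i z2)))
        (J (sw i (sw (i + 1) (sw i z0))) (sw i (sw (i + 1) (sw i z1)))
          (sw i (sw (i + 1) (sw i z2)))) =
    κ (J z0 z1 z2) (J (sw (i + 1) z0) (sw (i + 1) z1) (sw (i + 1) z2)) *
      κ (J (sw (i + 1) z0) (sw (i + 1) z1) (sw (i + 1) z2))
        (J (sw i (sw (i + 1) z0)) (sw i (sw (i + 1) z1)) (sw i (sw (i + 1) z2))) *
      κ (J (sw i (sw (i + 1) z0)) (sw i (sw (i + 1) z1)) (sw i (sw (i + 1) z2)))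
        (J (sw (i + 1) (sw i (sw (i + 1) z0))) (sw (i + 1) (sw i (sw (i + 1) z1)))
          (sw (i + 1) (sw i (sw (i + 1) z2)))) := by
  rcases cls i z0 with a | a | a | a | a <;>
  rcases cls i z1 with b | b | b | b | b <;>
  rcases cls i z2 with c | c | c | c | c <;>
  first
  | (exfalso; omega)
  | (subst_vars
     simp (disch := omega) only [sw_a, sw_b, sw_c, sw_d, sw_g, sw_h, J, if_pos,
       if_neg, K1, one_mul, mul_one]
     done)
  | (subst_vars
     simp (disch := omega) only [sw_a, sw_b, sw_c, sw_d, sw_g, sw_h, J, if_pos,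
       if_neg, K1, one_mul, mul_one]
     rw [K2 _ _ _ (by decide) (by decide) (by decide), K2 _ _ _ (by decide) (by decide) (by decide)])

/-- The three chosen elements of `B`. -/
def ee (b1 b2 : B) (j : Fin 3) : B := if j = 0 then 1 else if j = 1 then b1 else b2

/-- The cocycle on the triangle. -/
def kap (b1 b2 : B) (j l : Fin 3) : B := if l = j + 1 then ee b1 b2 j * (ee b1 b2 l)⁻¹ else 1

theorem kap_self (b1 b2 : B) (x : Fin 3) : kap b1 b2 x x = 1 := by
  unfold kap
  rw [if_neg]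
  revert x
  decide

theorem kap_cycle (b1 b2 : B) (x y z : Fin 3) (h1 : x ≠ y) (h2 : y ≠ z) (h3 : x ≠ z) :
    kap b1 b2 x y * kap b1 b2 y z * kap b1 b2 z x = 1 := by
  fin_cases x <;> fin_cases y <;> fin_cases z <;>
    first
    | exact absurd rfl h1
    | exact absurd rfl h2
    | exact absurd rfl h3
    | simp [kap, ee]

/-- Positions of the three labels. -/
abbrev X (m : ℕ) := Fin 3 ↪ Fin (m + 1)

/-- The type of a placement of the labels. -/
def JX {m : ℕ} (io : X m) : Fin 3 := J (io 0).val (io 1).val (io 2).val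

/-- The adjacent transposition. -/
def sp {m : ℕ} (i : Fin m) : Equiv.Perm (Fin (m + 1)) := Equiv.swap i.castSucc i.succ

theorem sp_val {m : ℕ} (i : Fin m) (z : Fin (m + 1)) : (sp i z).val = sw i.val z.val := by
  unfold sp sw
  rw [Equiv.swap_apply_def]
  simp only [Fin.ext_iff, Fin.val_castSucc, Fin.val_succ]
  split_ifs <;> simp

theorem sp_inv {m : ℕ} (i : Fin m) : (sp i)⁻¹ = sp i := by
  unfold sp
  exact Equiv.swap_inv _ _

theorem sp_smul {m : ℕ} (i : Fin m) (io : X m) (t : Fin 3) :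
    ((sp i • io) t).val = sw i.val (io t).val := by
  rw [Function.Embedding.smul_apply, Equiv.Perm.smul_def, sp_val]

/-- The group of pairs. -/
abbrev W (B : Type*) [Group B] (m : ℕ) := (X m → B) ⋊[mulAutArrow] Equiv.Perm (Fin (m + 1))

theorem maa {m : ℕ} (g : Equiv.Perm (Fin (m + 1))) (F : X m → B) (io : X m) :
    (mulAutArrow g F : X m → B) io = F (g⁻¹ • io) := rfl

/-- The image of the generator. -/
def sg (b1 b2 : B) {m : ℕ} (i : Fin m) : W B m :=
  ⟨fun io => kap b1 b2 (JX io) (JX (sp i • io)), sp i⟩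

theorem vne {m : ℕ} (io : X m) {a b : Fin 3} (h : a ≠ b) : (io a).val ≠ (io b).val := by
  intro h1
  exact h (io.injective (Fin.ext h1))

theorem sg_comm (b1 b2 : B) {m : ℕ} (i j : Fin m) (h : i.val + 2 ≤ j.val) :
    sg b1 b2 i * sg b1 b2 j = sg b1 b2 j * sg b1 b2 i := by
  apply SemidirectProduct.ext
  · funext io
    simp only [SemidirectProduct.mul_left, sg, Pi.mul_apply, maa, sp_inv]
    have := comm_rel (kap b1 b2) (kap_self b1 b2) i.val j.val (io 0).val (io 1).val (io 2).val h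
      (vne io (by decide)) (vne io (by decide)) (vne io (by decide))
    simpa only [JX, sp_smul] using this
  · simp only [SemidirectProduct.mul_right, sg]
    ext z
    rw [Equiv.Perm.mul_apply, Equiv.Perm.mul_apply, sp_val, sp_val, sp_val, sp_val]
    exact sw_comm _ _ _ h

theorem sg_braid (b1 b2 : B) {m : ℕ} (i j : Fin m) (h : j.val = i.val + 1) :
    sg b1 b2 i * sg b1 b2 j * sg b1 b2 i = sg b1 b2 j * sg b1 b2 i * sg b1 b2 j := by
  apply SemidirectProduct.ext
  · funext io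
    simp only [SemidirectProduct.mul_left, SemidirectProduct.mul_right, sg, Pi.mul_apply,
      maa, mul_inv_rev, sp_inv, mul_smul]
    have := braid_rel (kap b1 b2) (kap_self b1 b2) (kap_cycle b1 b2) i.val (io 0).val (io 1).val
      (io 2).val (vne io (by decide)) (vne io (by decide)) (vne io (by decide))
    simpa only [JX, sp_smul, h] using this
  · simp only [SemidirectProduct.mul_right, sg]
    ext z
    simp only [Equiv.Perm.mul_apply, sp_val, h]
    unfold sw
    split_ifs <;> omega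

/-- The homomorphism of the braid group. -/
def hom (b1 b2 : B) (m : ℕ) : Braid m →* W B m :=
  PresentedGroup.toGroup (f := fun i : Fin m => sg b1 b2 i) (by
    rintro r (⟨i, j, h, rfl⟩ | ⟨i, j, h, rfl⟩)
    · simp only [map_mul, map_inv, FreeGroup.lift_apply_of]
      rw [sg_comm b1 b2 i j h, mul_inv_cancel]
    · simp only [map_mul, map_inv, FreeGroup.lift_apply_of]
      rw [sg_braid b1 b2 i j h, mul_inv_cancel])

theorem hom_of (b1 b2 : B) (m : ℕ) (i : Fin m) :
    hom b1 b2 m (PresentedGroup.of i) = sg b1 b2 i := by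
  unfold hom
  exact PresentedGroup.toGroup.of _

theorem perm_pow (m L : ℕ) (hL : ∀ d, 1 ≤ d → d ≤ m + 1 → d ∣ L)
    (π : Equiv.Perm (Fin (m + 1))) : π ^ L = 1 := by
  ext z
  have h1 : z ∈ Function.periodicPts π := π.injective.mem_periodicPts z
  have h2 := Function.minimalPeriod_pos_of_mem_periodicPts h1
  have h3 : Function.minimalPeriod π z ≤ m + 1 := by
    simpa using (Function.minimalPeriod_le_card (f := π) (x := z))
  have h4 := Function.isPeriodicPt_iff_minimalPeriod_dvd.2 (hL _ h2 h3)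
  have h5 : (π ^ L) z = z := by
    rw [← Equiv.Perm.iterate_eq_pow]
    exact h4
  rw [h5]
  rfl

theorem W_pow (m L k : ℕ) (hL : ∀ d, 1 ≤ d → d ≤ m + 1 → d ∣ L) (hB : ∀ b : B, b ^ k = 1)
    (w : W B m) : w ^ (L * k) = 1 := by
  have h1 : (w ^ L).right = 1 := by
    have : SemidirectProduct.rightHom (w ^ L) = 1 := by
      rw [map_pow]
      exact perm_pow m L hL _
    exact this
  have h2 : w ^ L = SemidirectProduct.inl (w ^ L).left := by
    apply SemidirectProduct.ext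
    · rfl
    · exact h1
  rw [pow_mul, h2, ← map_pow]
  have h3 : (w ^ L).left ^ k = 1 := by
    funext io
    rw [Pi.pow_apply, hB]
    rfl
  rw [h3, map_one]

/-- The square of a generator. -/
def sq (b1 b2 : B) {m : ℕ} (i : Fin m) : X m → B :=
  fun io => kap b1 b2 (JX io) (JX (sp i • io)) * kap b1 b2 (JX (sp i • io)) (JX io)

theorem sg_sq (b1 b2 : B) {m : ℕ} (i : Fin m) :
    sg b1 b2 i * sg b1 b2 i = SemidirectProduct.inl (sq b1 b2 i) := by
  have e : sp i * sp i = 1 := Equiv.swap_mul_self _ _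
  apply SemidirectProduct.ext
  · funext io
    simp only [SemidirectProduct.mul_left, sg, Pi.mul_apply, maa, sp_inv,
      SemidirectProduct.left_inl, sq]
    rw [← mul_smul, e, one_smul]
  · exact e

/-- The labels at the positions `0, 1, 2`. -/
def io0 (m : ℕ) (hm : 2 ≤ m) : X m :=
  ⟨fun t => ⟨t.val, by omega⟩, fun a b h => by
    have := congrArg Fin.val h
    exact Fin.ext this⟩

theorem sq_zero (b1 b2 : B) (m : ℕ) (hm : 2 ≤ m) :
    sq b1 b2 (⟨0, by omega⟩ : Fin m) (io0 m hm) = b2 := by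
  have e1 : JX (io0 m hm) = 2 := rfl
  have e2 : JX (sp (⟨0, by omega⟩ : Fin m) • io0 m hm) = 0 := by
    simp only [JX, sp_smul]
    rfl
  rw [sq, e1, e2]
  simp [kap, ee]

theorem sq_one (b1 b2 : B) (m : ℕ) (hm : 2 ≤ m) :
    sq b1 b2 (⟨1, by omega⟩ : Fin m) (io0 m hm) = b1 * b2⁻¹ := by
  have e1 : JX (io0 m hm) = 2 := rfl
  have e2 : JX (sp (⟨1, by omega⟩ : Fin m) • io0 m hm) = 1 := by
    simp only [JX, sp_smul]
    rfl
  rw [sq, e1, e2]
  simp [kap, ee]

/-- The free subgroup. -/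
def free (m : ℕ) (hm : 2 ≤ m) : FreeGroup (Fin 2) →* Braid m :=
  FreeGroup.lift ![
    PresentedGroup.of (⟨1, by omega⟩ : Fin m) * PresentedGroup.of (⟨1, by omega⟩ : Fin m) *
      (PresentedGroup.of (⟨0, by omega⟩ : Fin m) * PresentedGroup.of (⟨0, by omega⟩ : Fin m)),
    PresentedGroup.of (⟨0, by omega⟩ : Fin m) * PresentedGroup.of (⟨0, by omega⟩ : Fin m)]

/-- Its image in the base of `W`. -/
def base (b1 b2 : B) (m : ℕ) (hm : 2 ≤ m) : FreeGroup (Fin 2) →* (X m → B) :=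
  FreeGroup.lift ![sq b1 b2 (⟨1, by omega⟩ : Fin m) * sq b1 b2 (⟨0, by omega⟩ : Fin m),
    sq b1 b2 (⟨0, by omega⟩ : Fin m)]

theorem hom_free (b1 b2 : B) (m : ℕ) (hm : 2 ≤ m) (w : FreeGroup (Fin 2)) :
    hom b1 b2 m (free m hm w) = SemidirectProduct.inl (base b1 b2 m hm w) := by
  have h : (hom b1 b2 m).comp (free m hm) = (SemidirectProduct.inl).comp (base b1 b2 m hm) := by
    apply FreeGroup.ext_hom
    intro a
    fin_cases a
    · simp [free, base, hom_of, sg_sq]
    · simp [free, base, hom_of, sg_sq]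
  exact DFunLike.congr_fun h w

theorem base_apply (b1 b2 : B) (m : ℕ) (hm : 2 ≤ m) (f : FreeGroup (Fin 2) →* B)
    (h1 : f (FreeGroup.of 0) = b1) (h2 : f (FreeGroup.of 1) = b2) (w : FreeGroup (Fin 2)) :
    base b1 b2 m hm w (io0 m hm) = f w := by
  have h : (Pi.evalMonoidHom (fun _ : X m => B) (io0 m hm)).comp (base b1 b2 m hm) = f := by
    apply FreeGroup.ext_hom
    intro a
    fin_cases a
    · simp [base, sq_one, sq_zero, h1]
    · simp [base, sq_zero, h2]
  exact DFunLike.congr_fun h w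

end InfB

open InfB in
/-- The subgroup generated by the `L k`-th powers has infinite index in the braid group when the
free Burnside group of rank two and exponent `k` is infinite. -/
theorem infB (m : ℕ) (hm : 2 ≤ m) (L k : ℕ) (hL : ∀ d, 1 ≤ d → d ≤ m + 1 → d ∣ L)
    (hk : (powSub (FreeGroup (Fin 2)) k).index = 0) : (powSub (Braid m) (L * k)).index = 0 := by
  set P := powSub (FreeGroup (Fin 2)) k with hP
  let f : FreeGroup (Fin 2) →* FreeGroup (Fin 2) ⧸ P := QuotientGroup.mk' P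
  let F := hom (f (FreeGroup.of 0)) (f (FreeGroup.of 1)) m
  have h1 : powSub (Braid m) (L * k) ≤ F.ker :=
    powSub_le_ker F (L * k) fun x => W_pow m L k hL (pow_quot k) (F x)
  have h2 : (powSub (Braid m) (L * k)).comap (free m hm) ≤ P := by
    intro w hw
    have h3 : F (free m hm w) = 1 := h1 hw
    have h4 : base (f (FreeGroup.of 0)) (f (FreeGroup.of 1)) m hm w = 1 := by
      apply SemidirectProduct.inl_injective (φ := mulAutArrow (G := Equiv.Perm (Fin (m + 1))))
      rw [← hom_free, map_one]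
      exact h3
    have h5 := base_apply (f (FreeGroup.of 0)) (f (FreeGroup.of 1)) m hm f rfl rfl w
    rw [h4] at h5
    exact (QuotientGroup.eq_one_iff w).1 h5.symm
  by_contra hne
  have h6 : ((powSub (Braid m) (L * k)).comap (free m hm)).index ≠ 0 := by
    rw [Subgroup.index_comap]
    exact fun h0 => hne (Subgroup.index_eq_zero_of_relIndex_eq_zero h0)
  have h7 := Subgroup.index_dvd_of_le h2
  rw [hk] at h7
  exact h6 (Nat.eq_zero_of_zero_dvd h7)

end Pool.Agent.PowQ
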