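import Pool.Agent.PowQ.InfS2

/-!
# The mapping class groups of the punctured spheres: power quotients
-/

set_option autoImplicit false

namespace Pool.Agent.PowQ

namespace InfS

variable {m : ℕ}

section

variable {B : Type*} [Group B] (e : Fin 3 → B) (ε : Fin 3)

/-- The action of the word `i, ..., m - 1`: one strand moves from the right end to position `i`. -/
theorem chain_aux (hε : ε ≠ 0) (k : ℕ) (hk : k ≤ m) : ∃ π : Equiv.Perm (Fin (m + 1)),
    (∀ x, (π x).val = if x.val < m - k then x.val else if x.val = m then m - k else x.val + 1) ∧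
    (∀ p b, ((List.ofFn fun i : Fin m => P e ε i).drop (m - k)).prod (p, b) = (act π p,
      b * match lab p m with
        | some w => acc e ε (D (L p) w) (jj p) (jj (act π p))
        | none => 1)) ∧
    ∀ p, lab p m = none → jj (act π p) = jj p := by
  induction k with
  | zero =>
    refine ⟨1, ?_, ?_, ?_⟩
    · intro x
      have := x.isLt
      simp only [Equiv.Perm.one_apply]
      split_ifs <;> omega
    · intro p b
      rw [List.drop_of_length_le (by simp)]
      rw [List.prod_nil, Equiv.Perm.one_apply, act_one]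
      cases lab p m with
      | none => simp
      | some w => simp [acc_self]
    · intro p _
      rw [act_one]
  | succ k ih =>
    obtain ⟨π, h1, h2, h3⟩ := ih (by omega)
    have hi : m - (k + 1) < m := by omega
    set i : Fin m := ⟨m - (k + 1), hi⟩ with hidef
    have hiv : i.val = m - (k + 1) := rfl
    have hik : m - k = i.val + 1 := by omega
    have hlen : m - (k + 1) < (List.ofFn fun i : Fin m => P e ε i).length := by
      rw [List.length_ofFn]; exact hi
    have hdrop : (List.ofFn fun i : Fin m => P e ε i).drop (m - (k + 1)) =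
        P e ε i :: (List.ofFn fun i : Fin m => P e ε i).drop (m - k) := by
      rw [List.drop_eq_getElem_cons hlen, List.getElem_ofFn]
      congr 2
      omega
    have hval : ∀ x, ((sp i * π) x).val =
        if x.val < m - (k + 1) then x.val else if x.val = m then m - (k + 1) else x.val + 1 := by
      intro x
      have hx := x.isLt
      rw [Equiv.Perm.mul_apply, sp_val, h1]
      unfold sv
      split_ifs <;> omega
    have hnone : ∀ p, lab p m = none → jj (act (sp i * π) p) = jj p := by
      intro p hp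
      rw [act_mul, jj_step]
      have hl : lab (act π p) (i.val + 1) = none := by
        rw [lab_none] at hp ⊢
        intro a ha
        rw [act_apply, h1] at ha
        have h4 := hp a
        have h5 := (p a).isLt
        split_ifs at ha <;> omega
      rw [hl]
      have hs : ∀ o j, step o none j = j := by
        intro o j
        cases o <;> rfl
      rw [hs, h3 p hp]
    refine ⟨sp i * π, hval, ?_, hnone⟩
    intro p b
    rw [hdrop, List.prod_cons, Equiv.Perm.mul_apply, h2, P_apply, act_mul]
    refine Prod.ext rfl ?_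
    simp only
    cases hp : lab p m with
    | none =>
      have h4 : jj (act (sp i) (act π p)) = jj (act π p) := by
        rw [← act_mul, hnone p hp, h3 p hp]
      rw [h4, kap_self e hε]
      simp
    | some w =>
      simp only
      have hw := lab_some.1 hp
      have hqw : (act π p w).val = i.val + 1 := by
        rw [act_apply, h1, hw]
        split_ifs <;> omega
      have hD : D (L (act π p)) w = D (L p) w := by
        apply D_congr
        intro a b ha hb
        have h5 : (p a).val ≠ m := fun h => ha (p.injective (Fin.ext (h.trans hw.symm)))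
        have h6 : (p b).val ≠ m := fun h => hb (p.injective (Fin.ext (h.trans hw.symm)))
        unfold L
        refine decide_eq_decide.2 ?_
        rw [Fin.lt_def, Fin.lt_def, act_apply, act_apply, h1, h1]
        split_ifs <;> omega
      rw [mul_assoc]
      congr 1
      cases hl : lab (act π p) i.val with
      | none =>
        have h4 : jj (act (sp i) (act π p)) = jj (act π p) := by
          rw [jj_step, hl]
          rfl
        rw [h4, kap_self e hε, mul_one]
      | some l =>
        have hl' := lab_some.1 hl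
        have h4 : jj (act (sp i) (act π p)) = jj (act π p) + D (L p) w := by
          have h5 := (flip_spec (lin_L (act π p)) (ne_of_at hqw hl') (nb_L i.val _ hqw hl')).2.2
            (by
              unfold L
              rw [decide_eq_true_eq, Fin.lt_def]
              omega)
          unfold jj
          rw [L_act i _ hqw hl', h5, hD]
        rw [h4]
        exact acc_step e ε _ _ _

/-- The action of the chain word is the rotation of the positions. -/
theorem chain_full (hε : ε ≠ 0) : ∃ π : Equiv.Perm (Fin (m + 1)),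
    (∀ x, (π x).val = if x.val = m then 0 else x.val + 1) ∧
    ∀ p b, (List.ofFn fun i : Fin m => P e ε i).prod (p, b) = (act π p, b) := by
  obtain ⟨π, h1, h2, h3⟩ := chain_aux e ε hε m le_rfl
  have h1' : ∀ x, (π x).val = if x.val = m then 0 else x.val + 1 := by
    intro x
    rw [h1]
    split_ifs <;> omega
  refine ⟨π, h1', fun p b => ?_⟩
  have h4 := h2 p b
  rw [Nat.sub_self, List.drop_zero] at h4
  rw [h4]
  cases hp : lab p m with
  | none => simp
  | some w =>
    have hw := lab_some.1 hp
    have h5 : L (act π p) = rot w (L p) := by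
      funext a b
      have hinj : ∀ x, (p x).val = m ↔ x = w := fun x =>
        ⟨fun h => p.injective (Fin.ext (h.trans hw.symm)), fun h => h ▸ hw⟩
      have ha := hinj a
      have hb := hinj b
      have h6 := (p a).isLt
      have h7 := (p b).isLt
      unfold rot
      by_cases h8 : a = w
      · by_cases h9 : b = w
        · subst h8
          subst h9
          simp [L]
        · have e1 : (a == w) = true := by simpa using h8
          have e2 : (b == w) = false := by simpa using h9
          rw [e1, e2]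
          unfold L
          rw [Bool.xor_false, cond_true, ← decide_not]
          refine decide_eq_decide.2 ?_
          rw [Fin.lt_def, Fin.lt_def, act_apply, act_apply, h1', h1', if_pos (ha.2 h8),
            if_neg (fun h => h9 (hb.1 h))]
          have := ha.2 h8
          omega
      · by_cases h9 : b = w
        · have e1 : (a == w) = false := by simpa using h8
          have e2 : (b == w) = true := by simpa using h9
          rw [e1, e2]
          unfold L
          rw [Bool.false_xor, cond_true, ← decide_not]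
          refine decide_eq_decide.2 ?_
          rw [Fin.lt_def, Fin.lt_def, act_apply, act_apply, h1', h1', if_pos (hb.2 h9),
            if_neg (fun h => h8 (ha.1 h))]
          have := hb.2 h9
          have h10 : (p a).val ≠ m := fun h => h8 (ha.1 h)
          omega
        · have e1 : (a == w) = false := by simpa using h8
          have e2 : (b == w) = false := by simpa using h9
          rw [e1, e2]
          unfold L
          rw [Bool.xor_false, cond_false]
          refine decide_eq_decide.2 ?_
          rw [Fin.lt_def, Fin.lt_def, act_apply, act_apply, h1', h1',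
            if_neg (fun h => h8 (ha.1 h)), if_neg (fun h => h9 (hb.1 h))]
          omega
    have h6 : jj (act π p) = jj p := by
      unfold jj
      rw [h5, rot_spec (lin_L p)]
    simp only
    rw [h6, acc_self, mul_one]

theorem rot_pow {π : Equiv.Perm (Fin (m + 1))}
    (h : ∀ x, (π x).val = if x.val = m then 0 else x.val + 1) : π ^ (m + 1) = 1 := by
  have h1 : ∀ k x, ((π ^ k) x).val = (x.val + k) % (m + 1) := by
    intro k
    induction k with
    | zero =>
      intro x
      rw [pow_zero, Equiv.Perm.one_apply, add_zero, Nat.mod_eq_of_lt x.isLt]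
    | succ k ih =>
      intro x
      rw [pow_succ', Equiv.Perm.mul_apply, h, ih]
      have h2 : (x.val + k) % (m + 1) < m + 1 := Nat.mod_lt _ (by omega)
      have h3 : (x.val + (k + 1)) % (m + 1) = ((x.val + k) % (m + 1) + 1) % (m + 1) := by
        rw [Nat.mod_add_mod]
        rfl
      rw [h3]
      split_ifs with h4
      · rw [h4, Nat.mod_self]
      · exact (Nat.mod_eq_of_lt (by omega)).symm
  refine Equiv.ext fun x => Fin.ext ?_
  rw [h1, Nat.add_mod_right, Nat.mod_eq_of_lt x.isLt]
  exact rfl

theorem lift_chain : FreeGroup.lift (fun i : Fin m => P e 1 i) (chainWord m) =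
    (List.ofFn fun i : Fin m => P e 1 i).prod := by
  rw [chainWord, map_list_prod, List.map_ofFn]
  congr 2

theorem lift_chainRev : FreeGroup.lift (fun i : Fin m => P e 1 i) (chainWordRev m) =
    ((List.ofFn fun i : Fin m => P e 2 i).prod)⁻¹ := by
  rw [chainWordRev, map_list_prod, List.prod_inv_reverse, List.map_reverse, List.map_ofFn,
    List.map_ofFn]
  congr 3
  funext i
  simp [gen, P_inv]

theorem lift_rel (r : FreeGroup (Fin m)) (hr : r ∈ sphRel m) :
    FreeGroup.lift (fun i : Fin m => P e 1 i) r = 1 := by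
  have h1 : (1 : Fin 3) ≠ 0 := by decide
  have h2 : (2 : Fin 3) ≠ 0 := by decide
  rcases hr with (⟨i, j, hij, rfl⟩ | ⟨i, j, hij, rfl⟩) | rfl | rfl
  · rw [map_mul, map_inv, mul_inv_eq_one]
    simpa [gen] using P_comm e 1 h1 hij
  · rw [map_mul, map_inv, mul_inv_eq_one]
    simpa [gen] using P_braid e 1 h1 hij
  · obtain ⟨π, h3, h4⟩ := chain_full (m := m) e 1 h1
    rw [map_pow, lift_chain]
    have h5 : ∀ k p b, ((List.ofFn fun i : Fin m => P e 1 i).prod ^ k) (p, b) =
        (act (π ^ k) p, b) := by
      intro k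
      induction k with
      | zero => intro p b; simp
      | succ k ih =>
        intro p b
        rw [pow_succ', Equiv.Perm.mul_apply, ih, h4, pow_succ', act_mul]
    refine Equiv.ext fun x => ?_
    obtain ⟨p, b⟩ := x
    rw [h5, rot_pow h3, act_one]
    rfl
  · obtain ⟨π, h3, h4⟩ := chain_full (m := m) e 1 h1
    obtain ⟨ρ, h5, h6⟩ := chain_full (m := m) e 2 h2
    rw [map_mul, lift_chain, lift_chainRev, mul_inv_eq_one]
    have h7 : π = ρ := Equiv.ext fun x => Fin.ext ((h3 x).trans (h5 x).symm)
    refine Equiv.ext fun x => ?_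
    obtain ⟨p, b⟩ := x
    rw [h4, h6, h7]

end

section

variable (k : ℕ)

/-- The free Burnside group of rank two. -/
abbrev Bq := FreeGroup (Fin 2) ⧸ powSub (FreeGroup (Fin 2)) k

theorem Bq_pow (b : Bq k) : b ^ k = 1 := pow_quot k b

/-- The generators. -/
def eq (i : Fin 2) : Bq k := QuotientGroup.mk (FreeGroup.of i)

theorem Bq_top (H : Subgroup (Bq k)) (h : ∀ i, eq k i ∈ H) (b : Bq k) : b ∈ H := by
  obtain ⟨x, rfl⟩ := QuotientGroup.mk_surjective b
  have : (⊤ : Subgroup (FreeGroup (Fin 2))) ≤ H.comap (QuotientGroup.mk' _) := by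
    rw [← FreeGroup.closure_range_of, Subgroup.closure_le]
    rintro _ ⟨i, rfl⟩
    exact h i
  exact this (Subgroup.mem_top x)

/-- The three values. -/
def ev : Fin 3 → Bq k := ![1, eq k 0, eq k 1]

/-- The representation. -/
noncomputable def F (m : ℕ) : Sph m →* Equiv.Perm (X m × Bq k) :=
  PresentedGroup.toGroup (f := fun i : Fin m => P (ev k) 1 i) (lift_rel (ev k))

theorem F_of (i : Fin m) : F k m (PresentedGroup.of i) = P (ev k) 1 i :=
  PresentedGroup.toGroup.of _

/-- The skew form of a permutation. -/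
def Skew (π : Equiv.Perm (Fin (m + 1))) (γ : X m → Bq k) (f : Equiv.Perm (X m × Bq k)) : Prop :=
  ∀ p b, f (p, b) = (act π p, b * γ p)

theorem Skew.mul {k : ℕ} {π ρ : Equiv.Perm (Fin (m + 1))} {γ δ : X m → Bq k}
    {f g : Equiv.Perm (X m × Bq k)} (hf : Skew k π γ f) (hg : Skew k ρ δ g) :
    Skew k (π * ρ) (fun p => δ p * γ (act ρ p)) (f * g) := by
  intro p b
  rw [Equiv.Perm.mul_apply, hg, hf, act_mul, mul_assoc]

theorem Skew.inv {k : ℕ} {π : Equiv.Perm (Fin (m + 1))} {γ : X m → Bq k}
    {f : Equiv.Perm (X m × Bq k)} (hf : Skew k π γ f) :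
    Skew k π⁻¹ (fun p => (γ (act π⁻¹ p))⁻¹) f⁻¹ := by
  intro p b
  rw [Equiv.Perm.inv_eq_iff_eq, hf, ← act_mul]
  simp

theorem Skew.one : Skew k (1 : Equiv.Perm (Fin (m + 1))) (fun _ => 1) 1 := by
  intro p b
  simp

/-- The subgroup of skew permutations. -/
def skewSub (m : ℕ) : Subgroup (Equiv.Perm (X m × Bq k)) where
  carrier := {f | ∃ π γ, Skew k π γ f}
  mul_mem' := by
    rintro f g ⟨π, γ, hf⟩ ⟨ρ, δ, hg⟩
    exact ⟨_, _, hf.mul hg⟩
  one_mem' := ⟨_, _, Skew.one k⟩
  inv_mem' := by
    rintro f ⟨π, γ, hf⟩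
    exact ⟨_, _, hf.inv⟩

theorem F_skew (g : Sph m) : ∃ π γ, Skew k π γ (F k m g) := by
  have : (⊤ : Subgroup (Sph m)) ≤ (skewSub k m).comap (F k m) := by
    rw [← PresentedGroup.closure_range_of, Subgroup.closure_le]
    rintro _ ⟨i, rfl⟩
    refine ⟨sp i, fun p => kap (ev k) 1 (jj p) (jj (act (sp i) p)), fun p b => ?_⟩
    rw [F_of, P_apply]
  exact this (Subgroup.mem_top g)

theorem Skew.pow {k : ℕ} {π : Equiv.Perm (Fin (m + 1))} {γ : X m → Bq k}
    {f : Equiv.Perm (X m × Bq k)} (hf : Skew k π γ f) (n : ℕ) :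
    ∃ δ, Skew k (π ^ n) δ (f ^ n) := by
  induction n with
  | zero => exact ⟨_, by simpa using Skew.one k⟩
  | succ n ih =>
    obtain ⟨δ, hδ⟩ := ih
    rw [pow_succ, pow_succ]
    exact ⟨_, hδ.mul hf⟩

theorem perm_pow (l : ℕ) (hL : ∀ d, 1 ≤ d → d ≤ m + 1 → d ∣ l)
    (π : Equiv.Perm (Fin (m + 1))) : π ^ l = 1 := by
  rw [← orderOf_dvd_iff_pow_eq_one, ← Equiv.Perm.lcm_cycleType, Multiset.lcm_dvd]
  intro n hn
  have h1 := Multiset.le_sum_of_mem hn
  rw [Equiv.Perm.sum_cycleType] at h1
  have h2 := Finset.card_le_univ π.support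
  rw [Fintype.card_fin] at h2
  have h3 := Equiv.Perm.two_le_of_mem_cycleType hn
  exact hL n (by omega) (h1.trans h2)

theorem F_pow (l : ℕ) (hL : ∀ d, 1 ≤ d → d ≤ m + 1 → d ∣ l) (g : Sph m) :
    F k m (g ^ (l * k)) = 1 := by
  obtain ⟨π, γ, hg⟩ := F_skew k g
  obtain ⟨δ, hδ⟩ := hg.pow l
  rw [perm_pow l hL] at hδ
  rw [map_pow, pow_mul]
  have h : ∀ n : ℕ, ∀ p b, ((F k m g ^ l) ^ n) (p, b) = (p, b * δ p ^ n) := by
    intro n
    induction n with
    | zero => intro p b; simp
    | succ n ih =>
      intro p b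
      rw [pow_succ, Equiv.Perm.mul_apply, hδ, act_one, ih, mul_assoc, ← pow_succ']
  refine Equiv.ext fun x => ?_
  obtain ⟨p, b⟩ := x
  rw [h, Bq_pow, mul_one]
  rfl

/-- The base position. -/
def p0 (hm : 3 ≤ m) : X m := ⟨Fin.castLE (by omega), Fin.castLE_injective _⟩

theorem p0_val (hm : 3 ≤ m) (a : Fin 4) : (p0 hm a).val = a.val := rfl

theorem L_p0 (hm : 3 ≤ m) : L (p0 hm) = fun a b => decide (a < b) := by
  funext a b
  unfold L
  refine decide_eq_decide.2 ?_
  rw [Fin.lt_def, Fin.lt_def, p0_val, p0_val]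

/-- The translations of the fibre over the base position. -/
def transl (hm : 3 ≤ m) : Subgroup (Bq k) where
  carrier := {c | ∃ g : Sph m, ∀ b, F k m g (p0 hm, b) = (p0 hm, b * c)}
  mul_mem' := by
    rintro c d ⟨g, hg⟩ ⟨h, hh⟩
    refine ⟨h * g, fun b => ?_⟩
    rw [map_mul, Equiv.Perm.mul_apply, hg, hh, mul_assoc]
  one_mem' := ⟨1, fun b => by simp⟩
  inv_mem' := by
    rintro c ⟨g, hg⟩
    refine ⟨g⁻¹, fun b => ?_⟩
    rw [map_inv, Equiv.Perm.inv_eq_iff_eq, hg]
    simp

theorem sq0 (hm : 3 ≤ m) (b : Bq k) :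
    F k m (PresentedGroup.of ⟨0, by omega⟩ * PresentedGroup.of ⟨0, by omega⟩) (p0 hm, b) =
    (p0 hm, b * eq k 1) := by
  rw [map_mul, Equiv.Perm.mul_apply, F_of, P_apply, P_apply, act_sp_sp]
  have h1 : jj (p0 hm) = 2 := by
    rw [jj, L_p0]
    decide
  have h2 : jj (act (sp ⟨0, by omega⟩) (p0 hm)) = 0 := by
    rw [jj, L_act (w := 1) (l := 0) _ _ rfl rfl, L_p0]
    decide
  rw [h1, h2]
  have e1 : (0 : Fin 3) = 2 + 1 := by decide
  have e2 : ¬ (2 : Fin 3) = 0 + 1 := by decide
  rw [kap, kap, if_pos e1, if_neg e2]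
  simp [ev]

theorem sq1 (hm : 3 ≤ m) (b : Bq k) :
    F k m (PresentedGroup.of ⟨1, by omega⟩ * PresentedGroup.of ⟨1, by omega⟩) (p0 hm, b) =
    (p0 hm, b * (eq k 0 * (eq k 1)⁻¹)) := by
  rw [map_mul, Equiv.Perm.mul_apply, F_of, P_apply, P_apply, act_sp_sp]
  have h1 : jj (p0 hm) = 2 := by
    rw [jj, L_p0]
    decide
  have h2 : jj (act (sp ⟨1, by omega⟩) (p0 hm)) = 1 := by
    rw [jj, L_act (w := 2) (l := 1) _ _ rfl rfl, L_p0]
    decide
  rw [h1, h2]
  have e1 : ¬ (1 : Fin 3) = 2 + 1 := by decide
  have e2 : (2 : Fin 3) = 1 + 1 := by decide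
  rw [kap, kap, if_neg e1, if_pos e2]
  simp [ev]

theorem transl_top (hm : 3 ≤ m) (c : Bq k) : c ∈ transl k hm := by
  have h1 : eq k 1 ∈ transl k hm := ⟨_, sq0 k hm⟩
  have h2 : eq k 0 * (eq k 1)⁻¹ ∈ transl k hm := ⟨_, sq1 k hm⟩
  have h0 : eq k 0 ∈ transl k hm := by simpa using Subgroup.mul_mem _ h2 h1
  refine Bq_top k _ (fun i => ?_) c
  fin_cases i
  · exact h0
  · exact h1

end

end InfS

open InfS in
/-- If the free Burnside group of exponent `k` is infinite then the quotient of the mapping class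
group of the sphere with `m + 1` punctures by the `L k`-th powers is infinite. -/
theorem infS (m : ℕ) (hm : 3 ≤ m) (L k : ℕ) (hL : ∀ d, 1 ≤ d → d ≤ m + 1 → d ∣ L)
    (hk : (powSub (FreeGroup (Fin 2)) k).index = 0) : (powSub (Sph m) (L * k)).index = 0 := by
  have hinf : Infinite (Bq k) := by
    by_contra h
    rw [not_infinite_iff_finite] at h
    exact (Subgroup.index_ne_zero_of_finite (H := powSub (FreeGroup (Fin 2)) k)) hk
  have hle : powSub (Sph m) (L * k) ≤ (F k m).ker := by
    unfold powSub
    rw [Subgroup.closure_le]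
    rintro _ ⟨g, rfl⟩
    exact F_pow k L hL g
  have hr : Infinite (F k m).range := by
    refine Infinite.of_surjective (fun σ : (F k m).range => (σ.1 (p0 hm, 1)).2) fun c => ?_
    obtain ⟨g, hg⟩ := transl_top k hm c
    exact ⟨⟨F k m g, g, rfl⟩, by simp [hg]⟩
  have h0 : (F k m).ker.index = 0 := by
    rw [Subgroup.index_ker]
    exact Nat.card_eq_zero_of_infinite
  have := Subgroup.index_dvd_of_le hle
  rw [h0] at this
  exact Nat.eq_zero_of_zero_dvd this

theorem chainWord_cyc {m : ℕ} {Q : Type*} [Group Q] (f : FreeGroup (Fin m) →* Q) (t : Q)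
    (h : ∀ i, f (gen i) = t) : f (chainWord m) = t ^ m := by
  rw [chainWord, map_list_prod, List.map_ofFn]
  have h1 : (f ∘ fun i : Fin m => gen i) = fun _ => t := funext h
  rw [h1]
  simp

theorem chainWordRev_cyc {m : ℕ} {Q : Type*} [Group Q] (f : FreeGroup (Fin m) →* Q) (t : Q)
    (h : ∀ i, f (gen i) = t) : f (chainWordRev m) = t ^ m := by
  rw [chainWordRev, map_list_prod, List.map_reverse, List.map_ofFn]
  have h1 : (f ∘ fun i : Fin m => gen i) = fun _ => t := funext h
  rw [h1]
  simp

theorem gcd_aux (m : ℕ) : Nat.gcd (m * (m + 1)) (m + m) = m * Nat.gcd 2 (m + 1) := by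
  rw [← two_mul, mul_comm 2 m, Nat.gcd_mul_left, Nat.gcd_comm]

theorem sph_cyc {m d : ℕ} (hd : d ∣ m * Nat.gcd 2 (m + 1)) : ∀ r ∈ sphRel m,
    FreeGroup.lift (fun _ : Fin m => Multiplicative.ofAdd (1 : ZMod d)) r = 1 := by
  have h1 : d ∣ m * (m + 1) := hd.trans ((gcd_aux m) ▸ Nat.gcd_dvd_left _ _)
  have h2 : d ∣ m + m := hd.trans ((gcd_aux m) ▸ Nat.gcd_dvd_right _ _)
  rintro r (h | rfl | rfl)
  · exact braid_cyc r h
  · rw [map_pow, chainWord_cyc _ (Multiplicative.ofAdd (1 : ZMod d)) (fun i => by simp [gen]),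
      ← pow_mul]
    exact cyc_pow h1 _
  · rw [map_mul, chainWord_cyc _ (Multiplicative.ofAdd (1 : ZMod d)) (fun i => by simp [gen]),
      chainWordRev_cyc _ (Multiplicative.ofAdd (1 : ZMod d)) (fun i => by simp [gen]), ← pow_add]
    exact cyc_pow h2 _

/-- The mapping class group of the sphere with `m + 1` punctures: the power subgroup has finite
index `gcd (N, m * gcd (2, m + 1))` if some `d` in `1, ..., m + 1` does not divide `N`. -/
theorem finS (m : ℕ) (hm : 4 ≤ m) (N d : ℕ) (hd : 1 ≤ d) (hd' : d ≤ m + 1) (hdN : ¬ d ∣ N) :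
    (powSub (Sph m) N).index = Nat.gcd N (m * Nat.gcd 2 (m + 1)) := by
  have hsub : braidRel m ⊆ sphRel m := fun r hr => Or.inl hr
  have hall := all_gen hm hsub N d hd hd' hdN
  set π := QuotientGroup.mk' (powSub (Sph m) N) with hπ
  set t := π (PresentedGroup.of ⟨0, by omega⟩) with ht
  have hg : ∀ i : Fin m, (π.comp (PresentedGroup.mk (sphRel m))) (gen i) = t :=
    fun i => hall _ ⟨i, rfl⟩
  have h1 : t ^ (m * (m + 1)) = 1 := by
    have h := congrArg π (rel_one (rels := sphRel m) (Or.inr (Or.inl rfl)))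
    rw [map_pow, map_pow, map_one] at h
    have h' := chainWord_cyc (π.comp (PresentedGroup.mk (sphRel m))) t hg
    rw [MonoidHom.comp_apply] at h'
    rw [h', ← pow_mul] at h
    exact h
  have h2 : t ^ (m + m) = 1 := by
    have h := congrArg π (rel_one (rels := sphRel m) (Or.inr (Or.inr rfl)))
    rw [map_mul, map_mul, map_one] at h
    have h' := chainWord_cyc (π.comp (PresentedGroup.mk (sphRel m))) t hg
    have h'' := chainWordRev_cyc (π.comp (PresentedGroup.mk (sphRel m))) t hg
    rw [MonoidHom.comp_apply] at h' h''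
    rw [h', h'', ← pow_add] at h
    exact h
  have hN : t ^ N = 1 := pow_quot N t
  have hgcd : t ^ (Nat.gcd N (m * Nat.gcd 2 (m + 1))) = 1 := by
    rw [← orderOf_dvd_iff_pow_eq_one] at hN h1 h2 ⊢
    rw [← gcd_aux]
    exact Nat.dvd_gcd hN (Nat.dvd_gcd h1 h2)
  obtain ⟨φ, hφ⟩ := exists_cyc (sphRel m) (Nat.gcd N (m * Nat.gcd 2 (m + 1)))
    (sph_cyc (Nat.gcd_dvd_right _ _))
  have hpos : 0 < m * Nat.gcd 2 (m + 1) :=
    Nat.mul_pos (by omega) (Nat.gcd_pos_of_pos_left _ (by norm_num))
  exact index_eq (powSub (Sph m) N) _ (closure_of m _) t hall _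
    (Nat.gcd_pos_of_pos_right _ hpos) hgcd φ (cyc_surj φ _ (hφ ⟨0, by omega⟩))
    (powSub_le_ker φ N fun x => cyc_pow (Nat.gcd_dvd_left _ _) _)

end Pool.Agent.PowQ
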