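import Mathlib

/-!
# The crossing class of four labelled points on a line

The cross ratio cocycle of four labelled points among any number of points.
-/

set_option autoImplicit false

namespace Pool.Agent.PowQ

namespace InfS

/-- Comparisons of the positions of the four labels. -/
abbrev Cmp := Fin 4 → Fin 4 → Bool

/-- Is `b` separated from `e` by the pair `a`, `d`? -/
def sep (c : Cmp) (a d b e : Fin 4) : Bool := (c a b ^^ c d b) ^^ (c a e ^^ c d e)

/-- The crossing class: the pairing of the labels whose two chords cross. -/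
def J (c : Cmp) : Fin 3 := bif sep c 0 3 1 2 then 0 else bif sep c 2 3 0 1 then 1 else 2

/-- The class of the pairing which contains the given pair. -/
def cl (a b : Fin 4) : Fin 3 :=
  ![![0, 1, 2, 0], ![1, 0, 0, 2], ![2, 0, 0, 1], ![0, 2, 1, 0]] a b

/-- The comparisons after the exchange of two neighbours. -/
def flip (w l : Fin 4) (c : Cmp) : Cmp := fun a b =>
  bif (a == w && b == l) || (a == l && b == w) then !c a b else c a b

/-- The comparisons after the label `w` has moved from one end to the other. -/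
def rot (w : Fin 4) (c : Cmp) : Cmp := fun a b =>
  bif (a == w) ^^ (b == w) then !c a b else c a b

/-- The cyclic orientation of three labels. -/
def ori (c : Cmp) (x y z : Fin 4) : Bool := c x y ^^ (c y z ^^ c z x)

/-- The change of the class when the label `w` moves to the left across a label. -/
def D (c : Cmp) (w : Fin 4) : Fin 3 :=
  match w with
  | 0 => bif ori c 1 2 3 then 1 else 2
  | 1 => bif ori c 0 2 3 then 2 else 1
  | 2 => bif ori c 0 1 3 then 1 else 2
  | 3 => bif ori c 0 1 2 then 2 else 1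

/-- A tournament given by six booleans. -/
def mkC (b01 b02 b03 b12 b13 b23 : Bool) : Cmp :=
  ![![false, b01, b02, b03], ![!b01, false, b12, b13], ![!b02, !b12, false, b23],
    ![!b03, !b13, !b23, false]]

/-- Transitivity. -/
def trans (c : Cmp) : Bool :=
  (List.finRange 4).all fun a => (List.finRange 4).all fun b => (List.finRange 4).all fun d =>
    !(c a b) || !(c b d) || c a d

/-- `w` and `l` are neighbours. -/
def nb (c : Cmp) (w l : Fin 4) : Bool :=
  (List.finRange 4).all fun x => (x == w) || (x == l) || (c w x == c l x)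

/-- A linear order on the labels. -/
structure Lin (c : Cmp) : Prop where
  irr : ∀ a, c a a = false
  anti : ∀ a b, a ≠ b → c b a = !c a b
  tr : trans c = true

theorem Lin.eq_mk {c : Cmp} (h : Lin c) :
    c = mkC (c 0 1) (c 0 2) (c 0 3) (c 1 2) (c 1 3) (c 2 3) := by
  funext a b
  fin_cases a <;> fin_cases b
  · exact h.irr 0
  · rfl
  · rfl
  · rfl
  · exact h.anti 0 1 (by decide)
  · exact h.irr 1
  · rfl
  · rfl
  · exact h.anti 0 2 (by decide)
  · exact h.anti 1 2 (by decide)
  · exact h.irr 2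
  · rfl
  · exact h.anti 0 3 (by decide)
  · exact h.anti 1 3 (by decide)
  · exact h.anti 2 3 (by decide)
  · exact h.irr 3

/-- The check of the neighbour exchange. -/
def chkFlip (c : Cmp) (w l : Fin 4) : Bool :=
  (w == l) || !trans c || !nb c w l ||
    (J (flip w l c) == -(cl w l + J c) && J c != cl w l &&
      (!c l w || J (flip w l c) == J c + D c w))

theorem chkFlip_all : ∀ b01 b02 b03 b12 b13 b23 : Bool, ∀ w l : Fin 4,
    chkFlip (mkC b01 b02 b03 b12 b13 b23) w l = true := by
  decide +kernel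

/-- The check of the rotation. -/
theorem rot_all : ∀ b01 b02 b03 b12 b13 b23 : Bool, ∀ w : Fin 4,
    J (rot w (mkC b01 b02 b03 b12 b13 b23)) = J (mkC b01 b02 b03 b12 b13 b23) := by
  decide +kernel

theorem flip_spec {c : Cmp} (h : Lin c) {w l : Fin 4} (hwl : w ≠ l) (hn : nb c w l = true) :
    J (flip w l c) = -(cl w l + J c) ∧ J c ≠ cl w l ∧ (c l w = true →
      J (flip w l c) = J c + D c w) := by
  have h1 := chkFlip_all (c 0 1) (c 0 2) (c 0 3) (c 1 2) (c 1 3) (c 2 3) w l
  rw [← h.eq_mk] at h1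
  have h2 : (w == l) = false := by simpa using hwl
  simp only [chkFlip, h2, h.tr, hn, Bool.not_true, Bool.false_or, Bool.or_false,
    Bool.and_eq_true, beq_iff_eq, bne_iff_ne, Bool.or_eq_true, Bool.not_eq_true'] at h1
  refine ⟨h1.1.1, h1.1.2, fun h3 => ?_⟩
  rcases h1.2 with h4 | h4
  · rw [h3] at h4
    exact absurd h4 (by decide)
  · exact h4

theorem rot_spec {c : Cmp} (h : Lin c) (w : Fin 4) : J (rot w c) = J c := by
  have h1 := rot_all (c 0 1) (c 0 2) (c 0 3) (c 1 2) (c 1 3) (c 2 3) w
  rwa [← h.eq_mk] at h1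

theorem D_ne (c : Cmp) (w : Fin 4) : D c w = 1 ∨ D c w = 2 := by
  fin_cases w
  · change (bif ori c 1 2 3 then (1 : Fin 3) else 2) = 1 ∨ (bif ori c 1 2 3 then (1 : Fin 3) else 2) = 2
    cases ori c 1 2 3 <;> simp
  · change (bif ori c 0 2 3 then (2 : Fin 3) else 1) = 1 ∨ (bif ori c 0 2 3 then (2 : Fin 3) else 1) = 2
    cases ori c 0 2 3 <;> simp
  · change (bif ori c 0 1 3 then (1 : Fin 3) else 2) = 1 ∨ (bif ori c 0 1 3 then (1 : Fin 3) else 2) = 2
    cases ori c 0 1 3 <;> simp
  · change (bif ori c 0 1 2 then (2 : Fin 3) else 1) = 1 ∨ (bif ori c 0 1 2 then (2 : Fin 3) else 1) = 2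
    cases ori c 0 1 2 <;> simp

theorem D_congr {c c' : Cmp} {w : Fin 4} (h : ∀ a b, a ≠ w → b ≠ w → c a b = c' a b) :
    D c w = D c' w := by
  fin_cases w
  · have e1 := h 1 2 (by decide) (by decide)
    have e2 := h 2 3 (by decide) (by decide)
    have e3 := h 3 1 (by decide) (by decide)
    simp only [D, ori, e1, e2, e3]
  · have e1 := h 0 2 (by decide) (by decide)
    have e2 := h 2 3 (by decide) (by decide)
    have e3 := h 3 0 (by decide) (by decide)
    simp only [D, ori, e1, e2, e3]
  · have e1 := h 0 1 (by decide) (by decide)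
    have e2 := h 1 3 (by decide) (by decide)
    have e3 := h 3 0 (by decide) (by decide)
    simp only [D, ori, e1, e2, e3]
  · have e1 := h 0 1 (by decide) (by decide)
    have e2 := h 1 2 (by decide) (by decide)
    have e3 := h 2 0 (by decide) (by decide)
    simp only [D, ori, e1, e2, e3]

/-- The combinatorics of the classes in the braid relation. -/
theorem braid_cl : ∀ a b c : Fin 4, a ≠ b → a ≠ c → b ≠ c → ∀ j : Fin 3,
    j ≠ cl a b → j ≠ cl b c →
    j = cl a c ∧ -(cl a b + j) = cl b c ∧ -(cl a c + cl b c) = cl a b ∧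
      -(cl b c + cl a b) = cl a c ∧ -(cl b c + j) = cl a b ∧ -(cl a c + cl a b) = cl b c ∧
      cl a b ≠ cl a c ∧ cl a b ≠ cl b c ∧ cl a c ≠ cl b c := by
  decide +kernel

theorem comm_cl : ∀ a b c d : Fin 4,
    (a ≠ b ∧ a ≠ c ∧ a ≠ d) ∧ (b ≠ c ∧ b ≠ d ∧ c ≠ d) → cl a b = cl c d := by
  decide +kernel

section

variable {B : Type*} [Group B] (e : Fin 3 → B)

/-- The values of the cocycle. -/
def kap (ε j k : Fin 3) : B := if k = j + ε then e j * (e k)⁻¹ else 1

theorem kap_self {ε : Fin 3} (hε : ε ≠ 0) (j : Fin 3) : kap e ε j j = 1 := by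
  unfold kap
  rw [if_neg]
  revert ε j
  decide

theorem kap_inv (j k : Fin 3) : (kap e 1 k j)⁻¹ = kap e 2 j k := by
  unfold kap
  have h : j = k + 1 ↔ k = j + 2 := by revert j k; decide
  by_cases h1 : j = k + 1
  · rw [if_pos h1, if_pos (h.1 h1)]
    simp
  · rw [if_neg h1, if_neg (fun h2 => h1 (h.2 h2)), inv_one]

/-- A full turn. -/
theorem kap_tri {ε : Fin 3} (hε : ε ≠ 0) {x y z : Fin 3} (hxy : x ≠ y) (hxz : x ≠ z)
    (hyz : y ≠ z) : kap e ε x y * kap e ε y z * kap e ε z x = 1 := by
  have h : (y = x + ε ∧ z = y + ε ∧ x = z + ε) ∨ (y ≠ x + ε ∧ z ≠ y + ε ∧ x ≠ z + ε) := by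
    revert ε x y z
    decide
  unfold kap
  rcases h with ⟨h1, h2, h3⟩ | ⟨h1, h2, h3⟩
  · rw [if_pos h1, if_pos h2, if_pos h3]
    simp
  · rw [if_neg h1, if_neg h2, if_neg h3]
    simp

/-- The partial products on the way of a moving label. -/
def acc (ε d j k : Fin 3) : B := if d = ε then e j * (e k)⁻¹ else 1

theorem acc_self (ε d j : Fin 3) : acc e ε d j j = 1 := by
  unfold acc
  split_ifs <;> simp

theorem acc_step (ε d j k : Fin 3) : acc e ε d j k * kap e ε k (k + d) = acc e ε d j (k + d) := by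
  unfold acc kap
  by_cases h : d = ε
  · subst h
    simp
  · have h1 : k + d ≠ k + ε := fun h2 => h (add_left_cancel h2)
    rw [if_neg h, if_neg h, if_neg h1, mul_one]

end

end InfS

end Pool.Agent.PowQ
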