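import Pool.Agent.PowQ.InfS1
import Pool.Agent.PowQ.Fin

/-!
# The mapping class groups of the punctured spheres: power quotients
-/

set_option autoImplicit false

namespace Pool.Agent.PowQ

namespace InfS

variable {m : ℕ}

/-- Positions of four labelled points. -/
abbrev X (m : ℕ) := Fin 4 ↪ Fin (m + 1)

/-- The comparisons. -/
def L (p : X m) : Cmp := fun a b => decide (p a < p b)

theorem lin_L (p : X m) : Lin (L p) where
  irr a := by simp [L]
  anti a b h := by
    have h1 : p a ≠ p b := fun h2 => h (p.injective h2)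
    unfold L
    rw [← decide_not]
    exact decide_eq_decide.2 ⟨fun h2 => not_lt.2 h2.le, fun h2 => lt_of_le_of_ne (not_lt.1 h2)
      (Ne.symm h1)⟩
  tr := by
    unfold trans
    simp only [List.all_eq_true]
    intro a _ b _ d _
    by_cases h1 : p a < p b
    · by_cases h2 : p b < p d
      · simp [L, h1, h2, h1.trans h2]
      · simp [L, h2]
    · simp [L, h1]

/-- The class of the crossing chords. -/
def jj (p : X m) : Fin 3 := J (L p)

/-- The action of a permutation on the positions. -/
def act (π : Equiv.Perm (Fin (m + 1))) (p : X m) : X m := p.trans π.toEmbedding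

theorem act_apply (π : Equiv.Perm (Fin (m + 1))) (p : X m) (a : Fin 4) :
    act π p a = π (p a) := rfl

@[simp] theorem act_one (p : X m) : act 1 p = p := by ext i; simp [act]

theorem act_mul (π ρ : Equiv.Perm (Fin (m + 1))) (p : X m) :
    act (π * ρ) p = act π (act ρ p) := by
  ext i; simp [act]

/-- The swap number `i`. -/
def sp (i : Fin m) : Equiv.Perm (Fin (m + 1)) := Equiv.swap i.castSucc i.succ

theorem sp_sp (i : Fin m) : sp i * sp i = 1 := by simp [sp]

theorem act_sp_sp (i : Fin m) (p : X m) : act (sp i) (act (sp i) p) = p := by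
  rw [← act_mul, sp_sp, act_one]

/-- The swap on numbers. -/
def sv (i x : ℕ) : ℕ := if x = i then i + 1 else if x = i + 1 then i else x

theorem sp_val (i : Fin m) (x : Fin (m + 1)) : (sp i x).val = sv i.val x.val := by
  unfold sp sv
  rw [Equiv.swap_apply_def]
  have h1 : x = i.castSucc ↔ x.val = i.val := by rw [Fin.ext_iff]; rfl
  have h2 : x = i.succ ↔ x.val = i.val + 1 := by rw [Fin.ext_iff]; rfl
  by_cases h3 : x = i.castSucc
  · rw [if_pos h3, if_pos (h1.1 h3)]
    rfl
  · rw [if_neg h3, if_neg (fun h => h3 (h1.2 h))]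
    by_cases h4 : x = i.succ
    · rw [if_pos h4, if_pos (h2.1 h4)]
      rfl
    · rw [if_neg h4, if_neg (fun h => h4 (h2.2 h))]

theorem act_val (i : Fin m) (p : X m) (a : Fin 4) :
    (act (sp i) p a).val = sv i.val (p a).val := sp_val i (p a)

theorem L_inact (i : Fin m) (p : X m)
    (h : ¬ ∃ a b, (p a).val = i.val ∧ (p b).val = i.val + 1) : L (act (sp i) p) = L p := by
  funext a b
  unfold L
  refine decide_eq_decide.2 ?_
  rw [Fin.lt_def, Fin.lt_def, act_val, act_val]
  have h1 : ¬ ((p a).val = i.val ∧ (p b).val = i.val + 1) := fun h' => h ⟨a, b, h'⟩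
  have h2 : ¬ ((p b).val = i.val ∧ (p a).val = i.val + 1) := fun h' => h ⟨b, a, h'⟩
  unfold sv
  split_ifs <;> omega

theorem L_act (i : Fin m) (p : X m) {w l : Fin 4} (hw : (p w).val = i.val + 1)
    (hl : (p l).val = i.val) : L (act (sp i) p) = flip w l (L p) := by
  funext a b
  have hinj : ∀ x y : Fin 4, (p x).val = (p y).val → x = y := fun x y h =>
    p.injective (Fin.ext h)
  have ew : ∀ x, (p x).val = i.val + 1 ↔ x = w := fun x =>
    ⟨fun h => hinj x w (h.trans hw.symm), fun h => h ▸ hw⟩
  have el : ∀ x, (p x).val = i.val ↔ x = l := fun x =>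
    ⟨fun h => hinj x l (h.trans hl.symm), fun h => h ▸ hl⟩
  have hwl : w ≠ l := fun h => by rw [h] at hw; omega
  unfold flip
  by_cases h1 : (a = w ∧ b = l) ∨ (a = l ∧ b = w)
  · have h2 : ((a == w && b == l) || (a == l && b == w)) = true := by simpa using h1
    rw [h2, cond_true]
    unfold L
    rw [← decide_not]
    refine decide_eq_decide.2 ?_
    rw [Fin.lt_def, Fin.lt_def, act_val, act_val]
    unfold sv
    rcases h1 with ⟨rfl, rfl⟩ | ⟨rfl, rfl⟩
    · rw [hw, hl]
      split_ifs <;> omega
    · rw [hw, hl]
      split_ifs <;> omega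
  · have h2 : ((a == w && b == l) || (a == l && b == w)) = false := by
      rw [Bool.eq_false_iff]
      intro h3
      exact h1 (by simpa using h3)
    rw [h2, cond_false]
    unfold L
    refine decide_eq_decide.2 ?_
    rw [Fin.lt_def, Fin.lt_def, act_val, act_val]
    have h3 : ¬ ((p a).val = i.val + 1 ∧ (p b).val = i.val) := fun h =>
      h1 (Or.inl ⟨(ew a).1 h.1, (el b).1 h.2⟩)
    have h4 : ¬ ((p a).val = i.val ∧ (p b).val = i.val + 1) := fun h =>
      h1 (Or.inr ⟨(el a).1 h.1, (ew b).1 h.2⟩)
    unfold sv
    split_ifs <;> omega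

theorem nb_L (i : ℕ) (p : X m) {w l : Fin 4} (hw : (p w).val = i + 1)
    (hl : (p l).val = i) : nb (L p) w l = true := by
  unfold nb
  rw [List.all_eq_true]
  intro x _
  by_cases h1 : x = w
  · simp [h1]
  by_cases h2 : x = l
  · simp [h2]
  have h3 : (p x).val ≠ i + 1 := fun h => h1 (p.injective (Fin.ext (h.trans hw.symm)))
  have h4 : (p x).val ≠ i := fun h => h2 (p.injective (Fin.ext (h.trans hl.symm)))
  have h5 : L p w x = L p l x := by
    unfold L
    refine decide_eq_decide.2 ?_
    rw [Fin.lt_def, Fin.lt_def]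
    omega
  rw [h5]
  simp

theorem ne_of_at {i : ℕ} {p : X m} {w l : Fin 4} (hw : (p w).val = i + 1)
    (hl : (p l).val = i) : w ≠ l := fun h => by rw [h] at hw; omega

/-- The label at a position. -/
def lab (p : X m) (x : ℕ) : Option (Fin 4) :=
  if (p 0).val = x then some 0 else if (p 1).val = x then some 1 else
  if (p 2).val = x then some 2 else if (p 3).val = x then some 3 else none

theorem lab_some {p : X m} {x : ℕ} {a : Fin 4} : lab p x = some a ↔ (p a).val = x := by
  have hinj : ∀ x y : Fin 4, (p x).val = (p y).val → x = y := fun x y h =>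
    p.injective (Fin.ext h)
  have h01 : (p 0).val ≠ (p 1).val := fun h => absurd (hinj 0 1 h) (by decide)
  have h02 : (p 0).val ≠ (p 2).val := fun h => absurd (hinj 0 2 h) (by decide)
  have h03 : (p 0).val ≠ (p 3).val := fun h => absurd (hinj 0 3 h) (by decide)
  have h12 : (p 1).val ≠ (p 2).val := fun h => absurd (hinj 1 2 h) (by decide)
  have h13 : (p 1).val ≠ (p 3).val := fun h => absurd (hinj 1 3 h) (by decide)
  have h23 : (p 2).val ≠ (p 3).val := fun h => absurd (hinj 2 3 h) (by decide)
  unfold lab
  fin_cases a <;> simp only [Fin.zero_eta, Fin.mk_one, Fin.reduceFinMk] <;> split_ifs <;>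
    simp <;> omega

theorem lab_none {p : X m} {x : ℕ} : lab p x = none ↔ ∀ a, (p a).val ≠ x := by
  constructor
  · intro h a ha
    rw [lab_some.2 ha] at h
    exact absurd h (by simp)
  · intro h
    cases h' : lab p x with
    | none => rfl
    | some a => exact absurd (lab_some.1 h') (h a)

theorem lab_act (i : Fin m) (p : X m) (x : ℕ) : lab (act (sp i) p) x = lab p (sv i.val x) := by
  cases h : lab p (sv i.val x) with
  | none =>
    rw [lab_none] at h ⊢
    intro a ha
    refine h a ?_
    rw [act_val] at ha
    rw [← ha]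
    unfold sv
    split_ifs <;> omega
  | some a =>
    rw [lab_some] at h ⊢
    rw [act_val, h]
    unfold sv
    split_ifs <;> omega

/-- The change of the class under a swap of two positions with the given labels. -/
def step (o o' : Option (Fin 4)) (j : Fin 3) : Fin 3 :=
  match o, o' with
  | some a, some b => -(cl a b + j)
  | _, _ => j

theorem cl_comm (a b : Fin 4) : cl a b = cl b a := by
  revert a b
  decide

theorem jj_step (i : Fin m) (p : X m) :
    jj (act (sp i) p) = step (lab p i.val) (lab p (i.val + 1)) (jj p) := by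
  cases h : lab p i.val with
  | none =>
    have h1 : L (act (sp i) p) = L p := by
      apply L_inact
      rintro ⟨a, b, ha, -⟩
      exact lab_none.1 h a ha
    simp [step, jj, h1]
  | some l =>
    cases h' : lab p (i.val + 1) with
    | none =>
      have h1 : L (act (sp i) p) = L p := by
        apply L_inact
        rintro ⟨a, b, -, hb⟩
        exact lab_none.1 h' b hb
      simp [step, jj, h1]
    | some w =>
      rw [lab_some] at h h'
      have h1 := (flip_spec (lin_L p) (ne_of_at h' h) (nb_L i.val p h' h)).1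
      unfold jj
      rw [L_act i p h' h, h1]
      simp only [step]
      rw [cl_comm]

theorem jj_ne (i : ℕ) (p : X m) {l w : Fin 4} (h : lab p i = some l)
    (h' : lab p (i + 1) = some w) : jj p ≠ cl l w := by
  rw [lab_some] at h h'
  rw [cl_comm]
  exact (flip_spec (lin_L p) (ne_of_at h' h) (nb_L i p h' h)).2.1

theorem lab_ne {p : X m} {x y : ℕ} {a b : Fin 4} (h : lab p x = some a) (h' : lab p y = some b)
    (hxy : x ≠ y) : a ≠ b := by
  rintro rfl
  rw [lab_some] at h h'
  exact hxy (h.symm.trans h')

section

variable {B : Type*} [Group B] (e : Fin 3 → B) (ε : Fin 3)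

/-- The half twist number `i`. -/
def P (i : Fin m) : Equiv.Perm (X m × B) where
  toFun x := (act (sp i) x.1, x.2 * kap e ε (jj x.1) (jj (act (sp i) x.1)))
  invFun x := (act (sp i) x.1, x.2 * (kap e ε (jj (act (sp i) x.1)) (jj x.1))⁻¹)
  left_inv x := by
    ext <;> simp [act_sp_sp, mul_assoc]
  right_inv x := by
    ext <;> simp [act_sp_sp, mul_assoc]

theorem P_apply (i : Fin m) (p : X m) (b : B) :
    P e ε i (p, b) = (act (sp i) p, b * kap e ε (jj p) (jj (act (sp i) p))) := rfl

theorem P_inv (i : Fin m) : (P e 2 i)⁻¹ = P e 1 i := by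
  refine inv_eq_of_mul_eq_one_right ?_
  refine Equiv.ext fun x => ?_
  obtain ⟨p, b⟩ := x
  rw [Equiv.Perm.mul_apply, P_apply, P_apply, act_sp_sp, ← kap_inv]
  simp

theorem sp_comm {i j : Fin m} (h : i.val + 2 ≤ j.val) : sp i * sp j = sp j * sp i := by
  refine Equiv.ext fun x => Fin.ext ?_
  rw [Equiv.Perm.mul_apply, Equiv.Perm.mul_apply, sp_val, sp_val, sp_val, sp_val]
  unfold sv
  split_ifs <;> omega

theorem sp_braid {i j : Fin m} (h : j.val = i.val + 1) :
    sp i * sp j * sp i = sp j * sp i * sp j := by
  refine Equiv.ext fun x => Fin.ext ?_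
  simp only [Equiv.Perm.mul_apply, sp_val]
  rw [h]
  unfold sv
  split_ifs <;> omega

theorem P_comm (hε : ε ≠ 0) {i j : Fin m} (h : i.val + 2 ≤ j.val) :
    P e ε i * P e ε j = P e ε j * P e ε i := by
  refine Equiv.ext fun x => ?_
  obtain ⟨p, b⟩ := x
  rw [Equiv.Perm.mul_apply, Equiv.Perm.mul_apply, P_apply, P_apply, P_apply, P_apply,
    ← act_mul, ← act_mul, sp_comm h]
  refine Prod.ext rfl ?_
  simp only
  have e1 : jj (act (sp j * sp i) p) = step (lab p j.val) (lab p (j.val + 1))
      (jj (act (sp i) p)) := by
    rw [act_mul, jj_step, lab_act, lab_act]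
    have h1 : sv i.val j.val = j.val := by unfold sv; split_ifs <;> omega
    have h2 : sv i.val (j.val + 1) = j.val + 1 := by unfold sv; split_ifs <;> omega
    rw [h1, h2]
  have e2 : jj (act (sp j * sp i) p) = step (lab p i.val) (lab p (i.val + 1))
      (jj (act (sp j) p)) := by
    rw [← sp_comm h, act_mul, jj_step, lab_act, lab_act]
    have h1 : sv j.val i.val = i.val := by unfold sv; split_ifs <;> omega
    have h2 : sv j.val (i.val + 1) = i.val + 1 := by unfold sv; split_ifs <;> omega
    rw [h1, h2]
  have e3 := jj_step i p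
  have e4 := jj_step j p
  rw [mul_assoc, mul_assoc]
  congr 1
  generalize jj (act (sp j * sp i) p) = j2 at *
  generalize jj (act (sp i) p) = j1 at *
  generalize jj (act (sp j) p) = j1' at *
  generalize hj0 : jj p = j0 at *
  cases ho0 : lab p i.val with
  | none =>
    rw [ho0] at e2 e3
    simp only [step] at e2 e3
    subst e3
    rw [e2, kap_self e hε, kap_self e hε, mul_one, one_mul]
  | some a =>
    cases ho1 : lab p (i.val + 1) with
    | none =>
      rw [ho0, ho1] at e2 e3
      simp only [step] at e2 e3
      subst e3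
      rw [e2, kap_self e hε, kap_self e hε, mul_one, one_mul]
    | some b' =>
      cases hu0 : lab p j.val with
      | none =>
        rw [hu0] at e1 e4
        simp only [step] at e1 e4
        subst e4
        rw [e1, kap_self e hε, kap_self e hε, mul_one, one_mul]
      | some c =>
        cases hu1 : lab p (j.val + 1) with
        | none =>
          rw [hu0, hu1] at e1 e4
          simp only [step] at e1 e4
          subst e4
          rw [e1, kap_self e hε, kap_self e hε, mul_one, one_mul]
        | some d =>
          have hc : cl a b' = cl c d := comm_cl a b' c d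
            ⟨⟨lab_ne ho0 ho1 (by omega), lab_ne ho0 hu0 (by omega), lab_ne ho0 hu1 (by omega)⟩,
              lab_ne ho1 hu0 (by omega), lab_ne ho1 hu1 (by omega), lab_ne hu0 hu1 (by omega)⟩
          rw [ho0, ho1] at e3
          rw [hu0, hu1] at e4
          simp only [step] at e3 e4
          rw [hc, ← e4] at e3
          rw [e3]

theorem P_braid (hε : ε ≠ 0) {i j : Fin m} (h : j.val = i.val + 1) :
    P e ε i * P e ε j * P e ε i = P e ε j * P e ε i * P e ε j := by
  refine Equiv.ext fun x => ?_
  obtain ⟨p, b⟩ := x
  simp only [Equiv.Perm.mul_apply, P_apply]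
  rw [← act_mul, ← act_mul, ← act_mul, ← act_mul, ← act_mul, ← act_mul]
  have e1 := jj_step i p
  have f1 : jj (act (sp j) p) = step (lab p (i.val + 1)) (lab p (i.val + 2)) (jj p) := by
    rw [jj_step, h]
  have e2 : jj (act (sp j * sp i) p) = step (lab p i.val) (lab p (i.val + 2))
      (jj (act (sp i) p)) := by
    rw [act_mul, jj_step, lab_act, lab_act]
    have h1 : sv i.val j.val = i.val := by unfold sv; split_ifs <;> omega
    have h2 : sv i.val (j.val + 1) = i.val + 2 := by unfold sv; split_ifs <;> omega
    rw [h1, h2]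
  have f2 : jj (act (sp i * sp j) p) = step (lab p i.val) (lab p (i.val + 2))
      (jj (act (sp j) p)) := by
    rw [act_mul, jj_step, lab_act, lab_act]
    have h1 : sv j.val i.val = i.val := by unfold sv; split_ifs <;> omega
    have h2 : sv j.val (i.val + 1) = i.val + 2 := by unfold sv; split_ifs <;> omega
    rw [h1, h2]
  have e3 : jj (act (sp i * sp j * sp i) p) = step (lab p (i.val + 1)) (lab p (i.val + 2))
      (jj (act (sp j * sp i) p)) := by
    rw [mul_assoc, act_mul, jj_step, act_mul (sp j) (sp i), lab_act, lab_act, lab_act, lab_act]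
    have h1 : sv i.val (sv j.val i.val) = i.val + 1 := by unfold sv; split_ifs <;> omega
    have h2 : sv i.val (sv j.val (i.val + 1)) = i.val + 2 := by unfold sv; split_ifs <;> omega
    rw [h1, h2]
  have f3 : jj (act (sp i * sp j * sp i) p) = step (lab p i.val) (lab p (i.val + 1))
      (jj (act (sp i * sp j) p)) := by
    rw [sp_braid h, mul_assoc, act_mul, jj_step, act_mul (sp i) (sp j), lab_act, lab_act, lab_act,
      lab_act]
    have h1 : sv j.val (sv i.val j.val) = i.val := by unfold sv; split_ifs <;> omega
    have h2 : sv j.val (sv i.val (j.val + 1)) = i.val + 1 := by unfold sv; split_ifs <;> omega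
    rw [h1, h2]
  rw [← sp_braid h]
  refine Prod.ext rfl ?_
  simp only
  have g1 : ∀ {l w : Fin 4}, lab p i.val = some l → lab p (i.val + 1) = some w →
      jj p ≠ cl l w := jj_ne i.val p
  have g2 : ∀ {l w : Fin 4}, lab p (i.val + 1) = some l → lab p (i.val + 2) = some w →
      jj p ≠ cl l w := jj_ne (i.val + 1) p
  suffices key : kap e ε (jj p) (jj (act (sp i) p)) *
      kap e ε (jj (act (sp i) p)) (jj (act (sp j * sp i) p)) *
      kap e ε (jj (act (sp j * sp i) p)) (jj (act (sp i * sp j * sp i) p)) =
      kap e ε (jj p) (jj (act (sp j) p)) *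
      kap e ε (jj (act (sp j) p)) (jj (act (sp i * sp j) p)) *
      kap e ε (jj (act (sp i * sp j) p)) (jj (act (sp i * sp j * sp i) p)) by
    have h5 := congrArg (fun x => b * x) key
    simp only [← mul_assoc] at h5
    exact h5
  generalize jj (act (sp i * sp j * sp i) p) = j3 at *
  generalize jj (act (sp j * sp i) p) = j2 at *
  generalize jj (act (sp i * sp j) p) = r2 at *
  generalize jj (act (sp i) p) = j1 at *
  generalize jj (act (sp j) p) = r1 at *
  generalize jj p = j0 at *
  cases ho0 : lab p i.val with
  | none =>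
    rw [ho0] at e1 e2 f2 f3
    simp only [step] at e1 e2 f2 f3
    subst e1 e2 f2 f3
    simp only [kap_self e hε, mul_one, one_mul]
  | some a =>
    cases ho1 : lab p (i.val + 1) with
    | none =>
      rw [ho0, ho1] at e1 f3
      rw [ho1] at e3 f1
      simp only [step] at e1 e3 f1 f3
      subst e1 e3 f1 f3
      simp only [kap_self e hε, mul_one, one_mul]
    | some b' =>
      cases ho2 : lab p (i.val + 2) with
      | none =>
        rw [ho0, ho1] at e1 f3
        rw [ho1, ho2] at e3 f1
        rw [ho0, ho2] at e2 f2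
        simp only [step] at e2 e3 f1 f2
        subst e2 e3 f1 f2
        simp only [kap_self e hε, mul_one, one_mul]
      | some c =>
        rw [ho0, ho1] at e1 f3
        rw [ho1, ho2] at e3 f1
        rw [ho0, ho2] at e2 f2
        simp only [step] at e1 e2 e3 f1 f2 f3
        obtain ⟨k1, k2, k3, k4, k5, k6, k7, k8, k9⟩ := braid_cl a b' c
          (lab_ne ho0 ho1 (by omega)) (lab_ne ho0 ho2 (by omega)) (lab_ne ho1 ho2 (by omega)) j0
          (g1 ho0 ho1) (g2 ho1 ho2)
        rw [k2] at e1
        subst e1
        rw [k3] at e2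
        subst e2
        rw [k4] at e3
        subst e3
        rw [k5] at f1
        subst f1
        rw [k6] at f2
        subst f2
        rw [k1, kap_tri e hε k9 k7.symm k8.symm, kap_tri e hε k7.symm k9 k8]

end

end InfS

end Pool.Agent.PowQ
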