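import Mathlib
import Pool.Agent.PowQ.Defs
import Pool.Agent.PowQ.Defs2
import Pool.Agent.PowQ.Inf2

/-!
# The torus: power quotients of the modular group

An explicit cocycle of `PSL₂(ℤ)` over the cyclic group of order six with values in a group of
rank two.
-/

namespace Pool.Agent.PowQ

namespace InfT

open Inf2 (Bq Bq_pow Bq_top)

section

variable {B : Type*} [Group B]

/-- Translation by one with a cocycle. -/
def P (γ : Fin 6 → B) : Equiv.Perm (Fin 6 × B) where
  toFun x := (x.1 + 1, x.2 * γ x.1)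
  invFun x := (x.1 - 1, x.2 * (γ (x.1 - 1))⁻¹)
  left_inv x := by ext <;> simp
  right_inv x := by ext <;> simp

theorem P_apply (γ : Fin 6 → B) (i : Fin 6) (b : B) : P γ (i, b) = (i + 1, b * γ i) := rfl

variable (u v : B)

/-- The element on the edge from `5` to `0`. -/
def w : B := v⁻¹ * u * v * u⁻¹

/-- The cocycle of the first generator. -/
def ka (i : Fin 6) : B := if i = 5 then w u v else 1

/-- The cocycle of the second generator. -/
def kb : Fin 6 → B :=
  ![u, v, u⁻¹ * v, v⁻¹ * u⁻¹ * v, v⁻¹ * u * v⁻¹ * u⁻¹ * v,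
    v⁻¹ * u * u * v⁻¹ * u⁻¹ * v * w u v]

theorem coc_braid (i : Fin 6) : ka u v i * kb u v (i + 1) * ka u v (i + 1 + 1) =
    kb u v i * ka u v (i + 1) * kb u v (i + 1 + 1) := by
  fin_cases i <;> simp [ka, kb, w] <;> group

theorem coc_three (i : Fin 6) : kb u v i * ka u v (i + 1) * kb u v (i + 1 + 1) *
    ka u v (i + 1 + 1 + 1) * kb u v (i + 1 + 1 + 1 + 1) * ka u v (i + 1 + 1 + 1 + 1 + 1) = 1 := by
  fin_cases i <;> simp [ka, kb, w] <;> group

theorem P_braid : P (ka u v) * P (kb u v) * P (ka u v) = P (kb u v) * P (ka u v) * P (kb u v) := by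
  refine Equiv.ext fun x => ?_
  obtain ⟨i, b⟩ := x
  simp only [Equiv.Perm.mul_apply, P_apply]
  have := coc_braid u v i
  rw [Prod.mk.injEq]
  refine ⟨rfl, ?_⟩
  rw [mul_assoc, mul_assoc, ← mul_assoc (ka u v i), this]
  group

theorem P_three : (P (ka u v) * P (kb u v)) ^ 3 = 1 := by
  refine Equiv.ext fun x => ?_
  obtain ⟨i, b⟩ := x
  simp only [pow_succ, pow_zero, one_mul, Equiv.Perm.mul_apply, P_apply, Equiv.Perm.one_apply]
  have := coc_three u v i
  rw [Prod.mk.injEq]
  refine ⟨?_, ?_⟩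
  · exact (by decide : ∀ j : Fin 6, j + 1 + 1 + 1 + 1 + 1 + 1 = j) i
  · have h2 : b * kb u v i * ka u v (i + 1) * kb u v (i + 1 + 1) *
        ka u v (i + 1 + 1 + 1) * kb u v (i + 1 + 1 + 1 + 1) * ka u v (i + 1 + 1 + 1 + 1 + 1) =
        b * (kb u v i * ka u v (i + 1) * kb u v (i + 1 + 1) *
        ka u v (i + 1 + 1 + 1) * kb u v (i + 1 + 1 + 1 + 1) *
        ka u v (i + 1 + 1 + 1 + 1 + 1)) := by group
    rw [h2, this, mul_one]

/-- The images of the generators. -/
def img : Fin 2 → Equiv.Perm (Fin 6 × B) := ![P (ka u v), P (kb u v)]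

theorem lift_rel (r : FreeGroup (Fin 2)) (hr : r ∈ torRel 3) :
    FreeGroup.lift (img u v) r = 1 := by
  rcases hr with hr | rfl
  · rcases hr with ⟨i, j, hij, rfl⟩ | ⟨i, j, hij, rfl⟩
    · have := i.isLt
      have := j.isLt
      omega
    · have hi : i = 0 := by
        have := i.isLt
        have := j.isLt
        ext
        simp only [Fin.val_zero]
        omega
      have hj : j = 1 := by
        ext
        simp only [hij, hi]
        rfl
      subst hi hj
      rw [map_mul, map_inv, mul_inv_eq_one]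
      simpa [gen, img] using P_braid u v
  · simpa [gen, img] using P_three u v

end

section

variable (k : ℕ)

/-- The representation. -/
noncomputable def F : PTor →* Equiv.Perm (Fin 6 × Bq k) :=
  PresentedGroup.toGroup (f := img (Inf2.eq k 0) (Inf2.eq k 1))
    (lift_rel (Inf2.eq k 0) (Inf2.eq k 1))

theorem F_zero : F k (PresentedGroup.of 0) = P (ka (Inf2.eq k 0) (Inf2.eq k 1)) :=
  PresentedGroup.toGroup.of _

theorem F_one : F k (PresentedGroup.of 1) = P (kb (Inf2.eq k 0) (Inf2.eq k 1)) :=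
  PresentedGroup.toGroup.of _

/-- The skew form of a permutation. -/
def Skew (c : Fin 6) (γ : Fin 6 → Bq k) (f : Equiv.Perm (Fin 6 × Bq k)) : Prop :=
  ∀ p b, f (p, b) = (p + c, b * γ p)

theorem Skew.mul {k : ℕ} {c d : Fin 6} {γ δ : Fin 6 → Bq k}
    {f g : Equiv.Perm (Fin 6 × Bq k)} (hf : Skew k c γ f) (hg : Skew k d δ g) :
    Skew k (c + d) (fun p => δ p * γ (p + d)) (f * g) := by
  intro p b
  rw [Equiv.Perm.mul_apply, hg, hf, mul_assoc, add_assoc, add_comm d c]

theorem Skew.inv {k : ℕ} {c : Fin 6} {γ : Fin 6 → Bq k}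
    {f : Equiv.Perm (Fin 6 × Bq k)} (hf : Skew k c γ f) :
    Skew k (-c) (fun p => (γ (p + -c))⁻¹) f⁻¹ := by
  intro p b
  rw [Equiv.Perm.inv_eq_iff_eq, hf]
  simp

theorem Skew.one : Skew k 0 (fun _ => 1) 1 := by
  intro p b
  simp

/-- The subgroup of skew permutations. -/
def skewSub : Subgroup (Equiv.Perm (Fin 6 × Bq k)) where
  carrier := {f | ∃ c γ, Skew k c γ f}
  mul_mem' := by
    rintro f g ⟨π, γ, hf⟩ ⟨ρ, δ, hg⟩
    exact ⟨_, _, hf.mul hg⟩
  one_mem' := ⟨_, _, Skew.one k⟩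
  inv_mem' := by
    rintro f ⟨π, γ, hf⟩
    exact ⟨_, _, hf.inv⟩

theorem F_skew (g : PTor) : ∃ c γ, Skew k c γ (F k g) := by
  have : (⊤ : Subgroup PTor) ≤ (skewSub k).comap (F k) := by
    rw [← PresentedGroup.closure_range_of, Subgroup.closure_le]
    rintro _ ⟨i, rfl⟩
    fin_cases i
    · exact ⟨1, _, fun p b => by
        change F k (PresentedGroup.of 0) (p, b) = _
        rw [F_zero, P_apply]⟩
    · exact ⟨1, _, fun p b => by
        change F k (PresentedGroup.of 1) (p, b) = _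
        rw [F_one, P_apply]⟩
  exact this (Subgroup.mem_top g)

theorem Skew.pow {k : ℕ} {c : Fin 6} {γ : Fin 6 → Bq k}
    {f : Equiv.Perm (Fin 6 × Bq k)} (hf : Skew k c γ f) (n : ℕ) :
    ∃ δ, Skew k (n • c) δ (f ^ n) := by
  induction n with
  | zero => exact ⟨_, by simpa using Skew.one k⟩
  | succ n ih =>
    obtain ⟨δ, hδ⟩ := ih
    rw [pow_succ, succ_nsmul]
    exact ⟨_, hδ.mul hf⟩

theorem six_nsmul : ∀ c : Fin 6, 6 • c = 0 := by decide

theorem F_pow (g : PTor) : F k (g ^ (6 * k)) = 1 := by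
  obtain ⟨π, γ, hg⟩ := F_skew k g
  obtain ⟨δ, hδ⟩ := hg.pow 6
  rw [six_nsmul] at hδ
  rw [map_pow, pow_mul]
  have h : ∀ n : ℕ, ∀ p b, ((F k g ^ 6) ^ n) (p, b) = (p, b * δ p ^ n) := by
    intro n
    induction n with
    | zero => intro p b; simp
    | succ n ih =>
      intro p b
      rw [pow_succ, Equiv.Perm.mul_apply, hδ, add_zero, ih, mul_assoc, ← pow_succ']
  refine Equiv.ext fun x => ?_
  obtain ⟨p, b⟩ := x
  rw [h, Bq_pow, mul_one]
  rfl

/-- The translations of the fibre over the base point. -/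
def trans : Subgroup (Bq k) where
  carrier := {c | ∃ g : PTor, ∀ b, F k g (0, b) = (0, b * c)}
  mul_mem' := by
    rintro c d ⟨g, hg⟩ ⟨h, hh⟩
    refine ⟨h * g, fun b => ?_⟩
    rw [map_mul, Equiv.Perm.mul_apply, hg, hh, mul_assoc]
  one_mem' := ⟨1, fun b => by simp⟩
  inv_mem' := by
    rintro c ⟨g, hg⟩
    refine ⟨g⁻¹, fun b => ?_⟩
    rw [map_inv, Equiv.Perm.inv_eq_iff_eq, hg]
    simp

theorem tr0 (b : Bq k) : F k ((PresentedGroup.of 0)⁻¹ * PresentedGroup.of 1) (0, b) =
    (0, b * Inf2.eq k 0) := by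
  rw [map_mul, map_inv, Equiv.Perm.mul_apply, F_zero, F_one, Equiv.Perm.inv_eq_iff_eq, P_apply,
    P_apply]
  simp [ka, kb]

theorem tr1 (b : Bq k) : F k ((PresentedGroup.of 0 * PresentedGroup.of 0)⁻¹ *
    (PresentedGroup.of 1 * PresentedGroup.of 0)) (0, b) = (0, b * Inf2.eq k 1) := by
  rw [map_mul, map_inv, map_mul, map_mul, Equiv.Perm.mul_apply, F_zero, F_one,
    Equiv.Perm.inv_eq_iff_eq, Equiv.Perm.mul_apply, Equiv.Perm.mul_apply, P_apply, P_apply,
    P_apply, P_apply]
  simp [ka, kb]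

theorem trans_top (c : Bq k) : c ∈ trans k := by
  refine Bq_top k _ (fun i => ?_) c
  fin_cases i
  · exact ⟨_, tr0 k⟩
  · exact ⟨_, tr1 k⟩

end

/-- Surjections pull back infinite power quotients. -/
theorem index_zero_of_surj' {M H : Type*} [Group M] [Group H] (f : M →* H)
    (hf : Function.Surjective f) (N : ℕ) (h : (powSub H N).index = 0) :
    (powSub M N).index = 0 := by
  have hle : powSub M N ≤ (powSub H N).comap f := by
    unfold powSub
    rw [Subgroup.closure_le]
    rintro _ ⟨g, rfl⟩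
    exact Subgroup.subset_closure ⟨f g, by rw [map_pow]⟩
  have h1 := Subgroup.index_dvd_of_le hle
  rw [Subgroup.index_comap_of_surjective _ hf, h] at h1
  exact Nat.eq_zero_of_zero_dvd h1

end InfT

open InfT in
theorem infT (k : ℕ) (hk : (powSub (FreeGroup (Fin 2)) k).index = 0) :
    (powSub PTor (6 * k)).index = 0 := by
  have hinf : Infinite (Inf2.Bq k) := by
    by_contra h
    rw [not_infinite_iff_finite] at h
    exact (Subgroup.index_ne_zero_of_finite (H := powSub (FreeGroup (Fin 2)) k)) hk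
  have hle : powSub PTor (6 * k) ≤ (F k).ker := by
    unfold powSub
    rw [Subgroup.closure_le]
    rintro _ ⟨g, rfl⟩
    exact F_pow k g
  have hr : Infinite (F k).range := by
    refine Infinite.of_surjective (fun σ : (F k).range => (σ.1 (0, 1)).2) fun c => ?_
    obtain ⟨g, hg⟩ := trans_top k c
    exact ⟨⟨F k g, g, rfl⟩, by simp [hg]⟩
  have h0 : (F k).ker.index = 0 := by
    rw [Subgroup.index_ker]
    exact Nat.card_eq_zero_of_infinite
  have := Subgroup.index_dvd_of_le hle
  rw [h0] at this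
  exact Nat.eq_zero_of_zero_dvd this

namespace InfT

/-- The first generator. -/
abbrev ga : PTor := PresentedGroup.of 0

/-- The second generator. -/
abbrev gb : PTor := PresentedGroup.of 1

theorem rel_braid : ga * gb * ga = gb * ga * gb := by
  have h : (PresentedGroup.mk (torRel 3)) (gen 0 * gen 1 * gen 0 * (gen 1 * gen 0 * gen 1)⁻¹) =
      1 := PresentedGroup.one_of_mem (Or.inl (Or.inr ⟨0, 1, rfl, rfl⟩))
  rw [map_mul, map_inv, mul_inv_eq_one] at h
  exact h

theorem rel_three : (ga * gb) ^ 3 = 1 :=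
  PresentedGroup.one_of_mem (rels := torRel 3) (x := (gen 0 * gen 1) ^ 3) (Or.inr rfl)

theorem rel_two : ga * gb * ga * (ga * gb * ga) = 1 := by
  have h := rel_three
  have h2 : (ga * gb) ^ 3 = ga * gb * ga * (gb * ga * gb) := by
    simp only [pow_succ, pow_zero, one_mul, mul_assoc]
  rw [h2, ← rel_braid] at h
  exact h

theorem surj_of {M : Type*} [Group M] (f : M →* PTor) (x y : M) (hx : f x = ga) (hy : f y = gb) :
    Function.Surjective f := by
  rw [← MonoidHom.range_eq_top, eq_top_iff, ← PresentedGroup.closure_range_of,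
    Subgroup.closure_le]
  rintro _ ⟨i, rfl⟩
  fin_cases i
  · exact ⟨x, hx⟩
  · exact ⟨y, hy⟩

theorem braidRel2 (r : FreeGroup (Fin 2)) (hr : r ∈ braidRel 2) :
    FreeGroup.lift (![ga, gb] : Fin 2 → PTor) r = 1 := by
  rcases hr with ⟨i, j, hij, rfl⟩ | ⟨i, j, hij, rfl⟩
  · have := i.isLt
    have := j.isLt
    omega
  · have h : ∀ i j : Fin 2, j.val = i.val + 1 → i = 0 ∧ j = 1 := by decide
    obtain ⟨rfl, rfl⟩ := h i j hij
    rw [map_mul, map_inv, mul_inv_eq_one]
    simpa [gen] using rel_braid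

theorem braidRel3 (r : FreeGroup (Fin 3)) (hr : r ∈ braidRel 3) :
    FreeGroup.lift (![ga, gb, ga] : Fin 3 → PTor) r = 1 := by
  rcases hr with ⟨i, j, hij, rfl⟩ | ⟨i, j, hij, rfl⟩
  · have h : ∀ i j : Fin 3, i.val + 2 ≤ j.val → i = 0 ∧ j = 2 := by decide
    obtain ⟨rfl, rfl⟩ := h i j hij
    rw [map_mul, map_inv, mul_inv_eq_one]
    simp [gen]
  · have h : ∀ i j : Fin 3, j.val = i.val + 1 → (i = 0 ∧ j = 1) ∨ (i = 1 ∧ j = 2) := by decide
    rcases h i j hij with ⟨rfl, rfl⟩ | ⟨rfl, rfl⟩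
    · rw [map_mul, map_inv, mul_inv_eq_one]
      simpa [gen] using rel_braid
    · rw [map_mul, map_inv, mul_inv_eq_one]
      simpa [gen] using rel_braid.symm

theorem torRel6 (r : FreeGroup (Fin 2)) (hr : r ∈ torRel 6) :
    FreeGroup.lift (![ga, gb] : Fin 2 → PTor) r = 1 := by
  rcases hr with hr | rfl
  · exact braidRel2 r hr
  · have h : (FreeGroup.lift (![ga, gb] : Fin 2 → PTor)) ((gen 0 * gen 1) ^ 6) =
        ((ga * gb) ^ 3) ^ 2 := by
      rw [← pow_mul]
      simp [gen]
    rw [h, rel_three, one_pow]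

theorem sphRel3 (r : FreeGroup (Fin 3)) (hr : r ∈ sphRel 3) :
    FreeGroup.lift (![ga, gb, ga] : Fin 3 → PTor) r = 1 := by
  have h1 : (FreeGroup.lift (![ga, gb, ga] : Fin 3 → PTor)) (chainWord 3) = ga * gb * ga := by
    simp [chainWord, List.ofFn_succ, gen, mul_assoc]
  have h2 : (FreeGroup.lift (![ga, gb, ga] : Fin 3 → PTor)) (chainWordRev 3) = ga * gb * ga := by
    simp [chainWordRev, List.ofFn_succ, gen, mul_assoc]
  rcases hr with hr | rfl | rfl
  · exact braidRel3 r hr
  · rw [map_pow, h1]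
    have : (ga * gb * ga) ^ (3 + 1) = (ga * gb * ga * (ga * gb * ga)) ^ 2 := by
      rw [← sq, ← pow_mul]
    rw [this, rel_two, one_pow]
  · rw [map_mul, h1, h2, rel_two]

end InfT

open InfT in
/-- The torus. -/
theorem infTor (k : ℕ) (hk : (powSub (FreeGroup (Fin 2)) k).index = 0) :
    (powSub Tor (6 * k)).index = 0 :=
  index_zero_of_surj' (PresentedGroup.toGroup torRel6)
    (surj_of _ (PresentedGroup.of 0) (PresentedGroup.of 1) (PresentedGroup.toGroup.of _)
      (PresentedGroup.toGroup.of _)) _ (infT k hk)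

open InfT in
/-- The braid group on three strands. -/
theorem infBr2 (k : ℕ) (hk : (powSub (FreeGroup (Fin 2)) k).index = 0) :
    (powSub (Braid 2) (6 * k)).index = 0 :=
  index_zero_of_surj' (PresentedGroup.toGroup braidRel2)
    (surj_of _ (PresentedGroup.of 0) (PresentedGroup.of 1) (PresentedGroup.toGroup.of _)
      (PresentedGroup.toGroup.of _)) _ (infT k hk)

open InfT in
/-- The braid group on four strands. -/
theorem infBr3 (k : ℕ) (hk : (powSub (FreeGroup (Fin 2)) k).index = 0) :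
    (powSub (Braid 3) (6 * k)).index = 0 :=
  index_zero_of_surj' (PresentedGroup.toGroup braidRel3)
    (surj_of _ (PresentedGroup.of 0) (PresentedGroup.of 1) (PresentedGroup.toGroup.of _)
      (PresentedGroup.toGroup.of _)) _ (infT k hk)

open InfT in
/-- The sphere with four punctures. -/
theorem infSph3 (k : ℕ) (hk : (powSub (FreeGroup (Fin 2)) k).index = 0) :
    (powSub (Sph 3) (6 * k)).index = 0 :=
  index_zero_of_surj' (PresentedGroup.toGroup sphRel3)
    (surj_of _ (PresentedGroup.of 0) (PresentedGroup.of 1) (PresentedGroup.toGroup.of _)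
      (PresentedGroup.toGroup.of _)) _ (infT k hk)

end Pool.Agent.PowQ
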