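import Pool.Agent.PowQ.Surf
import Pool.Agent.PowQ.Fin
import Pool.Agent.PowQ.Inf2
import Pool.Agent.PowQ.InfB
import Pool.Agent.PowQ.InfS
import Pool.Agent.PowQ.InfT
import Pool.Agent.PowQ.InfAB

/-!
# Surfaces of genus at most two
-/

namespace Pool.Agent.PowQ

theorem lc_dvd {n N : ℕ} (h : ∀ d, 1 ≤ d → d ≤ n → d ∣ N) :
    (Finset.Icc 1 n).lcm id ∣ N := by
  refine Finset.lcm_dvd fun d hd => ?_
  rw [Finset.mem_Icc] at hd
  exact h d hd.1 hd.2

theorem dvd_lcm' {n d : ℕ} (h1 : 1 ≤ d) (h2 : d ≤ n) : d ∣ (Finset.Icc 1 n).lcm id :=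
  Finset.dvd_lcm (f := id) (Finset.mem_Icc.2 ⟨h1, h2⟩)

/-- Groups with the braid relations among their generators. -/
theorem index_ne_of_eq {m : ℕ} {rels : Set (FreeGroup (Fin m))} (N : ℕ) (hN : N ≠ 0)
    (t : PresentedGroup rels ⧸ powSub (PresentedGroup rels) N)
    (h : ∀ x ∈ Set.range (PresentedGroup.of (rels := rels)),
      (QuotientGroup.mk' (powSub (PresentedGroup rels) N)) x = t) :
    (powSub (PresentedGroup rels) N).index ≠ 0 := by
  refine index_ne_zero_of_comm N hN (Set.range (PresentedGroup.of (rels := rels))) ?_ {t}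
    (Set.finite_singleton _) (fun x hx => h x hx) ?_
  · rw [closure_of, Subgroup.index_top]
    exact one_ne_zero
  · rintro a ha b hb
    rw [Set.mem_singleton_iff] at ha hb
    rw [ha, hb]

theorem six_of_braid {m : ℕ} (hm : 2 ≤ m) {rels : Set (FreeGroup (Fin m))}
    (h : braidRel m ⊆ rels) (N : ℕ) (h0 : (powSub (PresentedGroup rels) N).index = 0) :
    6 ∣ N := by
  by_contra h6
  have hN : N ≠ 0 := by
    rintro rfl
    exact h6 (dvd_zero 6)
  set π := QuotientGroup.mk' (powSub (PresentedGroup rels) N) with hπ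
  have hc := chain_of h π (fun i => if hi : i < m then π (PresentedGroup.of ⟨i, hi⟩) else 1)
    (by intro i; simp)
  have h1 := collapse_two hc N (pow_quot N) h6
  refine index_ne_of_eq N hN (π (PresentedGroup.of ⟨0, by omega⟩)) ?_ h0
  rintro x ⟨i, rfl⟩
  have h2 := h1 i.val i.isLt
  have h3 : π (PresentedGroup.of i) = π (PresentedGroup.of ⟨0, by omega⟩) := by
    simpa [show 0 < m by omega] using h2
  exact h3

theorem dvd_of_braid {m : ℕ} (hm : 4 ≤ m) {rels : Set (FreeGroup (Fin m))}
    (h : braidRel m ⊆ rels) (N : ℕ) (h0 : (powSub (PresentedGroup rels) N).index = 0) (d : ℕ)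
    (hd : 1 ≤ d) (hd' : d ≤ m + 1) : d ∣ N := by
  by_contra hdN
  have hN : N ≠ 0 := by
    rintro rfl
    exact hdN (dvd_zero d)
  exact index_ne_of_eq N hN _ (all_gen hm h N d hd hd' hdN) h0

theorem Threshold.of_surj {M H : Type*} [Group M] [Group H] (f : M →* H)
    (hf : Function.Surjective f) {L : ℕ} (h : Threshold H L)
    (hM : ∀ N, (powSub M N).index = 0 → L ∣ N) : Threshold M L :=
  ⟨hM, fun k hk => index_zero_of_surj f hf _ (h.2 k hk)⟩

theorem braid_sub_sph (m : ℕ) : braidRel m ⊆ sphRel m := fun _ hr => Or.inl hr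

/-- The braid groups. -/
theorem thr_braid (m : ℕ) (hm : 2 ≤ m) : Threshold (Braid m) (lc (m + 1)) := by
  unfold lc
  split_ifs with h
  · refine ⟨fun N h0 => six_of_braid hm (le_refl _) N h0, fun k hk => ?_⟩
    obtain rfl | rfl : m = 2 ∨ m = 3 := by omega
    · exact infBr2 k hk
    · exact infBr3 k hk
  · refine ⟨fun N h0 => lc_dvd (dvd_of_braid (by omega) (le_refl _) N h0), fun k hk => ?_⟩
    exact infB m hm _ k (fun d h1 h2 => dvd_lcm' h1 h2) hk

/-- The punctured spheres. -/
theorem thr_sph (m : ℕ) (hm : 3 ≤ m) : Threshold (Sph m) (lc (m + 1)) := by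
  unfold lc
  split_ifs with h
  · refine ⟨fun N h0 => six_of_braid (by omega) (braid_sub_sph m) N h0, fun k hk => ?_⟩
    obtain rfl : m = 3 := by omega
    exact infSph3 k hk
  · refine ⟨fun N h0 => lc_dvd (dvd_of_braid (by omega) (braid_sub_sph m) N h0),
      fun k hk => ?_⟩
    exact infS m hm _ k (fun d h1 h2 => dvd_lcm' h1 h2) hk

/-- The torus. -/
theorem thr_tor : Threshold Tor 6 :=
  ⟨fun N h0 => six_of_braid (le_refl 2) (fun _ hr => Or.inl hr) N h0, fun k hk => infTor k hk⟩

theorem sixty_dvd {N : ℕ} (h : ∀ d, 1 ≤ d → d ≤ 6 → d ∣ N) : 60 ∣ N := by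
  have h3 := h 3 (by norm_num) (by norm_num)
  have h4 := h 4 (by norm_num) (by norm_num)
  have h5 := h 5 (by norm_num) (by norm_num)
  omega

/-- The closed surface of genus two. -/
theorem thr_mod2 : Threshold Mod2 60 :=
  ⟨fun N h0 => sixty_dvd (dvd_of_braid (by norm_num) (fun _ hr => Or.inl hr) N h0),
    fun k hk => inf2 k hk⟩

/-- Surfaces of genus one. -/
theorem thr_one {M : Type*} [Group M] (T : Surface 2 M) (f : M →* Tor)
    (hf : Function.Surjective f) : Threshold M 6 :=
  thr_tor.of_surj f hf fun N h0 => T.six le_rfl N h0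

/-- Surfaces of genus two. -/
theorem thr_two {M : Type*} [Group M] (T : Surface 5 M) (f : M →* Mod2)
    (hf : Function.Surjective f) : Threshold M 60 :=
  thr_mod2.of_surj f hf fun N h0 => sixty_dvd fun d h1 h2 => T.ge (by norm_num) N h0 d h1 h2

/-- Planar surfaces with at most three boundary components and at least three punctures. -/
theorem thr_planar {n : ℕ} (hn : 3 ≤ n) {M : Type*} [Group M] (T : Planar n M)
    (f : M →* Braid (n - 1)) (hf : Function.Surjective f) : Threshold M (lc n) := by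
  have h1 := thr_braid (n - 1) (by omega)
  rw [show n - 1 + 1 = n by omega] at h1
  refine h1.of_surj f hf fun N h0 => ?_
  unfold lc
  split_ifs with h
  · exact T.six hn N h0
  · exact lc_dvd fun d hd hd' => T.ge (by omega) N h0 d hd hd'

/-- Planar surfaces with two or three boundary components and two punctures. -/
theorem thr_planar_two {M : Type*} [Group M] (T : Planar 2 M) (f : M →* AB)
    (hf : Function.Surjective f) : Threshold M 2 :=
  ⟨fun N h0 => T.two N h0, fun k hk => index_zero_of_surj f hf _ (infAB k hk)⟩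

/-- Groups which map onto the free group of rank two. -/
theorem thr_free {M : Type*} [Group M] (f : M →* FreeGroup (Fin 2))
    (hf : Function.Surjective f) : Threshold M 1 :=
  ⟨fun N _ => one_dvd N, fun k hk => by
    rw [one_mul]
    exact index_zero_of_surj f hf _ hk⟩

/-- Finitely generated abelian groups. -/
theorem index_ne_comm (A : Type*) [Group A] (hA : ∀ a b : A, a * b = b * a)
    (S : Set A) (hS : S.Finite) (hS' : Subgroup.closure S = ⊤) (N : ℕ) (hN : N ≠ 0) :
    (powSub A N).index ≠ 0 := by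
  refine index_ne_zero_of_comm N hN S ?_ ((QuotientGroup.mk' (powSub A N)) '' S) (hS.image _)
    (fun x hx => ⟨x, hx, rfl⟩) ?_
  · rw [hS', Subgroup.index_top]
    exact one_ne_zero
  · rintro _ ⟨a, _, rfl⟩ _ ⟨b, _, rfl⟩
    rw [← map_mul, ← map_mul, hA]

/-- Infinite finitely generated abelian groups. -/
theorem thr_comm {A : Type*} [Group A] [Infinite A] (hA : ∀ a b : A, a * b = b * a)
    (S : Set A) (hS : S.Finite) (hS' : Subgroup.closure S = ⊤) : Threshold A 0 := by
  constructor
  · intro N h0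
    by_contra hN
    exact index_ne_comm A hA S hS hS' N (fun h1 => hN (h1 ▸ dvd_rfl)) h0
  · intro k _
    rw [zero_mul]
    have h1 : powSub A 0 = ⊥ := by
      rw [powSub, Subgroup.closure_eq_bot_iff]
      rintro x ⟨g, rfl⟩
      simp
    rw [h1, Subgroup.index_bot, Nat.card_eq_zero]
    exact Or.inr inferInstance

/-- The exact index for the braid groups. -/
theorem index_braid {m : ℕ} (hm : 4 ≤ m) {N : ℕ} (h : ¬ lc (m + 1) ∣ N) :
    (powSub (Braid m) N).index = N := by
  rw [lc, if_neg (by omega)] at h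
  by_contra h2
  apply h
  refine lc_dvd fun d h3 h4 => ?_
  by_contra h5
  exact h2 (finB m hm N d h3 h4 h5)

/-- The exact index for the punctured spheres. -/
theorem index_sph {m : ℕ} (hm : 4 ≤ m) {N : ℕ} (h : ¬ lc (m + 1) ∣ N) :
    (powSub (Sph m) N).index = Nat.gcd N (m * Nat.gcd 2 (m + 1)) := by
  rw [lc, if_neg (by omega)] at h
  by_contra h2
  apply h
  refine lc_dvd fun d h3 h4 => ?_
  by_contra h5
  exact h2 (finS m hm N d h3 h4 h5)

/-- The exact index for the closed surface of genus two. -/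
theorem index_mod2 {N : ℕ} (h : ¬ 60 ∣ N) : (powSub Mod2 N).index = Nat.gcd N 10 := by
  by_contra h2
  apply h
  refine sixty_dvd fun d h3 h4 => ?_
  by_contra h5
  exact h2 (fin2 N d h3 h4 h5)

end Pool.Agent.PowQ
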