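import Pool.Agent.PowQ.Gen
import Pool.Agent.PowQ.Defs2

/-!
# Power quotients: the planar surfaces, the finite side
-/

namespace Pool.Agent.PowQ

theorem index_zero_of_surj {M H : Type*} [Group M] [Group H] (f : M →* H)
    (hf : Function.Surjective f) (N : ℕ) (h : (powSub H N).index = 0) :
    (powSub M N).index = 0 := by
  have h1 : powSub M N ≤ (powSub H N).comap f := by
    rw [powSub, Subgroup.closure_le]
    rintro x ⟨g, rfl⟩
    exact Subgroup.subset_closure ⟨f g, map_pow f g N⟩
  have h2 := Subgroup.index_dvd_of_le h1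
  rw [Subgroup.index_comap_of_surjective _ hf, h] at h2
  exact Nat.eq_zero_of_zero_dvd h2

theorem index_ne_zero_of_comm {M : Type*} [Group M] (N : ℕ) (hN : N ≠ 0) (S : Set M)
    (hS : (Subgroup.closure S).index ≠ 0) (T : Set (M ⧸ powSub M N)) (hT : T.Finite)
    (hST : ∀ x ∈ S, QuotientGroup.mk' (powSub M N) x ∈ T) (hc : ∀ a ∈ T, ∀ b ∈ T, a * b = b * a) :
    (powSub M N).index ≠ 0 := by
  -- the closure of `T` is a finite commutative group
  have hfin : Finite (Subgroup.closure T) := by
    let hcomm : CommGroup (Subgroup.closure T) := Subgroup.closureCommGroupOfComm hc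
    have hfg : Group.FG (Subgroup.closure T) := by
      have : Finite T := hT
      exact (Group.fg_iff_subgroup_fg _).2 ((Subgroup.fg_iff _).2 ⟨T, rfl, hT⟩)
    refine CommGroup.finite_of_fg_torsion (Subgroup.closure T) fun x => ?_
    rw [isOfFinOrder_iff_pow_eq_one]
    exact ⟨N, Nat.pos_of_ne_zero hN, Subtype.ext (pow_quot N (x : M ⧸ powSub M N))⟩
  have h1 : (Subgroup.closure S).map (QuotientGroup.mk' (powSub M N)) ≤ Subgroup.closure T := by
    rw [MonoidHom.map_closure, Subgroup.closure_le]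
    rintro _ ⟨x, hx, rfl⟩
    exact Subgroup.subset_closure (hST x hx)
  have h2 : (Subgroup.closure T).index ≠ 0 := by
    intro h0
    have h3 := Subgroup.index_dvd_of_le h1
    have h4 := Subgroup.index_map_dvd (Subgroup.closure S)
      (QuotientGroup.mk'_surjective (powSub M N))
    rw [h0] at h3
    rw [Nat.eq_zero_of_zero_dvd h3] at h4
    exact hS (Nat.eq_zero_of_zero_dvd h4)
  have h5 := (Subgroup.closure T).card_mul_index
  have h6 : Nat.card (Subgroup.closure T) ≠ 0 := Nat.card_ne_zero.2 ⟨⟨1⟩, hfin⟩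
  rw [Subgroup.index, ← h5]
  exact mul_ne_zero h6 h2

theorem pair_eq {Q : Type*} [Group Q] {a b : Q} (h : a * b * a = b * a * b) (N : ℕ)
    (hN : ∀ x : Q, x ^ N = 1) (h6 : ¬ 6 ∣ N) : a = b := by
  have e1 : (a * b * a) * a = b * (a * b * a) := by
    calc (a * b * a) * a = (b * a * b) * a := by rw [h]
      _ = b * (a * b * a) := by simp only [mul_assoc]
  have e2 : (a * b * a) * b = a * (a * b * a) := by
    calc (a * b * a) * b = a * (b * a * b) := by simp only [mul_assoc]
      _ = a * (a * b * a) := by rw [h]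
  have e3 : (a * b * a) ^ 2 * a = a * (a * b * a) ^ 2 := by
    rw [pow_two, mul_assoc, e1, ← mul_assoc, e2, mul_assoc]
  by_cases h3 : 3 ∣ N
  · have h2 : ¬ 2 ∣ N := fun h2 => h6 (by
      have := Nat.Coprime.mul_dvd_of_dvd_of_dvd (by norm_num : Nat.Coprime 2 3) h2 h3
      simpa using this)
    have g2 : Nat.gcd 2 N = 1 := (Nat.Prime.coprime_iff_not_dvd Nat.prime_two).2 h2
    have h4 := pow_gcd_comm e3 (hN (a * b * a))
    rw [g2, pow_one, e1] at h4
    exact (mul_right_cancel h4).symm
  · have g3 : Nat.gcd 3 N = 1 := (Nat.Prime.coprime_iff_not_dvd Nat.prime_three).2 h3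
    have e4 : (a * b) ^ 3 = (a * b * a) ^ 2 := by
      calc (a * b) ^ 3 = (a * b * a) * (b * a * b) := by
            simp only [pow_succ, pow_zero, one_mul, mul_assoc]
        _ = (a * b * a) ^ 2 := by rw [← h, pow_two]
    rw [← e4] at e3
    have h4 := pow_gcd_comm e3 (hN (a * b))
    rw [g3, pow_one, mul_assoc] at h4
    exact eq_of_braid_comm h (mul_left_cancel h4).symm

theorem collapse_two {Q : Type*} [Group Q] {s : ℕ → Q} {l : ℕ} (h : Chain s l) (N : ℕ)
    (hN : ∀ x : Q, x ^ N = 1) (h6 : ¬ 6 ∣ N) : ∀ i, i < l → s i = s 0 := by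
  intro i
  induction i with
  | zero => intro _; rfl
  | succ i ih =>
    intro hi
    rw [← pair_eq (h.braid i hi) N hN h6]
    exact ih (by omega)

theorem Planar.chain {n : ℕ} {M : Type*} [Group M] (H : Planar n M) {Q : Type*} [Group Q]
    (π : M →* Q) : Chain (fun i => π (H.s i)) (n - 1) where
  braid := by
    intro i hi
    have := congrArg π (H.braid i (by omega))
    simpa using this
  comm := by
    intro i j hij hj
    have := congrArg π (H.comm i j (by omega) (by omega))
    simpa using this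

theorem Planar.fin_of_comm {n : ℕ} {M : Type*} [Group M] (H : Planar n M) (N : ℕ) (hN : N ≠ 0)
    (h0 : ∀ i, i + 1 < n → QuotientGroup.mk' (powSub M N) (H.s i) =
      QuotientGroup.mk' (powSub M N) (H.s 0))
    (h1 : QuotientGroup.mk' (powSub M N) H.y₁ * QuotientGroup.mk' (powSub M N) (H.s 0) =
      QuotientGroup.mk' (powSub M N) (H.s 0) * QuotientGroup.mk' (powSub M N) H.y₁)
    (h2 : QuotientGroup.mk' (powSub M N) H.y₂ * QuotientGroup.mk' (powSub M N) (H.s 0) =
      QuotientGroup.mk' (powSub M N) (H.s 0) * QuotientGroup.mk' (powSub M N) H.y₂) :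
    (powSub M N).index ≠ 0 := by
  set π := QuotientGroup.mk' (powSub M N) with hπ
  have h3 : π H.y₁ * π H.y₂ = π H.y₂ * π H.y₁ := by
    have h4 := congrArg π H.both
    simp only [map_mul, map_inv] at h4
    have h5 : (π (H.s 0))⁻¹ * π H.y₂ * π (H.s 0) = π H.y₂ := by
      rw [mul_assoc, h2, inv_mul_cancel_left]
    rw [h5] at h4
    exact h4
  have hz : ∀ x ∈ H.z, ∀ q : M ⧸ powSub M N, π x * q = q * π x := by
    intro x hx q
    obtain ⟨y, rfl⟩ := QuotientGroup.mk'_surjective (powSub M N) q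
    rw [← map_mul, ← map_mul, H.zcomm x hx y]
  refine index_ne_zero_of_comm N hN ({x | ∃ i, i + 1 < n ∧ x = H.s i} ∪ {H.y₁, H.y₂} ∪ H.z)
    (by rw [H.gen]; simp) ({π (H.s 0), π H.y₁, π H.y₂} ∪ π '' H.z)
    ((Set.toFinite _).union (H.zfin.image _)) ?_ ?_
  · rintro x ((⟨i, hi, rfl⟩ | hx) | hx)
    · left; left; exact h0 i hi
    · rcases hx with rfl | hx
      · left; right; left; rfl
      · rw [Set.mem_singleton_iff] at hx
        subst hx
        left; right; right; rfl
    · right; exact ⟨x, hx, rfl⟩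
  · rintro a ((rfl | rfl | ha) | ⟨x, hx, rfl⟩) b hb
    · rcases hb with ((rfl | rfl | hb) | ⟨y, hy, rfl⟩)
      · rfl
      · exact h1.symm
      · rw [Set.mem_singleton_iff] at hb
        rw [hb]; exact h2.symm
      · exact (hz y hy _).symm
    · rcases hb with ((rfl | rfl | hb) | ⟨y, hy, rfl⟩)
      · exact h1
      · rfl
      · rw [Set.mem_singleton_iff] at hb
        rw [hb]; exact h3
      · exact (hz y hy _).symm
    · rw [Set.mem_singleton_iff] at ha
      subst ha
      rcases hb with ((rfl | rfl | hb) | ⟨y, hy, rfl⟩)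
      · exact h2
      · exact h3.symm
      · rw [Set.mem_singleton_iff] at hb
        rw [hb]
      · exact (hz y hy _).symm
    · exact hz x hx b

theorem Planar.fin_of_eq {n : ℕ} (hn : 3 ≤ n) {M : Type*} [Group M] (H : Planar n M) (N : ℕ)
    (hN : N ≠ 0)
    (h0 : ∀ i, i + 1 < n → QuotientGroup.mk' (powSub M N) (H.s i) =
      QuotientGroup.mk' (powSub M N) (H.s 0)) : (powSub M N).index ≠ 0 := by
  refine H.fin_of_comm N hN h0 ?_ ?_
  · rw [← h0 1 (by omega)]
    have := congrArg (QuotientGroup.mk' (powSub M N)) (H.far₁ 1 le_rfl (by omega))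
    simpa using this
  · rw [← h0 1 (by omega)]
    have := congrArg (QuotientGroup.mk' (powSub M N)) (H.far₂ 1 le_rfl (by omega))
    simpa using this

theorem Planar.six {n : ℕ} (hn : 3 ≤ n) {M : Type*} [Group M] (H : Planar n M) (N : ℕ)
    (h : (powSub M N).index = 0) : 6 ∣ N := by
  by_contra h6
  have hN : N ≠ 0 := by rintro rfl; exact h6 (dvd_zero _)
  have h1 := collapse_two (H.chain (QuotientGroup.mk' (powSub M N))) N (pow_quot N) h6
  exact H.fin_of_eq hn N hN (fun i hi => h1 i (by omega)) h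

theorem Planar.ge {n : ℕ} (hn : 5 ≤ n) {M : Type*} [Group M] (H : Planar n M) (N : ℕ)
    (h : (powSub M N).index = 0) (d : ℕ) (hd : 1 ≤ d) (hd' : d ≤ n) : d ∣ N := by
  by_contra hdN
  have hN : N ≠ 0 := by rintro rfl; exact hdN (dvd_zero _)
  have h1 := collapse (H.chain (QuotientGroup.mk' (powSub M N))) (by omega) N (pow_quot N) d hd
    (by omega) hdN
  exact H.fin_of_eq (by omega) N hN (fun i hi => h1 i (by omega)) h

theorem comm_of_near {Q : Type*} [Group Q] {s y : Q} (h : s * y * s * y = y * s * y * s) (N : ℕ)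
    (hN : ∀ x : Q, x ^ N = 1) (h2 : ¬ 2 ∣ N) : y * s = s * y := by
  have e1 : (s * y) ^ 2 * s = s * (s * y) ^ 2 := by
    calc (s * y) ^ 2 * s = s * (y * s * y * s) := by simp only [pow_two, mul_assoc]
      _ = s * (s * y * s * y) := by rw [h]
      _ = s * (s * y) ^ 2 := by simp only [pow_two, mul_assoc]
  have g2 : Nat.gcd 2 N = 1 := (Nat.Prime.coprime_iff_not_dvd Nat.prime_two).2 h2
  have h4 := pow_gcd_comm e1 (hN (s * y))
  rw [g2, pow_one, mul_assoc] at h4
  exact mul_left_cancel h4

theorem Planar.two {M : Type*} [Group M] (H : Planar 2 M) (N : ℕ)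
    (h : (powSub M N).index = 0) : 2 ∣ N := by
  by_contra h2
  have hN : N ≠ 0 := by rintro rfl; exact h2 (dvd_zero _)
  refine H.fin_of_comm N hN ?_ ?_ ?_ h
  · intro i hi
    have : i = 0 := by omega
    rw [this]
  · refine comm_of_near ?_ N (pow_quot N) h2
    have := congrArg (QuotientGroup.mk' (powSub M N)) H.near₁
    simpa using this
  · refine comm_of_near ?_ N (pow_quot N) h2
    have := congrArg (QuotientGroup.mk' (powSub M N)) H.near₂
    simpa using this

end Pool.Agent.PowQ
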