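import Mathlib

/-!
# Primes which are primitive roots modulo a power of an odd prime
-/

namespace Pool.Agent.PowQ

theorem exists_prim {p : ℕ} (hp : p.Prime) (h2 : p ≠ 2) (b : ℕ) (hb : 1 ≤ b) :
    ∃ l : ℕ, l.Prime ∧ l ≠ p ∧ orderOf ((l : ℕ) : ZMod (p ^ b)) = Nat.totient (p ^ b) := by
  have : NeZero (p ^ b) := ⟨pow_ne_zero b hp.ne_zero⟩
  have hc : IsCyclic (ZMod (p ^ b))ˣ := ZMod.isCyclic_units_of_prime_pow p hp h2 b
  obtain ⟨u, hu⟩ := hc.exists_generator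
  obtain ⟨l, hl, hl', hlu⟩ := Nat.forall_exists_prime_gt_and_eq_mod u.isUnit p
  refine ⟨l, hl', hl.ne', ?_⟩
  rw [hlu, orderOf_units, orderOf_eq_card_of_forall_mem_zpowers hu, Nat.card_eq_fintype_card,
    ZMod.card_units_eq_totient]

end Pool.Agent.PowQ
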