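import Mathlib

/-!
# Exponents of symplectic groups over prime fields, odd prime powers

If `l` is a primitive root modulo `p ^ b` then the cyclotomic polynomial of index `p ^ b` is
irreducible over the field with `l` elements, so a matrix whose order is divisible by `p ^ b` has
size at least `φ (p ^ b)`.
-/

set_option autoImplicit false

namespace Pool.Agent.PowQ

open Polynomial

theorem not_dvd_orderOf {ι : Type} [Fintype ι] [DecidableEq ι] {l p b : ℕ} [Fact l.Prime]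
    (hp : p.Prime) (hb : 1 ≤ b) (hl : l ≠ p)
    (hl' : orderOf ((l : ℕ) : ZMod (p ^ b)) = Nat.totient (p ^ b))
    (h : Fintype.card ι < Nat.totient (p ^ b)) (x : Matrix ι ι (ZMod l)) (hx : 0 < orderOf x) :
    ¬ p ^ b ∣ orderOf x := by
  obtain ⟨c, rfl⟩ : ∃ c, b = c + 1 := ⟨b - 1, by omega⟩
  have : Fact p.Prime := ⟨hp⟩
  have hl0 : l.Prime := Fact.out
  intro hd
  obtain ⟨y, hy⟩ : ∃ y : Matrix ι ι (ZMod l), orderOf y = p ^ (c + 1) :=
    ⟨x ^ (orderOf x / p ^ (c + 1)), orderOf_pow_orderOf_div hx.ne' hd⟩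
  have h1 : y ^ p ^ (c + 1) = 1 := by rw [← hy]; exact pow_orderOf_eq_one y
  have h2 : y ^ p ^ c ≠ 1 := by
    refine pow_ne_one_of_lt_orderOf (pow_ne_zero c hp.ne_zero) ?_
    rw [hy]
    exact Nat.pow_lt_pow_right hp.one_lt (Nat.lt_succ_self c)
  -- the cyclotomic polynomial is irreducible
  have hndvd : ¬ l ∣ p ^ (c + 1) := by
    intro hlp
    exact hl ((Nat.prime_dvd_prime_iff_eq hl0 hp).1 (hl0.dvd_of_dvd_pow hlp))
  have hirr : Irreducible (cyclotomic (p ^ (c + 1)) (ZMod l)) := by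
    refine ZMod.irreducible_of_dvd_cyclotomic_of_natDegree hndvd dvd_rfl ?_
    rw [natDegree_cyclotomic, ← orderOf_units, ZMod.coe_unitOfCoprime, hl']
  have hprod : cyclotomic (p ^ (c + 1)) (ZMod l) * (X ^ p ^ c - 1) = X ^ p ^ (c + 1) - 1 :=
    cyclotomic_prime_pow_mul_X_pow_sub_one (ZMod l) p c
  have hd1 : minpoly (ZMod l) y ∣ cyclotomic (p ^ (c + 1)) (ZMod l) * (X ^ p ^ c - 1) := by
    rw [hprod]
    refine minpoly.dvd _ _ ?_
    simp [h1]
  have hd2 : ¬ minpoly (ZMod l) y ∣ X ^ p ^ c - 1 := by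
    intro hh
    obtain ⟨q, hq⟩ := hh
    have h3 := congrArg (aeval y) hq
    rw [map_mul, minpoly.aeval, zero_mul] at h3
    simp only [map_sub, map_pow, aeval_X, map_one] at h3
    exact h2 (sub_eq_zero.1 h3)
  have hd3 : cyclotomic (p ^ (c + 1)) (ZMod l) ∣ minpoly (ZMod l) y := by
    by_contra hh
    have hco : IsCoprime (cyclotomic (p ^ (c + 1)) (ZMod l)) (minpoly (ZMod l) y) :=
      (hirr.isCoprime_or_dvd _).resolve_right hh
    exact hd2 (hco.symm.dvd_of_dvd_mul_left hd1)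
  have hd4 := hd3.trans (Matrix.minpoly_dvd_charpoly y)
  have hdeg := natDegree_le_of_dvd hd4 (Matrix.charpoly_monic y).ne_zero
  rw [natDegree_cyclotomic, Matrix.charpoly_natDegree_eq_dim] at hdeg
  omega

theorem not_dvd_exponent_sp {g l p b : ℕ} [Fact l.Prime] (hp : p.Prime) (hb : 1 ≤ b)
    (hl : l ≠ p) (hl' : orderOf ((l : ℕ) : ZMod (p ^ b)) = Nat.totient (p ^ b))
    (h : 2 * g < Nat.totient (p ^ b)) :
    ¬ p ^ b ∣ Monoid.exponent (Matrix.symplecticGroup (Fin g) (ZMod l)) := by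
  intro hd
  have hfin : Finite (Matrix.symplecticGroup (Fin g) (ZMod l)) := inferInstance
  have hexp : Monoid.exponent (Matrix.symplecticGroup (Fin g) (ZMod l)) ≠ 0 :=
    Monoid.exponent_ne_zero_of_finite
  obtain ⟨x, hx⟩ := hp.exists_orderOf_eq_pow_factorization_exponent
    (Matrix.symplecticGroup (Fin g) (ZMod l))
  have hdx : p ^ b ∣ orderOf x := by
    rw [hx]
    exact pow_dvd_pow p ((hp.pow_dvd_iff_le_factorization hexp).1 hd)
  have hx0 : 0 < orderOf x := orderOf_pos x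
  rw [← orderOf_submonoid] at hdx hx0
  refine not_dvd_orderOf hp hb hl hl' ?_ (x : Matrix (Fin g ⊕ Fin g) (Fin g ⊕ Fin g) (ZMod l))
    hx0 hdx
  rw [Fintype.card_sum, Fintype.card_fin]
  omega

end Pool.Agent.PowQ
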