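import Mathlib

/-!
The exponent of the symplectic group over the field with two elements: no power `2 ^ b` with
`2 * g ≤ 2 ^ (b - 1)` divides it.
-/

namespace Pool.Agent.PowQ

open Polynomial

theorem pow_card_eq_zero_of_nilp {ι : Type*} [Fintype ι] [DecidableEq ι] {K : Type*} [Field K]
    (M : Matrix ι ι K) (hM : IsNilpotent M) : M ^ Fintype.card ι = 0 := by
  have h1 := Matrix.isNilpotent_charpoly_sub_pow_of_isNilpotent hM
  have h2 : M.charpoly = X ^ Fintype.card ι := by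
    have := h1.eq_zero
    exact sub_eq_zero.mp this
  have h3 := Matrix.aeval_self_charpoly M
  rw [h2] at h3
  simpa using h3

theorem not_dvd_exponent_two {g b : ℕ} (hb : 1 ≤ b) (h : 2 * g ≤ 2 ^ (b - 1)) :
    ¬ 2 ^ b ∣ Monoid.exponent (Matrix.symplecticGroup (Fin g) (ZMod 2)) := by
  intro hdvd
  have hne : Monoid.exponent (Matrix.symplecticGroup (Fin g) (ZMod 2)) ≠ 0 :=
    Monoid.exponent_ne_zero_of_finite
  obtain ⟨x, hx⟩ := Nat.Prime.exists_orderOf_eq_pow_factorization_exponent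
    (Matrix.symplecticGroup (Fin g) (ZMod 2)) Nat.prime_two
  have hk := (Nat.prime_two.pow_dvd_iff_le_factorization hne).mp hdvd
  set k := (Monoid.exponent (Matrix.symplecticGroup (Fin g) (ZMod 2))).factorization 2 with hkdef
  have : CharP (Matrix (Fin g ⊕ Fin g) (Fin g ⊕ Fin g) (ZMod 2)) 2 ∨
    Subsingleton (Matrix (Fin g ⊕ Fin g) (Fin g ⊕ Fin g) (ZMod 2)) := by
    rcases Nat.eq_zero_or_pos g with rfl | hg
    · right; infer_instance
    · left
      have : Nonempty (Fin g ⊕ Fin g) := ⟨Sum.inl ⟨0, hg⟩⟩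
      infer_instance
  rcases this with hchar | hsub
  · have hfr : ∀ n : ℕ, ((x : Matrix (Fin g ⊕ Fin g) (Fin g ⊕ Fin g) (ZMod 2)) - 1) ^ 2 ^ n =
        (x : Matrix (Fin g ⊕ Fin g) (Fin g ⊕ Fin g) (ZMod 2)) ^ 2 ^ n - 1 := by
      intro n
      have := sub_pow_char_pow_of_commute (p := 2) n
        (Commute.one_right (x : Matrix (Fin g ⊕ Fin g) (Fin g ⊕ Fin g) (ZMod 2)))
      simpa using this
    have h1 : (x : Matrix (Fin g ⊕ Fin g) (Fin g ⊕ Fin g) (ZMod 2)) ^ 2 ^ k = 1 := by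
      have h0 := pow_orderOf_eq_one x
      rw [hx] at h0
      have h0' := congrArg Subtype.val h0
      simpa using h0'
    have hnil : IsNilpotent ((x : Matrix (Fin g ⊕ Fin g) (Fin g ⊕ Fin g) (ZMod 2)) - 1) :=
      ⟨2 ^ k, by rw [hfr, h1, sub_self]⟩
    have h2 := pow_card_eq_zero_of_nilp _ hnil
    have hcard : Fintype.card (Fin g ⊕ Fin g) = 2 * g := by simp [two_mul]
    rw [hcard] at h2
    have h3 : ((x : Matrix (Fin g ⊕ Fin g) (Fin g ⊕ Fin g) (ZMod 2)) - 1) ^ 2 ^ (b - 1) = 0 :=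
      pow_eq_zero_of_le h h2
    rw [hfr, sub_eq_zero] at h3
    have h4 : x ^ 2 ^ (b - 1) = 1 := by
      apply Subtype.ext
      simpa using h3
    have h5 := orderOf_dvd_of_pow_eq_one h4
    rw [hx] at h5
    have h6 := (Nat.pow_dvd_pow_iff_le_right (by norm_num)).mp h5
    omega
  · have h4 : x ^ 2 ^ (b - 1) = 1 := Subtype.ext (Subsingleton.elim _ _)
    have h5 := orderOf_dvd_of_pow_eq_one h4
    rw [hx] at h5
    have h6 := (Nat.pow_dvd_pow_iff_le_right (by norm_num)).mp h5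
    omega

end Pool.Agent.PowQ
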