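import Pool.Agent.PowQ.High
import Pool.Agent.PowQ.Planar

/-!
# Surfaces of positive genus
-/

namespace Pool.Agent.PowQ

theorem Surface.chain {l : ℕ} {M : Type*} [Group M] (T : Surface l M) {Q : Type*} [Group Q]
    (π : M →* Q) : Chain (fun i => π (T.s i)) l where
  braid := by
    intro i hi
    have := congrArg π (T.braid i hi)
    simpa using this
  comm := by
    intro i j hij hj
    have := congrArg π (T.comm i j hij hj)
    simpa using this

/-- If two adjacent curves of the chain have the same image, so have all nonseparating curves. -/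
theorem Surface.all {l : ℕ} (hl : 2 ≤ l) {M : Type*} [Group M] (T : Surface l M) {Q : Type*}
    [Group Q] (π : M →* Q) (h : π (T.s 1) = π (T.s 0)) : ∀ x ∈ T.tw, π x = π (T.s 0) := by
  have h2 : ∀ x y, Relation.EqvGen
      (fun u v => ∃ g : M, u = g * T.s 0 * g⁻¹ ∧ v = g * T.s 1 * g⁻¹) x y → π x = π y := by
    intro x y hxy
    induction hxy with
    | rel u v h' =>
      obtain ⟨g, rfl, rfl⟩ := h'
      simp only [map_mul]
      rw [h]
    | refl u => rfl
    | symm u v _ ih => exact ih.symm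
    | trans u v w _ _ ih1 ih2 => exact ih1.trans ih2
  intro x hx
  exact h2 x (T.s 0) (T.conn x hx _ (T.mem 0 (by omega)))

theorem Surface.index_ne {l : ℕ} (hl : 2 ≤ l) {M : Type*} [Group M] (T : Surface l M) (N : ℕ)
    (hN : N ≠ 0) (h : ∀ i, i < l → QuotientGroup.mk' (powSub M N) (T.s i) =
      QuotientGroup.mk' (powSub M N) (T.s 0)) : (powSub M N).index ≠ 0 := by
  have h1 := T.all hl _ (h 1 (by omega))
  refine index_ne_zero_of_comm N hN (T.tw ∪ T.z) T.fin
    ({QuotientGroup.mk' (powSub M N) (T.s 0)} ∪ (QuotientGroup.mk' (powSub M N)) '' T.z)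
    ((Set.finite_singleton _).union (T.zfin.image _)) ?_ ?_
  · rintro x (hx | hx)
    · exact Or.inl (h1 x hx)
    · exact Or.inr ⟨x, hx, rfl⟩
  · have hz : ∀ x ∈ T.z, ∀ b : M ⧸ powSub M N,
        (QuotientGroup.mk' (powSub M N)) x * b = b * (QuotientGroup.mk' (powSub M N)) x := by
      intro x hx b
      obtain ⟨y, rfl⟩ := QuotientGroup.mk'_surjective (powSub M N) b
      rw [← map_mul, T.zcomm x hx y, map_mul]
    rintro a ha b hb
    rcases ha with ha | ⟨x, hx, rfl⟩
    · rcases hb with hb | ⟨y, hy, rfl⟩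
      · rw [Set.mem_singleton_iff] at ha hb
        rw [ha, hb]
      · exact (hz y hy a).symm
    · exact hz x hx b

/-- Surfaces of positive genus. -/
theorem Surface.six {l : ℕ} (hl : 2 ≤ l) {M : Type*} [Group M] (T : Surface l M) (N : ℕ)
    (h : (powSub M N).index = 0) : 6 ∣ N := by
  by_contra h6
  have hN : N ≠ 0 := by
    rintro rfl
    exact h6 (dvd_zero 6)
  exact T.index_ne hl N hN (collapse_two (T.chain _) N (pow_quot N) h6) h

/-- Surfaces of genus at least two. -/
theorem Surface.ge {l : ℕ} (hl : 4 ≤ l) {M : Type*} [Group M] (T : Surface l M) (N : ℕ)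
    (h : (powSub M N).index = 0) (d : ℕ) (hd : 1 ≤ d) (hd' : d ≤ l + 1) : d ∣ N := by
  by_contra hdN
  have hN : N ≠ 0 := by
    rintro rfl
    exact hdN (dvd_zero d)
  exact T.index_ne (by omega) N hN (collapse (T.chain _) hl N (pow_quot N) d hd hd' hdN) h

theorem SurfaceF.hrel {g : ℕ} {M : Type*} [Group M] (T : SurfaceF g M) {Q : Type*} [Group Q]
    (π : M →* Q) : HRel g (π T.f) (fun i => π (T.s i)) where
  ch := T.toSurface.chain π
  b := by
    have := congrArg π T.fbraid
    simpa using this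
  c := by
    intro i h1 h2
    have := congrArg π (T.fcomm i h1 h2)
    simpa using this

/-- Surfaces of genus at least three: finite index. -/
theorem SurfaceF.ge {g : ℕ} (hg : 3 ≤ g) {M : Type*} [Group M] (T : SurfaceF g M) (N : ℕ)
    (h : (powSub M N).index = 0) (d : ℕ)
    (hd : (1 ≤ d ∧ d ≤ 2 * g + 2) ∨ d = 9 ∨ ∃ j, 1 ≤ j ∧ j < g ∧ d = 4 * j) : d ∣ N := by
  by_contra hdN
  have hN : N ≠ 0 := by
    rintro rfl
    exact hdN (dvd_zero d)
  exact T.toSurface.index_ne (by omega) N hN
    ((T.hrel _).collapse hg N (pow_quot N) d hd hdN) h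

/-- Surfaces of genus at least three without boundary, with the punctures fixed: the power subgroup
is the whole group. -/
theorem SurfaceF.top {g : ℕ} (hg : 3 ≤ g) {M : Type*} [Group M] (T : SurfaceF g M)
    (hgen : Subgroup.closure T.tw = ⊤) (hperf : commutator M = ⊤) (N : ℕ)
    (h : powSub M N ≠ ⊤) (d : ℕ)
    (hd : (1 ≤ d ∧ d ≤ 2 * g + 2) ∨ d = 9 ∨ ∃ j, 1 ≤ j ∧ j < g ∧ d = 4 * j) : d ∣ N := by
  by_contra hdN
  have h1 := T.toSurface.all (by omega) (QuotientGroup.mk' (powSub M N))
    ((T.hrel _).collapse hg N (pow_quot N) d hd hdN 1 (by omega))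
  have h3 := commutator_le_of_gen (powSub M N) _ hgen _ h1
  rw [hperf] at h3
  exact h (top_le_iff.1 h3)

end Pool.Agent.PowQ
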