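import Pool.Agent.PowQ.Grid
import Pool.Agent.PowQ.Surf
import Pool.Agent.PowQ.SpOdd
import Pool.Agent.PowQ.SpTwo
import Pool.Agent.PowQ.Prim

/-!
# Surfaces of genus at least three: the sharp form
-/

namespace Pool.Agent.PowQ

theorem tau_map {H : Type*} [Group H] {M : Type*} [Group M] (π : M →* H) (p : ℕ)
    (b : ZMod p → M) : π (tau p b) = tau p (fun j => π (b j)) := map_cw π _ _

theorem Grid.map {H : Type*} [Group H] {M : Type*} [Group M] (π : M →* H) {p m : ℕ}
    {b : ℕ → ZMod p → M} (h : Grid p m b) : Grid p m (fun i j => π (b i j)) where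
  rot := by
    intro i hi j
    have := congrArg π (h.rot i hi j)
    rw [map_mul, map_mul, tau_map] at this
    exact this
  near := by
    intro i hi j
    have := congrArg π (h.near i hi j)
    simpa using this
  near' := by
    intro i hi j
    have := congrArg π (h.near' i hi j)
    simpa using this
  off := by
    intro i hi j k h1 h2
    have := congrArg π (h.off i hi j k h1 h2)
    simpa using this
  far := by
    intro i k h1 h2 j l
    have := congrArg π (h.far i k h1 h2 j l)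
    simpa using this

/-- The prime powers which divide `N`. -/
def Small (g q : ℕ) : Prop := Nat.totient q < 2 * g ∨ Nat.totient q = 2 * g ∧ Odd q

theorem SurfaceG.collapse {g : ℕ} (hg : 3 ≤ g) {M : Type*} [Group M] (T : SurfaceG g M) (N : ℕ)
    {q : ℕ} (hq : IsPrimePow q) (hs : Small g q) (hqN : ¬ q ∣ N) :
    ∀ i, i < 2 * g + 1 → QuotientGroup.mk' (powSub M N) (T.s i) =
      QuotientGroup.mk' (powSub M N) (T.s 0) := by
  obtain ⟨p, k, hp, hk, rfl⟩ := (isPrimePow_nat_iff q).1 hq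
  have key := fun d hd hdN => (T.hrel (QuotientGroup.mk' (powSub M N))).collapse hg N
    (pow_quot N) d hd hdN
  obtain ⟨n, rfl⟩ : ∃ n, k = n + 1 := ⟨k - 1, by omega⟩
  have ht : Nat.totient (p ^ (n + 1)) = p ^ n * (p - 1) := Nat.totient_prime_pow_succ hp n
  rw [Small, ht] at hs
  rcases Nat.lt_or_ge 2 p with h2 | h2
  · -- odd primes
    have h3 : p ^ n * (p - 1) ≤ 2 * g := by rcases hs with h | h <;> omega
    rcases Nat.eq_zero_or_pos n with h0 | h0
    · subst h0
      rw [pow_zero, one_mul] at h3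
      rw [zero_add, pow_one] at hqN
      exact key p (Or.inl ⟨by omega, by omega⟩) hqN
    · obtain ⟨e, rfl⟩ : ∃ e, n = e + 1 := ⟨n - 1, by omega⟩
      obtain ⟨b, hb, hb0, hb1⟩ := T.grid p e hp h2 (by rw [mul_comm]; exact h3)
      have h4 := grid_collapse hp (hb.map (QuotientGroup.mk' (powSub M N))) N (pow_quot N) hqN
      simp only [hb0, hb1] at h4
      exact Pool.Agent.PowQ.all_eq (T.toSurface.chain (QuotientGroup.mk' (powSub M N)))
        (by omega) 1 (by norm_num) (by omega) h4.symm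
  · have hp2 : p = 2 := le_antisymm h2 hp.two_le
    subst hp2
    have h3 : 2 ^ n < 2 * g := by
      rcases hs with h | ⟨h, h'⟩
      · simpa using h
      · exfalso
        rw [pow_succ] at h'
        exact (Nat.not_even_iff_odd.2 h') (even_two.mul_left _)
    rcases Nat.lt_or_ge n 2 with h4 | h4
    · have h5 : 2 ^ (n + 1) ≤ 2 ^ 2 := Nat.pow_le_pow_right (by norm_num) (by omega)
      exact key (2 ^ (n + 1)) (Or.inl ⟨Nat.one_le_two_pow, by omega⟩) hqN
    · obtain ⟨e, rfl⟩ : ∃ e, n = e + 1 := ⟨n - 1, by omega⟩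
      have h5 : 2 ^ e < g := by
        rw [pow_succ] at h3
        omega
      refine key (2 ^ (e + 1 + 1)) (Or.inr (Or.inr ⟨2 ^ e, Nat.one_le_two_pow, h5, ?_⟩)) hqN
      ring

/-- Infinite index. -/
theorem SurfaceG.dvd {g : ℕ} (hg : 3 ≤ g) {M : Type*} [Group M] (T : SurfaceG g M) (N : ℕ)
    (h : (powSub M N).index = 0) {q : ℕ} (hq : IsPrimePow q) (hs : Small g q) : q ∣ N := by
  by_contra hqN
  have hN : N ≠ 0 := by
    rintro rfl
    exact hqN (dvd_zero q)
  exact T.toSurface.index_ne (by omega) N hN (T.collapse hg N hq hs hqN) h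

/-- The power subgroup is not the whole group. -/
theorem SurfaceG.dvd_of_ne {g : ℕ} (hg : 3 ≤ g) {M : Type*} [Group M] (T : SurfaceG g M)
    (hgen : Subgroup.closure T.tw = ⊤) (hperf : commutator M = ⊤) (N : ℕ)
    (h : powSub M N ≠ ⊤) {q : ℕ} (hq : IsPrimePow q) (hs : Small g q) : q ∣ N := by
  by_contra hqN
  have h1 := T.toSurface.all (by omega) (QuotientGroup.mk' (powSub M N))
    (T.collapse hg N hq hs hqN 1 (by omega))
  have h3 := commutator_le_of_gen (powSub M N) _ hgen _ h1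
  rw [hperf] at h3
  exact h (top_le_iff.1 h3)

theorem ne_top_of_hom {M H : Type*} [Group M] [Group H] (ρ : M →* H) (hρ : ρ ≠ 1) {N : ℕ}
    (hN : ∀ x : H, x ^ N = 1) : powSub M N ≠ ⊤ := by
  intro h
  have h1 : powSub M N ≤ ρ.ker := powSub_le_ker ρ N fun x => hN _
  rw [h] at h1
  apply hρ
  ext1 x
  exact h1 (Subgroup.mem_top x)

/-- The converse. -/
theorem exists_bad {g : ℕ} {M : Type*} [Group M]
    (hρ : ∀ l : ℕ, [Fact l.Prime] → ∃ ρ : M →* Matrix.symplecticGroup (Fin g) (ZMod l), ρ ≠ 1)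
    {q : ℕ} (hq : IsPrimePow q) (hs : ¬ Small g q) : ∃ N, powSub M N ≠ ⊤ ∧ ¬ q ∣ N := by
  obtain ⟨p, k, hp, hk, rfl⟩ := (isPrimePow_nat_iff q).1 hq
  rw [Small, not_or, not_and] at hs
  obtain ⟨h1, h2⟩ := hs
  rcases Nat.lt_or_ge 2 p with h3 | h3
  · have hodd : Odd (p ^ k) := (hp.odd_of_ne_two (by omega)).pow
    have h4 : 2 * g < Nat.totient (p ^ k) := by
      have h5 : Nat.totient (p ^ k) ≠ 2 * g := fun h => h2 h hodd
      omega
    obtain ⟨l, hl, hlp, hlo⟩ := exists_prim hp (by omega) k hk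
    have : Fact l.Prime := ⟨hl⟩
    obtain ⟨ρ, hρ1⟩ := hρ l
    exact ⟨Monoid.exponent (Matrix.symplecticGroup (Fin g) (ZMod l)),
      ne_top_of_hom ρ hρ1 (fun x => Monoid.pow_exponent_eq_one x),
      not_dvd_exponent_sp hp hk hlp hlo h4⟩
  · have hp2 : p = 2 := le_antisymm h3 hp.two_le
    subst hp2
    obtain ⟨n, rfl⟩ : ∃ n, k = n + 1 := ⟨k - 1, by omega⟩
    rw [Nat.totient_prime_pow_succ hp n] at h1
    obtain ⟨ρ, hρ1⟩ := hρ 2
    refine ⟨Monoid.exponent (Matrix.symplecticGroup (Fin g) (ZMod 2)),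
      ne_top_of_hom ρ hρ1 (fun x => Monoid.pow_exponent_eq_one x),
      not_dvd_exponent_two hk ?_⟩
    simpa using h1

/-- A prime power divides every `N` for which the `N`-th powers do not generate the group if and
only if it is small. -/
theorem SurfaceG.sharp {g : ℕ} (hg : 3 ≤ g) {M : Type*} [Group M] (T : SurfaceG g M)
    (hgen : Subgroup.closure T.tw = ⊤) (hperf : commutator M = ⊤)
    (hρ : ∀ l : ℕ, [Fact l.Prime] → ∃ ρ : M →* Matrix.symplecticGroup (Fin g) (ZMod l), ρ ≠ 1)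
    {q : ℕ} (hq : IsPrimePow q) : (∀ N, powSub M N ≠ ⊤ → q ∣ N) ↔ Small g q := by
  constructor
  · intro h
    by_contra hs
    obtain ⟨N, h1, h2⟩ := exists_bad hρ hq hs
    exact h2 (h N h1)
  · intro hs N hN
    exact T.dvd_of_ne hg hgen hperf N hN hq hs

/-- Genus three. -/
theorem SurfaceG.three {M : Type*} [Group M] (T : SurfaceG 3 M)
    (hgen : Subgroup.closure T.tw = ⊤) (hperf : commutator M = ⊤)
    (hρ : ∃ ρ : M →* Matrix.symplecticGroup (Fin 3) (ZMod 2), ρ ≠ 1) (N : ℕ) :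
    powSub M N = ⊤ ↔ ¬ 2520 ∣ N := by
  constructor
  · rintro h ⟨k, rfl⟩
    obtain ⟨ρ, hρ1⟩ := hρ
    exact ne_top_of_hom ρ hρ1 (fun x => by rw [pow_mul, sp6, one_pow]) h
  · intro h
    by_contra h0
    have key := fun d hd => T.toSurfaceF.top le_rfl hgen hperf N h0 d hd
    have h5 := key 5 (Or.inl ⟨by norm_num, by norm_num⟩)
    have h7 := key 7 (Or.inl ⟨by norm_num, by norm_num⟩)
    have h8 := key 8 (Or.inl ⟨by norm_num, by norm_num⟩)
    have h9 := key 9 (Or.inr (Or.inl rfl))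
    apply h
    omega

end Pool.Agent.PowQ
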