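import Pool.Agent.PowQ.Gen

/-!
# Surfaces of genus at least two
-/

namespace Pool.Agent.PowQ

/-- A system of Dehn twists: `tw` are the twists along the nonseparating curves, `s` is a chain of
`l` of them, consecutive curves meeting once; any two nonseparating curves are joined by a sequence
of such curves in which consecutive ones meet once, and two curves which meet once are the image
of the first two curves of the chain. -/
structure Twists (l : ℕ) (G : Type*) [Group G] where
  tw : Set G
  gen : Subgroup.closure tw = ⊤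
  s : ℕ → G
  mem : ∀ i, i < l → s i ∈ tw
  braid : ∀ i, i + 1 < l → s i * s (i + 1) * s i = s (i + 1) * s i * s (i + 1)
  comm : ∀ i j, i + 2 ≤ j → j < l → s i * s j = s j * s i
  conn : ∀ x ∈ tw, ∀ y ∈ tw, Relation.EqvGen
    (fun u v => ∃ g : G, u = g * s 0 * g⁻¹ ∧ v = g * s 1 * g⁻¹) x y

theorem Twists.all {l : ℕ} (hl : 4 ≤ l) {G : Type*} [Group G] (T : Twists l G) (N d : ℕ)
    (hd : 1 ≤ d) (hd' : d ≤ l + 1) (hdN : ¬ d ∣ N) :
    ∀ x ∈ T.tw, (QuotientGroup.mk' (powSub G N)) x = (QuotientGroup.mk' (powSub G N)) (T.s 0) := by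
  set π := QuotientGroup.mk' (powSub G N) with hπ
  have hc : Chain (fun i => π (T.s i)) l :=
    { braid := by
        intro i hi
        have := congrArg π (T.braid i hi)
        simpa using this
      comm := by
        intro i j hij hj
        have := congrArg π (T.comm i j hij hj)
        simpa using this }
  have h1 := collapse hc hl N (pow_quot N) d hd hd' hdN 1 (by omega)
  have h2 : ∀ x y, Relation.EqvGen
      (fun u v => ∃ g : G, u = g * T.s 0 * g⁻¹ ∧ v = g * T.s 1 * g⁻¹) x y → π x = π y := by
    intro x y hxy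
    induction hxy with
    | rel u v h =>
      obtain ⟨g, rfl, rfl⟩ := h
      simp only [map_mul]
      rw [h1]
    | refl u => rfl
    | symm u v _ ih => exact ih.symm
    | trans u v w _ _ ih1 ih2 => exact ih1.trans ih2
  intro x hx
  exact h2 x (T.s 0) (T.conn x hx _ (T.mem 0 (by omega)))

theorem Twists.comm_le {l : ℕ} (hl : 4 ≤ l) {G : Type*} [Group G] (T : Twists l G) (N d : ℕ)
    (hd : 1 ≤ d) (hd' : d ≤ l + 1) (hdN : ¬ d ∣ N) : commutator G ≤ powSub G N :=
  commutator_le_of_gen (powSub G N) _ T.gen _ (T.all hl N d hd hd' hdN)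

/-- The quotient is cyclic of order dividing `N`. -/
theorem Twists.index_dvd {l : ℕ} (hl : 4 ≤ l) {G : Type*} [Group G] (T : Twists l G) (N d : ℕ)
    (hd : 1 ≤ d) (hd' : d ≤ l + 1) (hdN : ¬ d ∣ N) : (powSub G N).index ∣ N := by
  set t := (QuotientGroup.mk' (powSub G N)) (T.s 0)
  have h0 := T.all hl N d hd hd' hdN
  have h1 : ∀ x : G ⧸ powSub G N, x ∈ Subgroup.zpowers t := by
    intro x
    induction x using QuotientGroup.induction_on with
    | H g =>
      obtain ⟨k, hk⟩ := pow_of_gen (QuotientGroup.mk' (powSub G N)) T.tw T.gen t h0 g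
      exact ⟨k, hk.symm⟩
  have h2 : (Subgroup.zpowers t) = ⊤ := by
    ext x; simp [h1 x]
  have h3 : Nat.card (G ⧸ powSub G N) = orderOf t := by
    rw [← Nat.card_zpowers, h2,
      Nat.card_congr (Subgroup.topEquiv (G := G ⧸ powSub G N)).toEquiv]
  rw [Subgroup.index, h3]
  exact orderOf_dvd_of_pow_eq_one (pow_quot N t)

theorem powSub_map_le {G M : Type*} [Group G] [Group M] (f : G →* M) (N : ℕ) :
    (powSub G N).map f ≤ powSub M N := by
  rw [powSub, MonoidHom.map_closure, Subgroup.closure_le]
  rintro x ⟨y, ⟨g, rfl⟩, rfl⟩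
  exact Subgroup.subset_closure ⟨f g, by rw [map_pow]⟩

/-- Finite index passes to groups which contain a homomorphic image of finite index. -/
theorem index_ne_zero_of_range {G M : Type*} [Group G] [Group M] (f : G →* M)
    (hf : f.range.index ≠ 0) (N : ℕ) (h : (powSub G N).index ≠ 0) : (powSub M N).index ≠ 0 := by
  have h1 : ((powSub G N).map f).index ≠ 0 := by
    rw [Subgroup.index_map]
    refine mul_ne_zero ?_ hf
    intro h2
    have h3 : (powSub G N ⊔ f.ker).index ∣ (powSub G N).index :=
      Subgroup.index_dvd_of_le le_sup_left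
    rw [h2] at h3
    exact h (zero_dvd_iff.1 h3)
  intro h4
  have h5 := Subgroup.index_dvd_of_le (powSub_map_le f N)
  rw [h4] at h5
  exact h1 (zero_dvd_iff.1 h5)

end Pool.Agent.PowQ
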